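import Pool.Agent.Mg.Fee574f.G399175

section

set_option autoImplicit false

namespace Pool.Agent.MP_ee574f_co.CD

open SimpleGraph Classical Finset Function

section

variable {n : ℕ} {N : Type}

/-- One step in the auxiliary graph: an edge of the cycle `ZMod n` or an edge to a hub. -/
def Stp (At : ZMod n → N → Prop) : ZMod n ⊕ N → ZMod n ⊕ N → Prop
  | .inl x, .inl y => y = x + 1 ∨ x = y + 1
  | .inl x, .inr p => At x p
  | .inr p, .inl x => At x p
  | .inr _, .inr _ => False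

/-- Weight of a vertex of the auxiliary graph. -/
noncomputable def wt (lg : N → Prop) : ZMod n ⊕ N → ℕ
  | .inl _ => 1
  | .inr p => if lg p then 14 else 1

/-- Every cycle of the auxiliary graph has weight at most `n`. -/
def Lift (At : ZMod n → N → Prop) (lg : N → Prop) : Prop :=
  ∀ (m : ℕ) [NeZero m], 3 ≤ m → ∀ g : ZMod m → ZMod n ⊕ N, Injective g →
    (∀ i, Stp At (g i) (g (i + 1))) → ∑ i, wt lg (g i) ≤ n

/-- There is no closed set in the sense of Thomassen 1997. -/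
def NoCl (At : ZMod n → N → Prop) (H0 : N → Prop) : Prop :=
  ∀ (M : ZMod n → Prop) (h : ZMod n → N) (ρ : N → ZMod n), (∀ a, M a → ¬ M (a + 1)) →
    (∀ s, M (s + 1) ∨ M (s - 1) →
      H0 (h s) ∧ At s (h s) ∧ At (ρ (h s)) (h s) ∧ M (ρ (h s))) → ∀ a, ¬ M a

/-- `u v` is an edge of the cyclic sequence `g`. -/
def Us {α : Type} {m : ℕ} (g : ZMod m → α) (u v : α) : Prop :=
  ∃ i, (g i = u ∧ g (i + 1) = v) ∨ (g i = v ∧ g (i + 1) = u)

/-- No neighbour on the cycle is in `W`. -/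
def Sg (W : ZMod n → Prop) (x : ZMod n) : Prop := ¬ W (x + 1) ∧ ¬ W (x - 1)

/-- A neighbour on the cycle is in `M`. -/
def Nb (M : ZMod n → Prop) (x : ZMod n) : Prop := M (x + 1) ∨ M (x - 1)

/-- The run property of a set of sinks. -/
def Run (W A : ZMod n → Prop) : Prop :=
  ∀ M : ZMod n → Prop, (∀ a, M a → A a) → ∀ a, M a → (A (a + 1) ∨ A (a - 1)) →
    ∃ x, W x ∧ ¬ M x ∧ (M (x + 1) ∨ M (x - 1)) ∧
      a ∈ ({x + 1, x + 2, x + 3, x - 1, x - 2, x - 3} : Finset (ZMod n))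

/-- Static step between slots: `nx s` is the root served by `s`. -/
def Step (Anc W Mag : ZMod n → Prop) (nx : ZMod n → ZMod n) (s s' : ZMod n) : Prop :=
  Anc s ∧ Sg W (nx s) ∧ Sg Mag (nx s) ∧ (s' = nx s + 1 ∨ s' = nx s - 1)

/-- The level property. -/
def Lev (Anc W Mag Bt Bad : ZMod n → Prop) (nx π : ZMod n → ZMod n) (lv : ZMod n → ℕ) : Prop :=
  ∀ y s, Mag y → (s = y ∨ s = y + 2 ∨ s = y - 2) →
    (∀ x, Relation.ReflTransGen (Step Anc W Mag nx) s x → Bt x → Bad x → lv y < lv (π x)) ∨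
      ∃ x, Relation.ReflTransGen (Step Anc W Mag nx) s x ∧ Bt x ∧ ¬ Bad x

end

/-- Parity of the degree of `v` in the edge vector `X` (edge `e` has the ends `a e`, `b e`). -/
noncomputable def dg {V E : Type} [Fintype E] (a b : E → V) (X : E → ZMod 2) (v : V) : ZMod 2 :=
  ∑ e, if a e = v ∨ b e = v then X e else 0

/-- A pointer forest with roots `A` on the cycle and fixed edges `J`. -/
structure Ptr (n : ℕ) [NeZero n] (N : Type) [Fintype N] where
  A : ZMod n → Prop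
  Dm : ZMod n ⊕ N → Prop
  par : ZMod n ⊕ N → ZMod n ⊕ N
  rk : ZMod n ⊕ N → ℕ
  J : ZMod n → N → Prop
  dmA : ∀ a, A a → ¬ Dm (.inl a)
  side : ∀ v, Dm v → (par v).isLeft = v.isRight
  rk_lt : ∀ v, Dm v → rk (par v) < rk v
  up : ∀ v, Dm v → Dm (par v) ∨ ∃ a, A a ∧ par v = .inl a
  Jd : ∀ x p, J x p → ¬ Dm (.inr p)
  Jev : ∀ p, Even (univ.filter (fun x => J x p)).card
  Jodd : ∀ x, ¬ A x → ¬ Dm (.inl x) → Odd (univ.filter (fun p => J x p)).card

namespace Ptr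

variable {n : ℕ} [NeZero n] {N : Type} [Fintype N] (D : Ptr n N)

/-- pointer edges -/
def PE (u v : ZMod n ⊕ N) : Prop := (D.Dm u ∧ D.par u = v) ∨ (D.Dm v ∧ D.par v = u)

/-- edges between the cycle and the hubs -/
def E (x : ZMod n) (p : N) : Prop := D.PE (.inl x) (.inr p) ∨ D.J x p

variable {m : ℕ} (g : ZMod m → ZMod n ⊕ N)

/-- free vertices: visited hubs and visited sinks -/
def Fre (v : ZMod n ⊕ N) : Prop := (∃ i, g i = v) ∧ ∀ x, v = .inl x → D.A x

def K1 : Prop := ∀ v, D.Dm v → ¬ Us g v (D.par v) → D.Fre g v → ¬ D.Fre g (D.par v)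

def K2 : Prop := ∀ S : ZMod n ⊕ N → Prop,
  (∀ v, S v → ¬ D.Fre g v ∧ (D.Dm v ∨ ∃ a, D.A a ∧ v = .inl a)) →
  (∀ v, D.Dm v → ¬ Us g v (D.par v) → (S v ↔ S (D.par v))) →
  (∀ x, ¬ Us g (.inl x) (.inl (x + 1)) → (S (.inl x) ↔ S (.inl (x + 1)))) → ∀ v, ¬ S v

end Ptr

/-- The chosen sinks, pointers and levels. -/
structure Frame (n : ℕ) [NeZero n] (N : Type) [Fintype N] (At : ZMod n → N → Prop)
    (lg H0 : N → Prop) where
  A : ZMod n → Prop
  W : ZMod n → Prop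
  Mag : ZMod n → Prop
  Anc : ZMod n → Prop
  Bt : ZMod n → Prop
  Bad : ZMod n → Prop
  Act : ZMod n → Prop
  b : ZMod n → N
  h : ZMod n → N
  ρ : N → ZMod n
  σ : ZMod n → ZMod n
  π : ZMod n → ZMod n
  lv : ZMod n → ℕ
  J : ZMod n → N → Prop
  cov : ∀ x, Anc x ∨ Bt x ∨ W x
  bt_anc : ∀ x, Bt x → ¬ Anc x
  w_anc : ∀ x, W x → ¬ Anc x ∧ ¬ Bt x
  mag_anc : ∀ y, Mag y → Anc y
  h_sp : ∀ x, Anc x → H0 (h x) ∧ At x (h x)
  ρ_sp : ∀ p, H0 p → A (ρ p) ∧ Anc (ρ p) ∧ At (ρ p) p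
  σ_sp : ∀ y, Mag y → A (σ y) ∧ Bt (σ y) ∧ At y (b (σ y))
  σ_inj : ∀ y y', Mag y → Mag y' → σ y = σ y' → y = y'
  b_sp : ∀ x, Bt x → At x (b x) ∧ ¬ H0 (b x) ∧ ¬ lg (b x)
  b_inj : ∀ x x', Bt x → Bt x' → b x = b x' → x = x'
  h0_lg : ∀ p, H0 p → ¬ lg p
  π_sp : ∀ x, Bt x → Anc (π x) ∧ At (π x) (b x)
  π_fl : ∀ x, Bt x → Nb Act (π x) → Bad x ∧ Mag (π x)
  act : ∀ a, A a → Sg W a → Act a
  lev : Lev Anc W Mag Bt Bad (fun s => if Mag s then σ s else ρ (h s)) π lv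
  run : Run W A
  J_sp : ∀ x p, J x p → lg p ∧ At x p
  J_ev : ∀ p, Even (univ.filter (fun x => J x p)).card
  J_odd : ∀ x, W x → ¬ A x → Odd (univ.filter (fun p => J x p)).card

namespace Frame

variable {n : ℕ} [NeZero n] {N : Type} [Fintype N] {At : ZMod n → N → Prop} {lg H0 : N → Prop}
  (F : Frame n N At lg H0)

/-- the root served by an anchored vertex -/
noncomputable def nx (s : ZMod n) : ZMod n := if F.Mag s then F.σ s else F.ρ (F.h s)

/-- vertices with a parent -/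
def Dm : ZMod n ⊕ N → Prop
  | .inl x => ¬ F.A x ∧ ¬ F.W x
  | .inr p => H0 p ∨ ∃ x, F.Bt x ∧ F.b x = p

/-- the parent -/
noncomputable def par : ZMod n ⊕ N → ZMod n ⊕ N
  | .inl x => .inr (if F.Mag x then F.b (F.σ x) else if F.Anc x then F.h x else F.b x)
  | .inr p => .inl (if h : ∃ x, F.Bt x ∧ F.b x = p then
      (if F.A h.choose then h.choose else F.π h.choose) else F.ρ p)

/-- the rank -/
noncomputable def rk : ZMod n ⊕ N → ℕ
  | .inl x => if F.A x then 0 else if F.Anc x then 2 else 4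
  | .inr p => if ∃ x, F.Bt x ∧ ¬ F.A x ∧ F.b x = p then 3 else 1

theorem par_b {x : ZMod n} (hx : F.Bt x) :
    F.par (.inr (F.b x)) = .inl (if F.A x then x else F.π x) := by
  have h : ∃ y, F.Bt y ∧ F.b y = F.b x := ⟨x, hx, rfl⟩
  have e : h.choose = x := F.b_inj _ _ h.choose_spec.1 hx h.choose_spec.2
  simp only [par, dif_pos h, e]

theorem par_h {p : N} (hp : H0 p) : F.par (.inr p) = .inl (F.ρ p) := by
  have h : ¬ ∃ y, F.Bt y ∧ F.b y = p := by
    rintro ⟨y, hy, rfl⟩; exact (F.b_sp y hy).2.1 hp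
  simp only [par, dif_neg h]

theorem par_mag {x : ZMod n} (hx : F.Mag x) : F.par (.inl x) = .inr (F.b (F.σ x)) := by
  simp only [par, if_pos hx]

theorem par_anc {x : ZMod n} (hx : ¬ F.Mag x) (ha : F.Anc x) : F.par (.inl x) = .inr (F.h x) := by
  simp only [par, if_neg hx, if_pos ha]

theorem par_bt {x : ZMod n} (hx : F.Bt x) : F.par (.inl x) = .inr (F.b x) := by
  have ha := F.bt_anc x hx
  simp only [par, if_neg (fun h => ha (F.mag_anc x h)), if_neg ha]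

theorem rk_b {x : ZMod n} (hx : F.Bt x) : F.rk (.inr (F.b x)) = if F.A x then 1 else 3 := by
  by_cases h : F.A x
  · rw [if_pos h]
    refine if_neg ?_
    rintro ⟨y, hy, h1, e⟩
    exact h1 (F.b_inj _ _ hy hx e ▸ h)
  · rw [if_neg h]; exact if_pos ⟨x, hx, h, rfl⟩

theorem rk_h {p : N} (hp : H0 p) : F.rk (.inr p) = 1 := by
  refine if_neg ?_
  rintro ⟨y, hy, -, rfl⟩; exact (F.b_sp y hy).2.1 hp

/-- the pointer forest of a frame -/
noncomputable def ptr : Ptr n N where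
  A := F.A
  Dm := F.Dm
  par := F.par
  rk := F.rk
  J := F.J
  dmA := fun _ h h' => h'.1 h
  side := by rintro (x | p) - <;> rfl
  rk_lt := by
    rintro (x | p) h
    · by_cases hm : F.Mag x
      · obtain ⟨h1, h2, -⟩ := F.σ_sp x hm
        rw [F.par_mag hm, F.rk_b h2, if_pos h1]
        simp only [rk, if_neg h.1, if_pos (F.mag_anc x hm)]; omega
      · by_cases ha : F.Anc x
        · rw [F.par_anc hm ha, F.rk_h (F.h_sp x ha).1]
          simp only [rk, if_neg h.1, if_pos ha]; omega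
        · have hb : F.Bt x := ((F.cov x).resolve_left ha).resolve_right h.2
          rw [F.par_bt hb, F.rk_b hb, if_neg h.1]
          simp only [rk, if_neg h.1, if_neg ha]; omega
    · rcases h with h | ⟨x, hx, rfl⟩
      · rw [F.par_h h, F.rk_h h]
        simp only [rk, if_pos (F.ρ_sp p h).1]; omega
      · rw [F.par_b hx, F.rk_b hx]
        by_cases ha : F.A x
        · simp only [rk, if_pos ha]; omega
        · simp only [rk, if_neg ha, if_pos (F.π_sp x hx).1]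
          split_ifs <;> omega
  up := by
    rintro (x | p) h
    · left
      by_cases hm : F.Mag x
      · rw [F.par_mag hm]; exact Or.inr ⟨_, (F.σ_sp x hm).2.1, rfl⟩
      · by_cases ha : F.Anc x
        · rw [F.par_anc hm ha]; exact Or.inl (F.h_sp x ha).1
        · have hb : F.Bt x := ((F.cov x).resolve_left ha).resolve_right h.2
          rw [F.par_bt hb]; exact Or.inr ⟨_, hb, rfl⟩
    · rcases h with h | ⟨x, hx, rfl⟩
      · exact Or.inr ⟨_, (F.ρ_sp p h).1, F.par_h h⟩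
      · rw [F.par_b hx]
        by_cases ha : F.A x
        · exact Or.inr ⟨x, ha, by rw [if_pos ha]⟩
        · rw [if_neg ha]
          by_cases hp : F.A (F.π x)
          · exact Or.inr ⟨_, hp, rfl⟩
          · exact Or.inl ⟨hp, fun w => (F.w_anc _ w).1 (F.π_sp x hx).1⟩
  Jd := by
    rintro x p hj (h | ⟨y, hy, rfl⟩)
    · exact F.h0_lg p h (F.J_sp x p hj).1
    · exact (F.b_sp y hy).2.2 (F.J_sp x _ hj).1
  Jev := F.J_ev
  Jodd := fun x h h' => F.J_odd x (by by_contra w; exact h' ⟨h, w⟩) h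

end Frame

/-- What the graph provides: hubs with disjoint large attachment sets, private hubs and long
hubs. -/
structure Model (n : ℕ) [NeZero n] (N : Type) [Fintype N] (At : ZMod n → N → Prop)
    (lg H0 : N → Prop) (m k : ℕ) where
  S : N → Finset (ZMod n)
  Bt : ZMod n → Prop
  b : ZMod n → N
  Y : ZMod n → Finset (ZMod n)
  S_card : ∀ p, H0 p → m ≤ (S p).card
  S_at : ∀ p, H0 p → ∀ x ∈ S p, At x p
  S_dis : ∀ p q, H0 p → H0 q → ∀ x ∈ S p, x ∈ S q → p = q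
  h0_lg : ∀ p, H0 p → ¬ lg p
  bt_anc : ∀ x, Bt x → ∀ p, H0 p → ¬ At x p
  b_sp : ∀ x, Bt x → At x (b x) ∧ ¬ H0 (b x) ∧ ¬ lg (b x)
  b_inj : ∀ x x', Bt x → Bt x' → b x = b x' → x = x'
  Y_card : ∀ x, Bt x → (Y x).card = k
  Y_sp : ∀ x, Bt x → ∀ u ∈ Y x, At u (b x) ∧ ∃ p, H0 p ∧ At u p
  w_sp : ∀ x, (∀ p, H0 p → ¬ At x p) → ¬ Bt x → ∃ p y, lg p ∧ y ≠ x ∧ At x p ∧ At y p

end Pool.Agent.MP_ee574f_co.CD

end

section

set_option autoImplicit false

namespace Pool.Agent.MP_ee574f_co.CD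

open SimpleGraph Classical Finset Function

namespace Ptr

variable {n : ℕ} [NeZero n] {N : Type} [Fintype N] (D : Ptr n N)

/-- index set of the edges: cycle edges, pointer edges, fixed edges -/
abbrev Ed : Type := ZMod n ⊕ ({v // D.Dm v} ⊕ {q : ZMod n × N // D.J q.1 q.2})

def ea : D.Ed → ZMod n ⊕ N
  | .inl i => .inl i
  | .inr (.inl v) => v.1
  | .inr (.inr q) => .inl q.1.1

def eb : D.Ed → ZMod n ⊕ N
  | .inl i => .inl (i + 1)
  | .inr (.inl v) => D.par v.1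
  | .inr (.inr q) => .inr q.1.2

def Fix : D.Ed → Prop
  | .inr (.inr _) => True
  | _ => False

/-- required vertices -/
def R (v : ZMod n ⊕ N) : Prop := ∃ x, ¬ D.A x ∧ v = .inl x

end Ptr

/-- The facts about the surviving cycle `g` and the set `M` of skipped sinks. -/
structure Surv {n : ℕ} [NeZero n] {N : Type} [Fintype N] {At : ZMod n → N → Prop}
    {lg H0 : N → Prop} (F : Frame n N At lg H0) {m : ℕ} (g : ZMod m → ZMod n ⊕ N)
    (M : ZMod n → Prop) : Prop where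
  hM : ∀ x, M x ↔ ¬ ∃ i, g i = .inl x
  mA : ∀ a, M a → F.A a ∧ Sg F.A a ∧ Sg F.W a
  cE : ∀ x, ¬ Us g (.inl x) (.inl (x + 1)) → M x ∨ M (x + 1)
  u1 : ∀ x p, Us g (.inl x) (.inr p) → Nb M x ∧ F.ptr.PE (.inl x) (.inr p)
  u2 : ∀ s, Nb M s → ∃ p, Us g (.inl s) (.inr p)
  u3 : ∀ s, M (s + 1) → M (s - 1) → ∃ p q, p ≠ q ∧ Us g (.inl s) (.inr p) ∧ Us g (.inl s) (.inr q)
  u4 : ∀ x p, Us g (.inl x) (.inr p) → ∃ y, y ≠ x ∧ Us g (.inl y) (.inr p)
  u5 : ∀ i p, g i = .inr p → ∃ x, Us g (.inl x) (.inr p)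
  k1 : F.ptr.K1 g
  k2 : F.ptr.K2 g

/-- Summed parity theorem. -/
def T_Par1 : Prop :=
  ∀ (V E : Type) [Fintype V] [Fintype E] (a b : E → V), (∀ e, a e ≠ b e) →
    (∀ e e', s(a e, b e) = s(a e', b e') → e = e') →
    ∀ (Fix : E → Prop) (R : V → Prop) (n : ℕ), 3 ≤ n → ∀ f : ZMod n → V, Injective f →
    ∀ c : ZMod n → E, (∀ i, a (c i) = f i ∧ b (c i) = f (i + 1)) →
    (∃ v, R v ∧ v ≠ f 0 ∧ v ≠ f 1) →
    (∃! X : E → ZMod 2, (∀ e, Fix e → X e = 1) ∧ (∀ i, X (c i) = 1) ∧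
      (∀ v, R v → dg a b X v = 1) ∧ ∀ v, v ∉ Set.range f → dg a b X v = 0) →
    ∃ m : ℕ, 3 ≤ m ∧ ∃ g : ZMod m → V, Injective g ∧
      (∀ i, ∃ e, s(g i, g (i + 1)) = s(a e, b e)) ∧ (∀ v, R v → v ∈ Set.range g) ∧
      (∃ i, ∀ j, s(g i, g (i + 1)) ≠ s(f j, f (j + 1))) ∧
      ∀ Z : E → ZMod 2, (∀ e, Fix e → Z e = 0) → (∀ e, Us g (a e) (b e) → Z e = 0) →
        (∀ v, R v ∨ v ∉ Set.range g → dg a b Z v = 0) → Z = 0

/-- An injective square system over `ZMod 2` is surjective. -/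
def T_LA : Prop :=
  ∀ (V E : Type) [Fintype V] [Fintype E] (a b : E → V) (Fr : E → Prop) (T : V → Prop),
    (univ.filter T).card ≤ (univ.filter Fr).card →
    (∀ Z : E → ZMod 2, (∀ e, ¬ Fr e → Z e = 0) → (∀ v, T v → dg a b Z v = 0) → Z = 0) →
    (∀ c : V → ZMod 2, ∃ Z : E → ZMod 2, (∀ e, ¬ Fr e → Z e = 0) ∧
      ∀ v, T v → dg a b Z v = c v) ∧
    ((∀ e, a e ≠ b e) → ∀ S : V → Prop, (∀ v, S v → T v) →
      (∀ e, Fr e → (S (a e) ↔ S (b e))) → ∀ v, ¬ S v)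

/-- The edges of a pointer forest are distinct and are not loops. -/
def T_Ed : Prop :=
  ∀ (n : ℕ) [NeZero n] (N : Type) [Fintype N], 3 ≤ n → ∀ D : Ptr n N,
    (∀ e, D.ea e ≠ D.eb e) ∧ ∀ e e', s(D.ea e, D.eb e) = s(D.ea e', D.eb e') → e = e'

/-- The base cycle is counted once. -/
def T_ParA : Prop :=
  ∀ (n : ℕ) [NeZero n] (N : Type) [Fintype N], 3 ≤ n → ∀ D : Ptr n N,
    ∃! X : D.Ed → ZMod 2, (∀ e, D.Fix e → X e = 1) ∧ (∀ i, X (.inl i) = 1) ∧
      (∀ v, D.R v → dg D.ea D.eb X v = 1) ∧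
      ∀ v, v ∉ Set.range (Sum.inl : ZMod n → ZMod n ⊕ N) → dg D.ea D.eb X v = 0

/-- Trivial kernel gives the two forest conditions. -/
def T_ParB : Prop :=
  ∀ (n : ℕ) [NeZero n] (N : Type) [Fintype N], 3 ≤ n → ∀ (D : Ptr n N) (m : ℕ) [NeZero m],
    3 ≤ m → ∀ g : ZMod m → ZMod n ⊕ N, Injective g →
    (∀ i, ∃ e, s(g i, g (i + 1)) = s(D.ea e, D.eb e)) → (∀ v, D.R v → v ∈ Set.range g) →
    (∀ i p, g i = .inr p → D.Dm (.inr p)) →
    (∀ Z : D.Ed → ZMod 2, (∀ e, D.Fix e → Z e = 0) → (∀ e, Us g (D.ea e) (D.eb e) → Z e = 0) →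
      (∀ v, D.R v ∨ v ∉ Set.range g → dg D.ea D.eb Z v = 0) → Z = 0) →
    D.K1 g ∧ D.K2 g

/-- Parity theorem for pointer forests. -/
def T_Par : Prop :=
  ∀ (n : ℕ) [NeZero n] (N : Type) [Fintype N], 3 ≤ n → ∀ D : Ptr n N,
    (∃ x, ¬ D.A x ∧ x ≠ 0 ∧ x ≠ 1) →
    ∃ (m : ℕ) (_ : NeZero m), 3 ≤ m ∧ ∃ g : ZMod m → ZMod n ⊕ N, Injective g ∧
      (∀ i, Stp D.E (g i) (g (i + 1))) ∧ (∀ x, ¬ D.A x → ∃ i, g i = .inl x) ∧
      (∃ i p, g i = .inr p) ∧ ((∀ i p, g i = .inr p → D.Dm (.inr p)) → D.K1 g ∧ D.K2 g)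

/-- A second cycle that is not longer is a tie. -/
def T_Tie : Prop :=
  ∀ (n : ℕ) [NeZero n] (N : Type) [Fintype N], 3 ≤ n → ∀ (At E : ZMod n → N → Prop)
    (lg : N → Prop), Lift At lg → (∀ x p, E x p → At x p) → ∀ A W : ZMod n → Prop,
    (∀ x p, W x → E x p → lg p) → Run W A → ∀ (m : ℕ) [NeZero m], 3 ≤ m →
    ∀ g : ZMod m → ZMod n ⊕ N, Injective g → (∀ i, Stp E (g i) (g (i + 1))) →
    (∀ x, ¬ A x → ∃ i, g i = .inl x) → (∃ i p, g i = .inr p) →
    ∀ M : ZMod n → Prop, (∀ x, M x ↔ ¬ ∃ i, g i = .inl x) →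
      (∀ i p, g i = .inr p → ¬ lg p) ∧ (∃ a, M a) ∧ (∀ a, M a → Sg A a ∧ Sg W a) ∧
      ∀ x, ¬ Us g (.inl x) (.inl (x + 1)) → M x ∨ M (x + 1)

/-- Local facts about the edges of a cyclic sequence. -/
def T_Use : Prop :=
  ∀ (n : ℕ) [NeZero n] (N : Type), 3 ≤ n → ∀ (E : ZMod n → N → Prop) (m : ℕ) [NeZero m], 3 ≤ m →
    ∀ g : ZMod m → ZMod n ⊕ N, Injective g → (∀ i, Stp E (g i) (g (i + 1))) →
    ∀ M : ZMod n → Prop, (∀ x, M x ↔ ¬ ∃ i, g i = .inl x) → (∀ a, M a → ¬ M (a + 1)) →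
    (∀ x, ¬ Us g (.inl x) (.inl (x + 1)) → M x ∨ M (x + 1)) →
      (∀ x p, Us g (.inl x) (.inr p) → Nb M x ∧ E x p) ∧
      (∀ s, Nb M s → ∃ p, Us g (.inl s) (.inr p)) ∧
      (∀ s, M (s + 1) → M (s - 1) →
        ∃ p q, p ≠ q ∧ Us g (.inl s) (.inr p) ∧ Us g (.inl s) (.inr q)) ∧
      (∀ x p, Us g (.inl x) (.inr p) → ∃ y, y ≠ x ∧ Us g (.inl y) (.inr p)) ∧
      ∀ i p, g i = .inr p → ∃ x, Us g (.inl x) (.inr p)

/-- Classification of the used hub edges. -/
def T_F1 : Prop :=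
  ∀ (n : ℕ) [NeZero n] (N : Type) [Fintype N] (At : ZMod n → N → Prop) (lg H0 : N → Prop)
    (F : Frame n N At lg H0) (m : ℕ) (g : ZMod m → ZMod n ⊕ N) (M : ZMod n → Prop),
    Surv F g M → ∀ x p, Us g (.inl x) (.inr p) →
      (H0 p ∧ F.Anc x ∧ ¬ F.Mag x ∧ F.h x = p ∧ M (F.ρ p)) ∨
      ∃ y, F.Bt y ∧ ¬ F.A y ∧ p = F.b y ∧ (x = y ∨ x = F.π y) ∧ Nb M y ∧ Nb M (F.π y) ∧
        F.Mag (F.π y) ∧ F.Bad y

/-- A skipped sink without magnet neighbour is served from below. -/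
def T_F4 : Prop :=
  ∀ (n : ℕ) [NeZero n] (N : Type) [Fintype N] (At : ZMod n → N → Prop) (lg H0 : N → Prop)
    (F : Frame n N At lg H0) (m : ℕ) (g : ZMod m → ZMod n ⊕ N) (M : ZMod n → Prop),
    Surv F g M → ∀ a, M a → Sg F.Mag a →
      (∃ s s', s ≠ s' ∧ Nb M s ∧ Nb M s' ∧ F.Anc s ∧ F.Anc s' ∧ ¬ F.Mag s ∧ ¬ F.Mag s' ∧
        F.nx s = a ∧ F.nx s' = a) ∨ ∃ w, Nb M w ∧ F.Mag w ∧ F.nx w = a

/-- The level argument: there is no magnet slot. -/
def T_F5 : Prop :=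
  ∀ (n : ℕ) [NeZero n] (M W Mag Anc Bt Bad : ZMod n → Prop) (nx π : ZMod n → ZMod n)
    (lv : ZMod n → ℕ), (∀ y, Mag y → Anc y) → (∀ x, Bt x → ¬ Anc x) →
    (∀ s, Nb M s → Anc s ∨ Bt s) → (∀ a, M a → Sg W a) →
    (∀ s, Nb M s → Anc s → ¬ Mag s → M (nx s)) →
    (∀ s, Nb M s → Mag s → ∃ x, Nb M x ∧ Bt x ∧ π x = s) →
    (∀ x, Nb M x → Bt x → Nb M (π x) ∧ Mag (π x) ∧ Bad x) →
    (∀ a, M a → Sg Mag a →
      (∃ s s', s ≠ s' ∧ Nb M s ∧ Nb M s' ∧ Anc s ∧ Anc s' ∧ ¬ Mag s ∧ ¬ Mag s' ∧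
        nx s = a ∧ nx s' = a) ∨ ∃ w, Nb M w ∧ Mag w ∧ nx w = a) →
    Lev Anc W Mag Bt Bad nx π lv → ∀ s, Nb M s → Anc s ∧ ¬ Mag s

/-- The level lemma. -/
def T_Level : Prop :=
  ∀ (E B X : Type) [Fintype E] [Fintype B] [Fintype X] (own : B → E) (c z : ℕ),
    (∀ v, (univ.filter (fun β => own β = v)).card ≤ c) →
    ∀ (rch : B → X → Prop) (Z : X → Finset E), (∀ β x, rch β x → z ≤ (Z x).card) →
    ∃ (l : E → ℕ) (T : B → Finset E), (∀ β, ∀ v ∈ T β, ∃ x, rch β x ∧ v ∈ Z x) ∧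
      (∀ v, (univ.filter (fun β => v ∈ T β)).card ≤ c * z + 1) ∧
      ∀ β, z ≤ (T β).card ∨ ∀ x, rch β x → ∃ v ∈ Z x, l (own β) < l v

/-- Transport lemma (bipartite degree-constrained subgraph). -/
def T_Trans : Prop :=
  ∀ (E B : Type) [Fintype E] [Fintype B] (Q : B → Finset E) (d : B → ℕ) (D : ℕ),
    (∀ β, d β ≤ (Q β).card) →
    (∀ U : Finset E, ∑ β, (d β - (Q β \ U).card) ≤ D * U.card) →
    ∃ T : B → Finset E, (∀ β, T β ⊆ Q β) ∧ (∀ β, d β ≤ (T β).card) ∧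
      ∀ v, (univ.filter (fun β => v ∈ T β)).card ≤ D

/-- A sparse set that meets many sets often. -/
def T_Sparse : Prop :=
  ∀ (n : ℕ) [NeZero n], 3 ≤ n → ∀ (η : Type) [Fintype η] (T : η → Finset (ZMod n)) (L z : ℕ),
    7 ≤ L → (∀ h, 429 * L * z ≤ (T h).card) →
    (∀ s, (univ.filter (fun h => s ∈ T h)).card ≤ 2 ^ L) →
    ∃ I : ZMod n → Prop, (∀ i, I i → ¬ I (i + 1) ∧ ¬ I (i + 2)) ∧
      ∀ h, z ≤ ((T h).filter I).card

/-- Hall's theorem with multiplicity. -/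
def T_Hall : Prop :=
  ∀ (α β : Type) [Fintype α] [Fintype β] (r : α → β → Prop) (P : α → Prop) (m k : ℕ), 0 < k →
    (∀ a, P a → m * k ≤ (univ.filter (fun b => r a b)).card) →
    (∀ b, (univ.filter (fun a => r a b)).card ≤ k) →
    ∃ X : α → Finset β, (∀ a, P a → m ≤ (X a).card) ∧ (∀ a, ∀ b ∈ X a, r a b) ∧
      ∀ a a', ∀ b ∈ X a, b ∈ X a' → a = a'

/-- A maximal family of disjoint large attachment sets. -/
def T_Max : Prop :=
  ∀ (κ α : Type) [Fintype κ] [Fintype α] (att : κ → α → Prop) (m : ℕ), 0 < m →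
    ∃ (H : κ → Prop) (S : κ → Finset α), (∀ K, H K → m ≤ (S K).card) ∧
      (∀ K, ∀ x ∈ S K, H K ∧ att K x) ∧ (∀ K K', ∀ x ∈ S K, x ∈ S K' → K = K') ∧
      ∀ K, ¬ H K → (univ.filter (fun x => att K x ∧ ∀ K', x ∉ S K')).card < m

/-- Random choice of one element from each pair. -/
def T_Stage2 : Prop :=
  ∀ (n : ℕ) [NeZero n] (ι η : Type) [Fintype ι] [Fintype η] (e : ι → Bool → ZMod n)
    (re : ι → Bool → Prop) (L : ℕ), 7 ≤ L →
    (∀ i b i' b', re i b → re i' b' → e i b = e i' b' → i = i') →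
    (∀ i, re i false → re i true →
      e i false ≠ e i true ∧ e i false ≠ e i true + 2 ∧ e i true ≠ e i false + 2) →
    ∀ T : η → Finset (ZMod n), (∀ h, 429 * L ≤ (T h).card) →
    (∀ s, (univ.filter (fun h => s ∈ T h)).card ≤ 2 ^ L) →
    ∃ ω : ι → Bool, ∀ h, ∃ s ∈ T h, ∀ i, re i (ω i) → e i (ω i) ≠ s + 1 ∧ e i (ω i) ≠ s - 1

/-- Sinks among the vertices that have only long hubs. -/
def T_WS : Prop :=
  ∀ (n : ℕ) [NeZero n], 10 ≤ n → ∀ (W : ZMod n → Prop) (P : Type) [Fintype P]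
    (Ad : P → ZMod n → Prop), (∀ x, W x → ∃ p y, y ≠ x ∧ Ad p x ∧ Ad p y) →
    ∃ (κ : Type) (_ : Fintype κ) (o : κ → Bool → ZMod n),
      (∀ q b q' b', o q b = o q' b' → q = q') ∧
      (∀ q, Sg W (o q false) → Sg W (o q true) →
        o q false ≠ o q true ∧ o q false ≠ o q true + 2 ∧ o q true ≠ o q false + 2) ∧
      ∀ ω : κ → Bool, ∃ Sel : ZMod n → Prop, (∀ a, Sel a → W a) ∧
        (∀ a, Sel a → Sg W a → ∃ q, a = o q (ω q)) ∧
        (∃ J : ZMod n → P → Prop, (∀ x p, J x p → Ad p x) ∧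
          (∀ p, Even (univ.filter (fun x => J x p)).card) ∧
          ∀ x, W x → ¬ Sel x → Odd (univ.filter (fun p => J x p)).card) ∧
        ∀ B : ZMod n → Prop, (∀ s, B s → ¬ W s) → (∀ s, B s → ¬ B (s + 1)) →
          (∀ s a, B s → Sel a → Sg W a → a ≠ s - 1 ∧ a ≠ s + 1) →
          Run W (fun s => B s ∨ Sel s)

/-- A short tail that is long or reaches a rich vertex. -/
def T_Tail2 : Prop :=
  ∀ (V : Type) [Fintype V] (G : SimpleGraph V),
    (∀ s : V, (G.induce ({s}ᶜ : Set V)).Connected) → ∀ (g : ℕ) (R Rich : V → Prop) (v p u : V),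
    ¬ R v → R p → G.Adj v p → ¬ R u → u ≠ v →
    (∀ r, R r → ¬ Rich r → g * g ≤ (univ.filter (fun w => G.Adj r w ∧ R w)).card) →
    ∃ t : List V, t.Nodup ∧ t.IsChain G.Adj ∧ (∀ w ∈ t, R w) ∧ (∃ a ∈ t.head?, G.Adj v a) ∧
      (∀ r, r ∉ t → r ≠ v → (univ.filter (fun w => G.Adj r w ∧ w ∈ t)).card ≤ g + 4) ∧
      ((g ≤ t.length ∧ ∃ b ∈ t.getLast?, ∃ z, G.Adj b z ∧ ¬ R z ∧ z ≠ v) ∨ ∃ r ∈ t, Rich r)

/-- Pieces for the free vertices. -/
def T_Pieces2 : Prop :=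
  ∀ (V : Type) [Fintype V] (G : SimpleGraph V) (n : ℕ) [NeZero n] (f : ZMod n → V),
    Long G n f → ∀ (m k : ℕ), 0 < m → ∀ Fr U : ZMod n → Prop, (∀ x, Fr x → ¬ U x) →
    (∀ x (K : Comp G f), Fr x → Att x K →
      (univ.filter (fun y => Att y K ∧ ¬ U y)).card < m) →
    (∀ s : V, (G.induce ({s}ᶜ : Set V)).Connected) →
    (∀ v, k + 20 * m + 196 ≤ G.degree v) →
    ∃ (T : ZMod n → V → Prop) (Ad : ZMod n → ZMod n → Prop),
      (∀ p v, T p v → v ∉ Set.range f ∧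
        ∃ x, Fr x ∧ Att x ((Out G f).connectedComponentMk v)) ∧
      (∀ p p' v, T p v → T p' v → p = p') ∧
      (∀ p u w, T p u → T p w → (Ins G (T p)).Reachable u w) ∧
      (∀ p x y, Ad p x → Ad p y → x ≠ y → Link G f (T p) x y) ∧
      ∀ x, Fr x → (∃ p y, y ≠ x ∧ Ad p x ∧ Ad p y) ∨
        ((∀ y, Ad x y → y = x) ∧ (∃ v, T x v ∧ G.Adj (f x) v) ∧
          ∃ r, T x r ∧ k ≤ (univ.filter (fun u => U u ∧ G.Adj (f u) r)).card)

/-- Lifting cycles of the auxiliary graph. -/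
def T_Lift : Prop :=
  ∀ (V : Type) (G : SimpleGraph V) (n : ℕ) (f : ZMod n → V), Long G n f →
    ∀ (N : Type) (At : ZMod n → N → Prop) (lg : N → Prop) (Tr : N → V → Prop),
    (∀ p v, Tr p v → v ∉ Set.range f) → (∀ p q v, Tr p v → Tr q v → p = q) →
    (∀ p x y, At x p → At y p → x ≠ y → ∃ l : List V, l ≠ [] ∧ l.Nodup ∧ l.IsChain G.Adj ∧
      (∀ v ∈ l, Tr p v) ∧ (∀ a ∈ l.head?, G.Adj (f x) a) ∧ (∀ b ∈ l.getLast?, G.Adj (f y) b) ∧
      (lg p → 14 ≤ l.length)) → Lift At lg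

/-- The closed-set lemma for components. -/
def T_NoCl : Prop :=
  ∀ (V : Type) (G : SimpleGraph V) (n : ℕ) (f : ZMod n → V), Long G n f →
    ∀ (M : ZMod n → Prop) (h : ZMod n → Comp G f) (ρ : Comp G f → ZMod n),
    (∀ a, M a → ¬ M (a + 1)) →
    (∀ s, M (s + 1) ∨ M (s - 1) → Att s (h s) ∧ Att (ρ (h s)) (h s) ∧ M (ρ (h s))) →
    ∀ a, ¬ M a

/-- The graph gives a model. -/
def T_Model : Prop :=
  ∀ (V : Type) [Fintype V] (G : SimpleGraph V) (n : ℕ) [NeZero n] (f : ZMod n → V),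
    Long G n f → ∀ (m k : ℕ), 0 < m → (∀ s : V, (G.induce ({s}ᶜ : Set V)).Connected) →
    (∀ v, k + 20 * m + 196 ≤ G.degree v) →
    ∃ (N : Type) (_ : Fintype N) (At : ZMod n → N → Prop) (lg H0 : N → Prop),
      Lift At lg ∧ NoCl At H0 ∧ Nonempty (Model n N At lg H0 m k)

/-- A model gives a frame. -/
def T_Frame : Prop :=
  ∀ (n : ℕ) [NeZero n] (N : Type) [Fintype N] (At : ZMod n → N → Prop) (lg H0 : N → Prop)
    (L z : ℕ), 10 ≤ n → 7 ≤ L → z = 429 * L →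
    3 * (z * z) * (z * z + z) + 3 * z + 2 ≤ 2 ^ L →
    Model n N At lg H0 (3 * (z * z)) (z * z + z) → Nonempty (Frame n N At lg H0)

/-- There is no frame. -/
def T_False : Prop :=
  ∀ (n : ℕ) [NeZero n] (N : Type) [Fintype N] (At : ZMod n → N → Prop) (lg H0 : N → Prop),
    10 ≤ n → Lift At lg → NoCl At H0 → Frame n N At lg H0 → False

end Pool.Agent.MP_ee574f_co.CD

end

section

set_option autoImplicit false

namespace Pool.Agent.MP_ee574f_co.CD

open SimpleGraph Classical Finset Function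

theorem t_par (h1 : T_Par1) (h2 : T_Ed) (h3 : T_ParA) (h4 : T_ParB) : T_Par := by
  intro n _ N _ hn D hx
  obtain ⟨e1, e2⟩ := h2 n N hn D
  obtain ⟨m, hm, g, gi, ge, gc, ⟨i0, gn⟩, gk⟩ := h1 (ZMod n ⊕ N) D.Ed D.ea D.eb e1 e2 D.Fix D.R n hn
    Sum.inl Sum.inl_injective Sum.inl (fun i => ⟨rfl, rfl⟩)
    (by
      obtain ⟨x, a, b, c⟩ := hx
      exact ⟨.inl x, ⟨x, a, rfl⟩, fun e => b (Sum.inl.inj e), fun e => c (Sum.inl.inj e)⟩)
    (h3 n N hn D)
  have hm0 : NeZero m := ⟨by omega⟩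
  have key : ∀ e, Stp D.E (D.ea e) (D.eb e) ∧ Stp D.E (D.eb e) (D.ea e) := by
    rintro (i | ⟨v, hv⟩ | ⟨⟨x, p⟩, hq⟩)
    · exact ⟨Or.inl rfl, Or.inr rfl⟩
    · have hs := D.side v hv
      simp only [Ptr.ea, Ptr.eb]
      rcases v with x | p
      · rcases hp : D.par (.inl x) with y | q
        · rw [hp] at hs; simp at hs
        · exact ⟨Or.inl (Or.inl ⟨hv, hp⟩), Or.inl (Or.inl ⟨hv, hp⟩)⟩
      · rcases hp : D.par (.inr p) with y | q
        · exact ⟨Or.inl (Or.inr ⟨hv, hp⟩), Or.inl (Or.inr ⟨hv, hp⟩)⟩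
        · rw [hp] at hs; simp at hs
    · exact ⟨Or.inr hq, Or.inr hq⟩
  have gs : ∀ i, Stp D.E (g i) (g (i + 1)) := by
    intro i
    obtain ⟨e, he⟩ := ge i
    rcases Sym2.eq_iff.1 he with ⟨a, b⟩ | ⟨a, b⟩
    · rw [a, b]; exact (key e).1
    · rw [a, b]; exact (key e).2
  refine ⟨m, hm0, hm, g, gi, gs, fun x hx => gc _ ⟨x, hx, rfl⟩, ?_,
    fun hh => h4 n N hn D m hm g gi ge gc hh gk⟩
  have h0 := gs i0
  rcases h : g i0 with x | p
  · rcases h' : g (i0 + 1) with y | q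
    · rw [h, h'] at h0
      rcases h0 with e | e
      · exact absurd (by rw [h, h', e]) (gn x)
      · exact absurd (by rw [h, h', e, Sym2.eq_swap]) (gn y)
    · exact ⟨_, q, h'⟩
  · exact ⟨_, p, h⟩

theorem t_false (hpar : T_Par) (htie : T_Tie) (huse : T_Use) (hf1 : T_F1) (hf4 : T_F4)
    (hf5 : T_F5)
    (hrun : ∀ (n : ℕ) [NeZero n], 10 ≤ n → ∀ W A : ZMod n → Prop, Run W A →
      ∃ x, ¬ A x ∧ x ≠ 0 ∧ x ≠ 1) : T_False := by
  intro n _ N _ At lg H0 hn hl hc F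
  have hn3 : 3 ≤ n := by omega
  obtain ⟨m, hm0, hm, g, gi, gs, gc, gn, gk⟩ := hpar n N hn3 F.ptr (hrun n hn F.W F.A F.run)
  have hE : ∀ x p, F.ptr.E x p → At x p := by
    rintro x p ((⟨h, e⟩ | ⟨h, e⟩) | h)
    · replace e : F.par (.inl x) = .inr p := e
      by_cases hm : F.Mag x
      · rw [F.par_mag hm] at e; cases e; exact (F.σ_sp x hm).2.2
      · by_cases ha : F.Anc x
        · rw [F.par_anc hm ha] at e; cases e; exact (F.h_sp x ha).2
        · have hb : F.Bt x := ((F.cov x).resolve_left ha).resolve_right h.2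
          rw [F.par_bt hb] at e; cases e; exact (F.b_sp x hb).1
    · replace e : F.par (.inr p) = .inl x := e
      rcases h with h | ⟨y, hy, rfl⟩
      · rw [F.par_h h] at e; cases e; exact (F.ρ_sp p h).2.2
      · rw [F.par_b hy] at e
        by_cases ha : F.A y
        · rw [if_pos ha] at e; cases e; exact (F.b_sp _ hy).1
        · rw [if_neg ha] at e; cases e; exact (F.π_sp y hy).2
    · exact (F.J_sp x p h).2
  have hW : ∀ x p, F.W x → F.ptr.E x p → lg p := by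
    rintro x p w ((⟨h, -⟩ | ⟨h, e⟩) | h)
    · exact absurd w h.2
    · replace e : F.par (.inr p) = .inl x := e
      exfalso
      rcases h with h | ⟨y, hy, rfl⟩
      · rw [F.par_h h] at e; cases e; exact (F.w_anc _ w).1 (F.ρ_sp p h).2.1
      · rw [F.par_b hy] at e
        by_cases ha : F.A y
        · rw [if_pos ha] at e; cases e; exact (F.w_anc _ w).2 hy
        · rw [if_neg ha] at e; cases e; exact (F.w_anc _ w).1 (F.π_sp y hy).1
    · exact (F.J_sp x p h).1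
  let M : ZMod n → Prop := fun x => ¬ ∃ i, g i = .inl x
  obtain ⟨t1, ⟨a0, ha0⟩, t3, t4⟩ := htie n N hn3 At F.ptr.E lg hl hE F.A F.W hW F.run m hm g gi gs
    gc gn M (fun _ => Iff.rfl)
  have hMA : ∀ a, M a → F.A a := fun a h => by by_contra e; exact h (gc a e)
  have hind : ∀ a, M a → ¬ M (a + 1) := fun a h h' => (t3 a h).1.1 (hMA _ h')
  obtain ⟨u1, u2, u3, u4, u5⟩ := huse n N hn3 F.ptr.E m hm g gi gs M (fun _ => Iff.rfl) hind t4
  have hvis : ∀ x p, Us g (.inl x) (.inr p) → ∃ i, g i = .inr p := by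
    rintro x p ⟨i, h | h⟩
    · exact ⟨_, h.2⟩
    · exact ⟨_, h.1⟩
  have hPE : ∀ x p, Us g (.inl x) (.inr p) → F.ptr.PE (.inl x) (.inr p) := by
    intro x p h
    obtain ⟨i, hi⟩ := hvis x p h
    exact (u1 x p h).2.resolve_right fun j => t1 i p hi (F.J_sp x p j).1
  obtain ⟨k1, k2⟩ := gk (by
    intro i p hi
    obtain ⟨x, hx⟩ := u5 i p hi
    rcases hPE x p hx with ⟨h, e⟩ | ⟨h, -⟩
    · rcases F.ptr.up _ h with h' | ⟨a, -, h'⟩
      · rwa [e] at h'
      · rw [e] at h'; cases h'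
    · exact h)
  have S : Surv F g M :=
    ⟨fun _ => Iff.rfl, fun a h => ⟨hMA a h, t3 a h⟩, t4, fun x p h => ⟨(u1 x p h).1, hPE x p h⟩,
      u2, u3, u4, u5, k1, k2⟩
  have f1 := hf1 n N At lg H0 F m g M S
  have hslot : ∀ s, Nb M s → ¬ F.W s := by
    rintro s (h | h)
    · have := (t3 _ h).2.2; rwa [add_sub_cancel_right] at this
    · have := (t3 _ h).2.1; rwa [sub_add_cancel] at this
  have hfin := hf5 n M F.W F.Mag F.Anc F.Bt F.Bad F.nx F.π F.lv F.mag_anc F.bt_anc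
    (fun s hs => by have := F.cov s; have := hslot s hs; tauto) (fun a h => (t3 a h).2)
    (fun s hs ha hm => by
      obtain ⟨p, hp⟩ := u2 s hs
      rcases f1 s p hp with h | ⟨y, hy, -, -, e | e, -, -, h, -⟩
      · simp only [Frame.nx, if_neg hm, h.2.2.2.1]; exact h.2.2.2.2
      · exact absurd ha (e ▸ F.bt_anc y hy)
      · exact absurd (e ▸ h) hm)
    (fun s hs hm => by
      obtain ⟨p, hp⟩ := u2 s hs
      rcases f1 s p hp with h | ⟨y, hy, -, -, e | e, h, -⟩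
      · exact absurd hm h.2.2.1
      · exact absurd (F.mag_anc s hm) (e ▸ F.bt_anc y hy)
      · exact ⟨y, h, hy, e.symm⟩)
    (fun s hs hb => by
      obtain ⟨p, hp⟩ := u2 s hs
      rcases f1 s p hp with h | ⟨y, hy, -, -, e | e, -, h⟩
      · exact absurd h.2.1 (F.bt_anc s hb)
      · exact e ▸ h
      · exact absurd (e ▸ (F.π_sp y hy).1) (F.bt_anc s hb))
    (hf4 n N At lg H0 F m g M S) F.lev
  refine hc M F.h F.ρ hind (fun s hs => ?_) a0 ha0
  obtain ⟨ha, hm⟩ := hfin s hs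
  obtain ⟨p, hp⟩ := u2 s hs
  rcases f1 s p hp with h | ⟨y, hy, -, -, e | e, -, -, h, -⟩
  · obtain ⟨h1, -, -, rfl, h5⟩ := h
    exact ⟨h1, (F.h_sp s ha).2, (F.ρ_sp _ h1).2.2, h5⟩
  · exact absurd ha (e ▸ F.bt_anc y hy)
  · exact absurd (e ▸ h) hm

/-- Final assembly. -/
theorem const_conn (hm : T_Model) (hf : T_Frame) (hx : T_False) {V : Type} [Fintype V]
    {G : SimpleGraph V} {n : ℕ} {f : ZMod n → V} (hL : Long G n f)
    (hδ : ∀ v, 42000000000 ≤ G.degree v)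
    (hconn : ∀ s : V, (G.induce ({s}ᶜ : Set V)).Connected) : False := by
  have := hL.neZero
  have hn := ten_le hL hconn fun v => by have := hδ v; omega
  obtain ⟨N, _, At, lg, H0, h1, h2, ⟨D⟩⟩ := hm V G n f hL (3 * (26169 * 26169))
    (26169 * 26169 + 26169) (by norm_num) hconn (fun v => by have := hδ v; omega)
  obtain ⟨F⟩ := hf n N At lg H0 61 26169 hn (by norm_num) (by norm_num) (by norm_num) D
  exact hx n N At lg H0 hn h1 h2 F

end Pool.Agent.MP_ee574f_co.CD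

end

section

set_option autoImplicit false

namespace Pool.Agent.MP_ee574f_co.CD

open SimpleGraph Classical Finset Function

namespace ParBAux

theorem us_iff {α : Type} {m : ℕ} (g : ZMod m → α) (u v : α) :
    Us g u v ↔ ∃ i, s(g i, g (i + 1)) = s(u, v) :=
  exists_congr fun _ => Sym2.eq_iff.symm

theorem us_symm {α : Type} {m : ℕ} {g : ZMod m → α} {u v : α} (h : Us g u v) : Us g v u := by
  obtain ⟨i, h⟩ := h
  exact ⟨i, h.symm⟩

theorem two_ne {m : ℕ} (hm : 3 ≤ m) (k : ZMod m) : k + 1 ≠ k - 1 := by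
  intro h
  have h2 : ((2 : ℕ) : ZMod m) = ((0 : ℕ) : ZMod m) := by
    push_cast
    linear_combination h
  have := Lolli.cast_inj (by omega) (by omega) h2
  omega

variable {n : ℕ} [NeZero n] {N : Type} [Fintype N] (D : Ptr n N) {m : ℕ}
  (g : ZMod m → ZMod n ⊕ N)

theorem not_fre {v : ZMod n ⊕ N} (h : D.R v ∨ v ∉ Set.range g) : ¬ D.Fre g v := by
  rintro ⟨h1, h2⟩
  rcases h with ⟨x, hx, e⟩ | h
  · exact hx (h2 x e)
  · exact h h1

theorem no_ptr {v : ZMod n ⊕ N} (h1 : ¬ D.Dm v) (h2 : ¬ ∃ a, D.A a ∧ v = .inl a)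
    (u : {v // D.Dm v}) : ¬ (u.1 = v ∨ D.par u.1 = v) := by
  rintro (h | h)
  · exact h1 (h ▸ u.2)
  · rcases D.up u.1 u.2 with h3 | h3
    · exact h1 (h ▸ h3)
    · exact h2 (h ▸ h3)

theorem both (hm : 3 ≤ m) (hg : Injective g)
    (hE : ∀ i, ∃ e, s(g i, g (i + 1)) = s(D.ea e, D.eb e))
    (hD : ∀ i p, g i = .inr p → D.Dm (.inr p)) {x : ZMod n} (h1 : ¬ D.Dm (.inl x))
    (h2 : ¬ D.A x) (k : ZMod m) (hk : g k = .inl x) :
    Us g (.inl x) (.inl (x + 1)) ∧ Us g (.inl x) (.inl (x - 1)) := by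
  have h3 : ¬ ∃ a, D.A a ∧ (Sum.inl x : ZMod n ⊕ N) = .inl a := by
    rintro ⟨a, ha, e⟩
    exact h2 (Sum.inl.inj e ▸ ha)
  have nb : ∀ j, Us g (.inl x) (g j) → g j = .inl (x + 1) ∨ g j = .inl (x - 1) := by
    intro j h
    obtain ⟨i, hi⟩ := (us_iff g _ _).mp h
    obtain ⟨e, he⟩ := hE i
    rw [hi] at he
    rcases e with t | u | q
    · rcases Sym2.eq_iff.mp he with ⟨e1, e2⟩ | ⟨e1, e2⟩
      · left
        rw [e2, Sum.inl.inj e1]; rfl
      · right
        rw [e2, Sum.inl.inj e1, add_sub_cancel_right]; rfl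
    · exfalso
      apply no_ptr D h1 h3 u
      rcases Sym2.eq_iff.mp he with ⟨e1, -⟩ | ⟨e1, -⟩
      · exact Or.inl e1.symm
      · exact Or.inr e1.symm
    · exfalso
      rcases Sym2.eq_iff.mp he with ⟨-, e2⟩ | ⟨e1, -⟩
      · exact D.Jd _ _ q.2 (hD j _ e2)
      · exact Sum.inl_ne_inr e1
  have u1 : Us g (.inl x) (g (k + 1)) := ⟨k, Or.inl ⟨hk, rfl⟩⟩
  have u2 : Us g (.inl x) (g (k - 1)) := ⟨k - 1, Or.inr ⟨rfl, by rw [sub_add_cancel, hk]⟩⟩
  have hne : g (k + 1) ≠ g (k - 1) := fun h => two_ne hm k (hg h)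
  rcases nb _ u1 with a1 | a1 <;> rcases nb _ u2 with a2 | a2
  · exact absurd (a1.trans a2.symm) hne
  · exact ⟨a1 ▸ u1, a2 ▸ u2⟩
  · exact ⟨a2 ▸ u2, a1 ▸ u1⟩
  · exact absurd (a1.trans a2.symm) hne

theorem count [NeZero m] (hg : Injective g)
    (hinj : ∀ e e', s(D.ea e, D.eb e) = s(D.ea e', D.eb e') → e = e')
    (hE : ∀ i, ∃ e, s(g i, g (i + 1)) = s(D.ea e, D.eb e))
    (hD : ∀ i p, g i = .inr p → D.Dm (.inr p)) (Fr : D.Ed → Prop) (T : ZMod n ⊕ N → Prop)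
    (hF : ∀ e, Fr e ↔ ¬ D.Fix e ∧ ¬ Us g (D.ea e) (D.eb e))
    (hT : ∀ v, T v ↔ ¬ D.Fre g v ∧ (D.Dm v ∨ ∃ a, D.A a ∧ v = .inl a)) :
    (univ.filter T).card ≤ (univ.filter Fr).card := by
  choose φ hφ using hE
  have ha : n + (univ.filter D.Dm).card ≤ (univ.filter Fr).card + m := by
    let ι : ZMod n ⊕ {v // D.Dm v} → D.Ed := Sum.map id Sum.inl
    have hι : Injective ι := Sum.map_injective.mpr ⟨injective_id, Sum.inl_injective⟩
    have h1 : univ.image ι ⊆ univ.filter Fr ∪ univ.image φ := by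
      intro e he
      obtain ⟨t, -, rfl⟩ := mem_image.mp he
      rw [mem_union]
      by_cases h : Us g (D.ea (ι t)) (D.eb (ι t))
      · right
        obtain ⟨i, hi⟩ := (us_iff g _ _).mp h
        exact mem_image.mpr ⟨i, mem_univ _, hinj _ _ ((hφ i).symm.trans hi)⟩
      · left
        refine mem_filter.mpr ⟨mem_univ _, (hF _).mpr ⟨?_, h⟩⟩
        rcases t with t | t <;> exact fun h => h
    have h2 := (card_le_card h1).trans (card_union_le _ _)
    have h3 : (univ.image φ).card ≤ m := by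
      refine card_image_le.trans ?_
      rw [card_univ, ZMod.card]
    rw [card_image_of_injective _ hι, card_univ, Fintype.card_sum, ZMod.card,
      Fintype.card_subtype] at h2
    exact h2.trans (Nat.add_le_add_left h3 _)
  have hc : (univ.filter T).card + (univ.filter (D.Fre g)).card ≤
      (univ.filter D.Dm).card + (univ.filter D.A).card := by
    have h0 : Disjoint (univ.filter T) (univ.filter (D.Fre g)) := by
      rw [disjoint_filter]
      exact fun v _ h => ((hT v).mp h).1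
    have h1 : univ.filter T ∪ univ.filter (D.Fre g) ⊆
        univ.filter D.Dm ∪ (univ.filter D.A).image Sum.inl := by
      intro v hv
      have h2 : D.Dm v ∨ ∃ a, D.A a ∧ v = .inl a := by
        rcases mem_union.mp hv with h | h
        · exact ((hT v).mp (mem_filter.mp h).2).2
        · obtain ⟨⟨i, hi⟩, h3⟩ := (mem_filter.mp h).2
          rcases v with x | p
          · exact Or.inr ⟨x, h3 x rfl, rfl⟩
          · exact Or.inl (hD i p hi)
      rw [mem_union]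
      rcases h2 with h | ⟨a, h, rfl⟩
      · exact Or.inl (mem_filter.mpr ⟨mem_univ _, h⟩)
      · exact Or.inr (mem_image_of_mem _ (mem_filter.mpr ⟨mem_univ _, h⟩))
    have h2 := (card_le_card h1).trans (card_union_le _ _)
    rw [card_union_of_disjoint h0, card_image_of_injective _ Sum.inl_injective] at h2
    exact h2
  have hd : m ≤ (univ.filter (D.Fre g)).card + (univ.filter (fun x => ¬ D.A x)).card := by
    have h1 : univ.image g ⊆
        univ.filter (D.Fre g) ∪ (univ.filter (fun x => ¬ D.A x)).image Sum.inl := by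
      intro v hv
      obtain ⟨i, -, hi⟩ := mem_image.mp hv
      rw [mem_union]
      by_cases h : ∀ x, v = .inl x → D.A x
      · exact Or.inl (mem_filter.mpr ⟨mem_univ _, ⟨i, hi⟩, h⟩)
      · push Not at h
        obtain ⟨x, rfl, hx⟩ := h
        exact Or.inr (mem_image_of_mem _ (mem_filter.mpr ⟨mem_univ _, hx⟩))
    have h2 := (card_le_card h1).trans (card_union_le _ _)
    rw [card_image_of_injective _ hg, card_image_of_injective _ Sum.inl_injective, card_univ,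
      ZMod.card] at h2
    exact h2
  have he : (univ.filter D.A).card + (univ.filter (fun x => ¬ D.A x)).card = n := by
    rw [card_filter_add_card_filter_not, card_univ, ZMod.card]
  omega

end ParBAux

open ParBAux in
theorem t_parB : T_LA → T_Ed → T_ParB := by
  intro hLA hEd n _ N _ hn D m _ hm g hg hE hR hD hker
  obtain ⟨hab, hinj⟩ := hEd n N hn D
  constructor
  · intro v hv hus f1 f2
    let e0 : D.Ed := .inr (.inl ⟨v, hv⟩)
    have h := hker (fun e => if e = e0 then 1 else 0) (fun e he => if_neg (by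
      rintro rfl; exact he)) (fun e he => if_neg (by rintro rfl; exact hus he)) (by
      intro u hu
      refine Finset.sum_eq_zero (fun e _ => ?_)
      by_cases h1 : D.ea e = u ∨ D.eb e = u
      · rw [if_pos h1]
        refine if_neg ?_
        rintro rfl
        rcases h1 with h1 | h1
        · exact not_fre D g hu (h1 ▸ f1)
        · exact not_fre D g hu (h1 ▸ f2)
      · exact if_neg h1)
    have h3 := congrFun h e0
    simp at h3
  · intro S hS hp hc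
    obtain ⟨Fr, hF⟩ : ∃ Fr : D.Ed → Prop, ∀ e, Fr e ↔ ¬ D.Fix e ∧ ¬ Us g (D.ea e) (D.eb e) :=
      ⟨_, fun _ => Iff.rfl⟩
    obtain ⟨T, hT⟩ : ∃ T : ZMod n ⊕ N → Prop,
        ∀ v, T v ↔ ¬ D.Fre g v ∧ (D.Dm v ∨ ∃ a, D.A a ∧ v = .inl a) := ⟨_, fun _ => Iff.rfl⟩
    refine (hLA _ _ D.ea D.eb Fr T (count D g hg hinj hE hD Fr T hF hT) ?_).2 hab S
      (fun v h => (hT v).mpr (hS v h)) ?_
    · intro Z z1 z2
      refine hker Z (fun e he => z1 e (fun h => ((hF e).mp h).1 he))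
        (fun e he => z1 e (fun h => ((hF e).mp h).2 he)) (fun v hv => ?_)
      by_cases ht : T v
      · exact z2 v ht
      have h0 : ¬ (D.Dm v ∨ ∃ a, D.A a ∧ v = .inl a) :=
        fun h => ht ((hT v).mpr ⟨not_fre D g hv, h⟩)
      obtain ⟨h1, h2⟩ := not_or.mp h0
      refine Finset.sum_eq_zero (fun e _ => ?_)
      split_ifs with h3
      · refine z1 e (fun h => ?_)
        obtain ⟨h4, h5⟩ := (hF e).mp h
        rcases e with t | u | q
        · have key : ∀ x, v = .inl x →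
              Us g (.inl x) (.inl (x + 1)) ∧ Us g (.inl x) (.inl (x - 1)) := by
            rintro x rfl
            have hA : ¬ D.A x := fun h => h2 ⟨x, h, rfl⟩
            obtain ⟨k, hk⟩ := hR _ ⟨x, hA, rfl⟩
            exact both D g hm hg hE hD h1 hA k hk
          rcases h3 with h3 | h3
          · exact h5 (key t h3.symm).1
          · have h6 := (key (t + 1) h3.symm).2
            rw [add_sub_cancel_right] at h6
            exact h5 (us_symm h6)
        · exact no_ptr D h1 h2 u h3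
        · exact h4 trivial
      · rfl
    · intro e he
      obtain ⟨h4, h5⟩ := (hF e).mp he
      rcases e with t | u | q
      · exact hc t h5
      · exact hp u.1 u.2 h5
      · exact absurd trivial h4

end Pool.Agent.MP_ee574f_co.CD

end

section

set_option autoImplicit false

namespace Pool.Agent.MP_ee574f_co.CD

open SimpleGraph Classical Finset Function

namespace F15Aux

variable {n : ℕ}

lemma nb_not {M A : ZMod n → Prop} (h : ∀ a, M a → Sg A a) {t : ZMod n} (ht : Nb M t) : ¬ A t := by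
  rcases ht with ht | ht
  · simpa using (h _ ht).2
  · simpa using (h _ ht).1

lemma nb_of {M : ZMod n → Prop} {a s : ZMod n} (h : M a) (hs : s = a + 1 ∨ s = a - 1) : Nb M s := by
  rcases hs with rfl | rfl
  · exact Or.inr (by simpa using h)
  · exact Or.inl (by simpa using h)

lemma exists_of_nb {M : ZMod n → Prop} {s : ZMod n} (h : Nb M s) :
    ∃ a, M a ∧ (s = a + 1 ∨ s = a - 1) := by
  rcases h with h | h
  · exact ⟨_, h, Or.inr (by simp)⟩
  · exact ⟨_, h, Or.inl (by simp)⟩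

lemma not_of_sg {W : ZMod n → Prop} {a s : ZMod n} (h : Sg W a) (hs : s = a + 1 ∨ s = a - 1) :
    ¬ W s := by
  rcases hs with rfl | rfl
  exacts [h.1, h.2]

variable [NeZero n]

lemma count {M Gs Anc : ZMod n → Prop} {nx : ZMod n → ZMod n} {x : ZMod n} (hx : Gs x)
    (hx' : ¬ Anc x) (h1 : ∀ s, Gs s → Nb M s)
    (h2 : ∀ a, M a → Gs (a + 1) ∨ Gs (a - 1) →
      ∃ s s', s ≠ s' ∧ Gs s ∧ Gs s' ∧ Anc s ∧ Anc s' ∧ nx s = a ∧ nx s' = a) : False := by
  set K := univ.filter fun a => M a ∧ (Gs (a + 1) ∨ Gs (a - 1)) with hK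
  have k1 : 2 * K.card ≤ (univ.filter fun s => Gs s ∧ Anc s ∧ nx s ∈ K).card := by
    refine Finset.mul_card_image_le_card_of_maps_to (f := nx)
      (fun s hs => (Finset.mem_filter.1 hs).2.2.2) 2 fun a ha => ?_
    obtain ⟨s, s', e, a1, a2, a3, a4, a5, a6⟩ :=
      h2 a (Finset.mem_filter.1 ha).2.1 (Finset.mem_filter.1 ha).2.2
    refine Finset.one_lt_card.2 ⟨s, ?_, s', ?_, e⟩
    · exact Finset.mem_filter.2 ⟨Finset.mem_filter.2 ⟨mem_univ _, a1, a3, a5 ▸ ha⟩, a5⟩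
    · exact Finset.mem_filter.2 ⟨Finset.mem_filter.2 ⟨mem_univ _, a2, a4, a6 ▸ ha⟩, a6⟩
  have k2 : (univ.filter fun s => Gs s ∧ Anc s ∧ nx s ∈ K).card < (univ.filter Gs).card := by
    refine Finset.card_lt_card ⟨fun s hs => ?_, fun h => ?_⟩
    · exact Finset.mem_filter.2 ⟨mem_univ _, (Finset.mem_filter.1 hs).2.1⟩
    · exact hx' (Finset.mem_filter.1 (h (Finset.mem_filter.2 ⟨mem_univ _, hx⟩))).2.2.1
  have k3 : univ.filter Gs ⊆ K.image (· + 1) ∪ K.image (· - 1) := fun s hs => by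
    have hs := (Finset.mem_filter.1 hs).2
    obtain ⟨a, ha, rfl | rfl⟩ := exists_of_nb (h1 s hs)
    · exact Finset.mem_union_left _ (Finset.mem_image_of_mem _
        (Finset.mem_filter.2 ⟨mem_univ _, ha, Or.inl hs⟩))
    · exact Finset.mem_union_right _ (Finset.mem_image_of_mem _
        (Finset.mem_filter.2 ⟨mem_univ _, ha, Or.inr hs⟩))
  have k4 := (Finset.card_le_card k3).trans ((Finset.card_union_le _ _).trans
    (add_le_add Finset.card_image_le Finset.card_image_le))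
  omega

end F15Aux

open F15Aux

theorem t_f1 : T_F1 := by
  intro n _ N _ At lg H0 F m g M hS x p hx
  have hA : ∀ t, Nb M t → ¬ F.A t := fun t => nb_not fun a ha => (hS.mA a ha).2.1
  have hW : ∀ t, Nb M t → ¬ F.W t := fun t => nb_not fun a ha => (hS.mA a ha).2.2
  have cls : ∀ t q, Nb M t → F.par (.inl t) = .inr q → (F.Mag t ∧ F.b (F.σ t) = q) ∨
      (F.Anc t ∧ ¬ F.Mag t ∧ F.h t = q) ∨ (F.Bt t ∧ F.b t = q) := fun t q ht e => by
    by_cases hm : F.Mag t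
    · exact Or.inl ⟨hm, Sum.inr.inj ((F.par_mag hm).symm.trans e)⟩
    · by_cases ha : F.Anc t
      · exact Or.inr (Or.inl ⟨ha, hm, Sum.inr.inj ((F.par_anc hm ha).symm.trans e)⟩)
      · have hb := ((F.cov t).resolve_left ha).resolve_right (hW t ht)
        exact Or.inr (Or.inr ⟨hb, Sum.inr.inj ((F.par_bt hb).symm.trans e)⟩)
  obtain ⟨x1, x2⟩ := hS.u1 x p hx
  have hD : F.Dm (.inr p) := by
    rcases x2 with ⟨d, e⟩ | ⟨d, -⟩
    · rcases F.ptr.up _ d with h | ⟨a, -, h⟩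
      · rwa [e] at h
      · rw [e] at h
        cases h
    · exact d
  rcases hD with hp | ⟨y, hy, rfl⟩
  · left
    have e : F.par (.inl x) = .inr p := by
      rcases x2 with ⟨-, e⟩ | ⟨-, e⟩
      · exact e
      · exact absurd (Sum.inl.inj ((F.par_h hp).symm.trans e) ▸ (F.ρ_sp p hp).1) (hA x x1)
    rcases cls x p x1 e with ⟨a1, rfl⟩ | ⟨a1, a2, a3⟩ | ⟨a1, rfl⟩
    · exact absurd hp (F.b_sp _ (F.σ_sp x a1).2.1).2.1
    · refine ⟨hp, a1, a2, a3, (hS.hM _).2 fun hv => ?_⟩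
      have e' : F.ptr.par (.inr p) = .inl (F.ρ p) := F.par_h hp
      refine hS.k1 (.inr p) (Or.inl hp) (fun hu => ?_) ⟨?_, fun _ h => nomatch h⟩ ?_
      · rw [e'] at hu
        exact hA _ (hS.u1 _ _ (hu.imp fun _ => Or.symm)).1 (F.ρ_sp p hp).1
      · obtain ⟨i, h | h⟩ := hx
        exacts [⟨_, h.2⟩, ⟨_, h.1⟩]
      · rw [e']
        exact ⟨hv, fun z h => Sum.inl.inj h ▸ (F.ρ_sp p hp).1⟩
    · exact absurd hp (F.b_sp _ a1).2.1
  · right
    have key : ∀ t, Us g (.inl t) (.inr (F.b y)) →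
        (¬ F.A y ∧ (t = y ∨ t = F.π y)) ∨ (F.A y ∧ F.Mag t ∧ F.σ t = y) := fun t ht => by
      obtain ⟨t1, ⟨-, e⟩ | ⟨-, e⟩⟩ := hS.u1 t _ ht
      · rcases cls t _ t1 e with ⟨a1, a2⟩ | ⟨a1, -, a3⟩ | ⟨a1, a2⟩
        · have := F.b_inj _ _ (F.σ_sp t a1).2.1 hy a2
          exact Or.inr ⟨this ▸ (F.σ_sp t a1).1, a1, this⟩
        · exact absurd (a3 ▸ (F.h_sp t a1).1) (F.b_sp y hy).2.1
        · have := F.b_inj _ _ a1 hy a2
          exact Or.inl ⟨this ▸ hA t t1, Or.inl this⟩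
      · have e' := Sum.inl.inj ((F.par_b hy).symm.trans e)
        by_cases ha : F.A y
        · rw [if_pos ha] at e'
          exact absurd (e' ▸ ha) (hA t t1)
        · rw [if_neg ha] at e'
          exact Or.inl ⟨ha, Or.inr e'.symm⟩
    obtain ⟨z, hz, hz'⟩ := hS.u4 x _ hx
    have z1 := (hS.u1 z _ hz').1
    rcases key x hx with ⟨a1, a2⟩ | ⟨a1, a2, a3⟩
    · have a3 := ((key z hz').resolve_right fun h => a1 h.1).2
      have a4 : Nb M y ∧ Nb M (F.π y) := by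
        rcases a2 with a2 | a2 <;> rcases a3 with a3 | a3
        · exact absurd (a3.trans a2.symm) hz
        · exact ⟨a2 ▸ x1, a3 ▸ z1⟩
        · exact ⟨a3 ▸ z1, a2 ▸ x1⟩
        · exact absurd (a3.trans a2.symm) hz
      have act : ∀ a, M a → F.Act a := fun a ha => F.act a (hS.mA a ha).1 (hS.mA a ha).2.2
      have a5 := F.π_fl y hy (a4.2.imp (act _) (act _))
      exact ⟨y, hy, a1, rfl, a2, a4.1, a4.2, a5.2, a5.1⟩
    · have a4 := ((key z hz').resolve_left fun h => h.1 a1).2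
      exact absurd (F.σ_inj _ _ a4.1 a2 (a4.2.trans a3.symm)) hz

theorem t_f5 : T_F5 := by
  intro n _ M W Mag Anc Bt Bad nx π lv h1 h2 h3 h4 h5 h6 h7 h8 h9
  suffices H : ∀ s, Nb M s → ¬ Mag s from fun s hs =>
    ⟨(h3 s hs).resolve_right fun hb => H _ (h7 s hs hb).1 (h7 s hs hb).2.1, H s hs⟩
  intro s₀ hs₀ hm₀
  obtain ⟨y₀, hy₀, hmin⟩ := Finset.exists_min_image (univ.filter fun s => Nb M s ∧ Mag s) lv
    ⟨s₀, Finset.mem_filter.2 ⟨mem_univ _, hs₀, hm₀⟩⟩
  obtain ⟨x₀, b1, b2, rfl⟩ := h6 y₀ (Finset.mem_filter.1 hy₀).2.1 (Finset.mem_filter.1 hy₀).2.2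
  set R : ZMod n → ZMod n → Prop := fun a b => Step Anc W Mag nx a b ∧ Nb M a ∧ M (nx a) with hR
  have g1 : ∀ s, Relation.ReflTransGen R s x₀ → Nb M s ∧ (Mag s → M (nx s)) := fun s hs => by
    rcases hs.cases_head with rfl | ⟨c, hc, -⟩
    · exact ⟨b1, fun h => absurd (h1 _ h) (h2 _ b2)⟩
    · exact ⟨hc.2.1, fun _ => hc.2.2⟩
  obtain ⟨s, u, hs, hu, hsu, hg⟩ : ∃ s u, Relation.ReflTransGen R s x₀ ∧ M u ∧
      (s = u + 1 ∨ s = u - 1) ∧ ¬ Sg Mag u := by
    by_contra hcon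
    have c1 : ∀ s u, Relation.ReflTransGen R s x₀ → M u → (s = u + 1 ∨ s = u - 1) → Sg Mag u :=
      fun s u a1 a2 a3 => by_contra fun a4 => hcon ⟨s, u, a1, a2, a3, a4⟩
    refine count (M := M) (Gs := fun s => Relation.ReflTransGen R s x₀) (Anc := Anc) (nx := nx)
      .refl (h2 _ b2) (fun s hs => (g1 s hs).1) fun a ha hb => ?_
    obtain ⟨t, ht, hta⟩ : ∃ t, Relation.ReflTransGen R t x₀ ∧ (t = a + 1 ∨ t = a - 1) :=
      hb.elim (fun h => ⟨_, h, Or.inl rfl⟩) fun h => ⟨_, h, Or.inr rfl⟩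
    have c2 := c1 t a ht ha hta
    have c3 : ∀ w, Nb M w → Anc w → nx w = a → Relation.ReflTransGen R w x₀ := by
      rintro w w1 w2 rfl
      exact .head ⟨⟨w2, h4 _ ha, c2, hta⟩, w1, ha⟩ ht
    rcases h8 a ha c2 with ⟨w, w', e, a1, a2, a3, a4, -, -, a5, a6⟩ | ⟨w, a1, a2, a3⟩
    · exact ⟨w, w', e, c3 w a1 a3 a5, c3 w' a2 a4 a6, a3, a4, a5, a6⟩
    · obtain ⟨v, hv, hwv⟩ := exists_of_nb a1
      exact absurd a2 (not_of_sg (c1 w v (c3 w a1 (h1 w a2) a3) hv hwv) hwv)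
  obtain ⟨y, hy, hyu⟩ : ∃ y, Mag y ∧ (y = u + 1 ∨ y = u - 1) := by
    by_cases h : Mag (u + 1)
    · exact ⟨_, h, Or.inl rfl⟩
    · exact ⟨_, by_contra fun h' => hg ⟨h, h'⟩, Or.inr rfl⟩
  have hsy : s = y ∨ s = y + 2 ∨ s = y - 2 := by
    rcases hsu with rfl | rfl <;> rcases hyu with rfl | rfl
    · exact Or.inl rfl
    · exact Or.inr (Or.inl (by ring))
    · exact Or.inr (Or.inr (by ring))
    · exact Or.inl rfl
  rcases h9 y s hy hsy with h | ⟨x, hx, c1, c2⟩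
  · exact (h x₀ (Relation.ReflTransGen.mono (fun _ _ h => h.1) _ _ hs) b2 (h7 _ b1 b2).2.2).not_ge
      (hmin y (Finset.mem_filter.2 ⟨mem_univ _, nb_of hu hyu, hy⟩))
  · have inv : Nb M x ∧ (Mag x → M (nx x)) := by
      clear c1 c2
      induction hx with
      | refl => exact g1 s hs
      | @tail t t' _ st ih =>
        have : M (nx t) := (Classical.em (Mag t)).elim ih.2 (h5 t ih.1 st.1)
        exact ⟨nb_of this st.2.2.2, fun h => absurd h (not_of_sg st.2.2.1 st.2.2.2)⟩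
    exact c2 (h7 x inv.1 c1).2.2

end Pool.Agent.MP_ee574f_co.CD

end

section

set_option autoImplicit false

namespace Pool.Agent.MP_ee574f_co.CD

open SimpleGraph Classical Finset Function

namespace F4Aux

variable {n : ℕ} [NeZero n] {N : Type} [Fintype N] {At : ZMod n → N → Prop} {lg H0 : N → Prop}
  {F : Frame n N At lg H0} {m : ℕ} {g : ZMod m → ZMod n ⊕ N} {M : ZMod n → Prop}

/-- the vertices whose pointer path reaches `a` -/
def Tree (F : Frame n N At lg H0) (a : ZMod n) (v : ZMod n ⊕ N) : Prop :=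
  Relation.ReflTransGen (fun u w => F.Dm u ∧ F.par u = w) v (.inl a)

theorem Tree.up {a : ZMod n} (ha : F.A a) {v w : ZMod n ⊕ N} (h : Tree F a v) (hv : F.Dm v)
    (e : F.par v = w) : Tree F a w := by
  rcases Relation.ReflTransGen.cases_head h with e' | ⟨c, h1, h2⟩
  · subst e'
    exact absurd ha hv.1
  · rw [← e, h1.2]
    exact h2

theorem Tree.root {a : ZMod n} {v : ZMod n ⊕ N} (h : Tree F a v) (hv : ¬ F.Dm v) : v = .inl a := by
  rcases Relation.ReflTransGen.cases_head h with e' | ⟨c, h1, -⟩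
  · exact e'
  · exact absurd h1.1 hv

theorem Tree.sink {a x : ZMod n} (h : Tree F a (.inl x)) (hx : F.A x) : x = a :=
  Sum.inl.inj (h.root fun h' => h'.1 hx)

theorem Tree.down {a : ZMod n} {v w : ZMod n ⊕ N} (h : Tree F a w) (hv : F.Dm v)
    (e : F.par v = w) : Tree F a v := Relation.ReflTransGen.head ⟨hv, e⟩ h

theorem slot (hS : Surv F g M) {s : ZMod n} (h : Nb M s) : F.Dm (.inl s) := by
  rcases h with h | h
  · obtain ⟨-, h1, h2⟩ := hS.mA _ h
    exact ⟨by simpa using h1.2, by simpa using h2.2⟩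
  · obtain ⟨-, h1, h2⟩ := hS.mA _ h
    exact ⟨by simpa using h1.1, by simpa using h2.1⟩

theorem nb_act (hS : Surv F g M) {s : ZMod n} (h : Nb M s) : Nb F.Act s :=
  h.imp (fun h => F.act _ (hS.mA _ h).1 (hS.mA _ h).2.2)
    fun h => F.act _ (hS.mA _ h).1 (hS.mA _ h).2.2

theorem used (h1 : T_F1) (hS : Surv F g M) {s : ZMod n} (hs : ¬ F.Mag s) {p : N}
    (h : Us g (.inl s) (.inr p)) : F.par (.inl s) = .inr p := by
  rcases h1 n N At lg H0 F m g M hS s p h with ⟨-, a1, -, a2, -⟩ | ⟨y, a1, -, a2, a3, -, -, a4, -⟩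
  · rw [F.par_anc hs a1, a2]
  · rcases a3 with e | e
    · rw [e, F.par_bt a1, a2]
    · exact absurd (e ▸ a4) hs

theorem nochild (hS : Surv F g M) {s : ZMod n} (hs : Nb M s) (hm : ¬ F.Mag s) {v : ZMod n ⊕ N}
    (hv : F.Dm v) : F.par v ≠ .inl s := by
  intro e
  have hA := (slot hS hs).1
  rcases v with x | p
  · exact Sum.inr_ne_inl e
  · rcases hv with h | ⟨y, hy, rfl⟩
    · rw [F.par_h h] at e
      exact hA (Sum.inl.inj e ▸ (F.ρ_sp p h).1)
    · rw [F.par_b hy] at e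
      by_cases hy' : F.A y
      · rw [if_pos hy'] at e
        exact hA (Sum.inl.inj e ▸ hy')
      · rw [if_neg hy'] at e
        have e' := Sum.inl.inj e
        exact hm (e' ▸ (F.π_fl y hy (e' ▸ nb_act hS hs)).2)

theorem two (h1 : T_F1) (hS : Surv F g M) {s : ZMod n} (hs : ¬ F.Mag s) (a1 : M (s + 1))
    (a2 : M (s - 1)) : False := by
  obtain ⟨p, q, e, b1, b2⟩ := hS.u3 s a1 a2
  exact e (Sum.inr.inj ((used h1 hS hs b1).symm.trans (used h1 hS hs b2)))

theorem hub (h1 : T_F1) (hS : Surv F g M) {a : ZMod n} (ha : F.A a) {x : ZMod n} {p : N}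
    (h : Us g (.inl x) (.inr p)) (ht : Tree F a (.inr p)) :
    (∃ s s', s ≠ s' ∧ Nb M s ∧ Nb M s' ∧ F.Anc s ∧ F.Anc s' ∧ ¬ F.Mag s ∧ ¬ F.Mag s' ∧
      F.nx s = a ∧ F.nx s' = a) ∨ ∃ w, Nb M w ∧ F.Mag w ∧ F.nx w = a := by
  rcases h1 n N At lg H0 F m g M hS x p h with
    ⟨a0, a1, a2, a3, -⟩ | ⟨y, a1, a2, rfl, -, -, a3, a4, -⟩
  · have e : F.ρ p = a := (ht.up ha (Or.inl a0) (F.par_h a0)).sink (F.ρ_sp p a0).1
    obtain ⟨y, hy, hu⟩ := hS.u4 x p h
    rcases h1 n N At lg H0 F m g M hS y p hu with ⟨-, b1, b2, b3, -⟩ | ⟨z, b1, -, rfl, -⟩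
    · refine Or.inl ⟨y, x, hy, (hS.u1 _ _ hu).1, (hS.u1 _ _ h).1, b1, a1, b2, a2, ?_, ?_⟩
      · rw [Frame.nx, if_neg b2, b3, e]
      · rw [Frame.nx, if_neg a2, a3, e]
    · exact absurd a0 (F.b_sp z b1).2.1
  · obtain ⟨b1, b2, -⟩ := F.σ_sp _ a4
    have t1 := ht.up ha (Or.inr ⟨y, a1, rfl⟩) ((F.par_b a1).trans (by rw [if_neg a2]))
    have t2 := t1.up ha (slot hS a3) (F.par_mag a4)
    have t3 := t2.up ha (Or.inr ⟨_, b2, rfl⟩) ((F.par_b b2).trans (by rw [if_pos b1]))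
    exact Or.inr ⟨_, a3, a4, by rw [Frame.nx, if_pos a4, t3.sink b1]⟩

end F4Aux

open F4Aux in
theorem t_f4 : T_F1 → T_F4 := by
  intro h1 n _ N _ At lg H0 F m g M hS a ha hm
  by_contra hc
  have hA := (hS.mA a ha).1
  have s1 : ∀ x p, Us g (.inl x) (.inr p) → ¬ Tree F a (.inr p) :=
    fun x p h ht => hc (hub h1 hS hA h ht)
  have s3 : ∀ t, Nb M t → ¬ Tree F a (.inl t) := by
    intro t h ht
    obtain ⟨p, hp⟩ := hS.u2 t h
    rcases (hS.u1 t p hp).2 with e | e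
    · exact s1 t p hp (ht.up hA e.1 e.2)
    · exact s1 t p hp (ht.down e.1 e.2)
  have e1 : M (a + 1 - 1) := by rwa [add_sub_cancel_right]
  have e2 : M (a - 1 + 1) := by rwa [sub_add_cancel]
  have sl : ∀ v : ZMod n ⊕ N, v = .inl (a + 1) ∨ v = .inl (a - 1) →
      ∃ s, Nb M s ∧ ¬ F.Mag s ∧ v = .inl s := by
    rintro v (e | e)
    exacts [⟨_, Or.inr e1, hm.1, e⟩, ⟨_, Or.inl e2, hm.2, e⟩]
  have s4 : ∀ y, M y → y ≠ a →
      ¬ (Tree F a (.inl y) ∨ (.inl y : ZMod n ⊕ N) = .inl (a + 1) ∨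
        (.inl y : ZMod n ⊕ N) = .inl (a - 1)) := by
    rintro y hy hya (h | h)
    · exact hya (h.sink (hS.mA y hy).1)
    · obtain ⟨s, b1, -, b2⟩ := sl _ h
      exact (slot hS b1).1 (Sum.inl.inj b2 ▸ (hS.mA y hy).1)
  refine hS.k2 (fun v => Tree F a v ∨ v = .inl (a + 1) ∨ v = .inl (a - 1)) ?_ ?_ ?_ (.inl a)
    (Or.inl Relation.ReflTransGen.refl)
  · rintro v (h | h)
    · refine ⟨fun hf => ?_, ?_⟩
      · obtain ⟨⟨i, hi⟩, hf⟩ := hf
        rcases v with x | p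
        · have e := h.sink (hf x rfl)
          exact (hS.hM a).1 ha ⟨i, e ▸ hi⟩
        · obtain ⟨x, hx⟩ := hS.u5 i p hi
          exact s1 x p hx h
      · by_cases hv : F.Dm v
        · exact Or.inl hv
        · exact Or.inr ⟨a, hA, h.root hv⟩
    · obtain ⟨s, b1, -, rfl⟩ := sl v h
      exact ⟨fun hf => (slot hS b1).1 (hf.2 s rfl), Or.inl (slot hS b1)⟩
  · intro v hv hu
    constructor
    · rintro (h | h)
      · exact Or.inl (h.up hA hv rfl)
      · obtain ⟨s, b1, b2, rfl⟩ := sl v h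
        obtain ⟨p, hp⟩ := hS.u2 s b1
        have e : F.ptr.par (.inl s) = .inr p := used h1 hS b2 hp
        exact absurd (e ▸ hp) hu
    · rintro (h | h)
      · exact Or.inl (h.down hv rfl)
      · obtain ⟨s, b1, b2, b3⟩ := sl _ h
        exact absurd b3 (nochild hS b1 b2 hv)
  · intro x hu
    rcases hS.cE x hu with h | h
    · by_cases e : x = a
      · subst e
        exact iff_of_true (Or.inl Relation.ReflTransGen.refl) (Or.inr (Or.inl rfl))
      · refine iff_of_false (s4 x h e) ?_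
        have h' : M (x + 1 - 1) := by rwa [add_sub_cancel_right]
        rintro (t | t | t)
        · exact s3 _ (Or.inr h') t
        · exact e (add_right_cancel (Sum.inl.inj t))
        · exact two h1 hS hm.2 e2 (Sum.inl.inj t ▸ h')
    · by_cases e : x + 1 = a
      · subst e
        exact iff_of_true (Or.inr (Or.inr (by rw [add_sub_cancel_right])))
          (Or.inl Relation.ReflTransGen.refl)
      · refine iff_of_false ?_ (s4 _ h e)
        rintro (t | t | t)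
        · exact s3 _ (Or.inl h) t
        · exact two h1 hS hm.1 (Sum.inl.inj t ▸ h) e1
        · exact e (by rw [Sum.inl.inj t, sub_add_cancel])

end Pool.Agent.MP_ee574f_co.CD

end

section

set_option autoImplicit false

namespace Pool.Agent.MP_ee574f_co.CD

open SimpleGraph Classical Finset Function

namespace WSAux

/-- The run property from the local conditions on a matching `E`. -/
theorem run_blk {n : ℕ} (W B Sel : ZMod n → Prop) (E : Finset (ZMod n))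
    (hE : ∀ i ∈ E, W i ∧ W (i + 1) ∧ i + 1 ∉ E)
    (hEm : ∀ i, W i → W (i + 1) → i ∈ E ∨ i + 1 ∈ E ∨ i - 1 ∈ E)
    (hW : ∀ a, Sel a → W a)
    (e3 : ∀ a b, Sel a → Sel b → ¬ ((a ∈ E ∧ b = a + 1) ∨ (b ∈ E ∧ a = b + 1)))
    (B0 : ∀ s, B s → ¬ W s) (B1 : ∀ s, B s → ¬ B (s + 1))
    (hB : ∀ s a, B s → Sel a → Sg W a → a ≠ s - 1 ∧ a ≠ s + 1) :
    Run W (fun s => B s ∨ Sel s) := by
  let A : ZMod n → Prop := fun s => B s ∨ Sel s
  have hA : ∀ s, A s → W s → Sel s := fun s h h' => h.resolve_left fun e => B0 s e h'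
  have hA' : ∀ s, A s → ¬ W s → B s := fun s h h' => h.resolve_right fun e => h' (hW s e)
  exact run_of_local W A
    (fun i h h' => by
      by_contra e
      exact B1 i (hA' _ h (not_or.1 e).1) (hA' _ h' (not_or.1 e).2))
    (fun i h h' w => by
      by_contra e
      exact (hB _ _ (hA' _ h' (not_or.1 e).1) (hA _ h w) (not_or.1 e)).1 (by ring))
    (fun i h h' w => by
      by_contra e
      refine (hB _ _ (hA' _ h (not_or.1 e).1) (hA _ h' w) ⟨?_, ?_⟩).2 rfl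
      · rw [add_assoc, one_add_one_eq_two]; exact (not_or.1 e).2
      · rw [add_sub_cancel_right]; exact (not_or.1 e).1)
    (fun i h h' w w' => by
      rcases hEm i w w' with e | e | e
      · exact absurd (Or.inl ⟨e, rfl⟩) (e3 _ _ (hA _ h w) (hA _ h' w'))
      · have w2 := (hE _ e).2.1
        rw [add_assoc, one_add_one_eq_two] at w2
        exact Or.inl ⟨w2, fun z => e3 _ _ (hA _ h' w') (hA _ z w2) (Or.inl ⟨e, by ring⟩)⟩
      · exact Or.inr ⟨(hE _ e).1, fun z => e3 _ _ (hA _ z (hE _ e).1) (hA _ h w)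
          (Or.inl ⟨e, by ring⟩)⟩)

/-- The parity join as a relation. -/
theorem join_blk {X P : Type} [Fintype X] [Fintype P] (Ad : P → X → Prop) (W Sel : X → Prop)
    (hfree : ∀ x, (∃ x', (¬ W x' ∨ Sel x') ∧
      Relation.EqvGen (fun a b => ∃ p, Ad p a ∧ Ad p b) x x') ∨
      Even (univ.filter (fun z => Relation.EqvGen (fun a b => ∃ p, Ad p a ∧ Ad p b) x z)).card) :
    ∃ J : X → P → Prop, (∀ x p, J x p → Ad p x) ∧
      (∀ p, Even (univ.filter (fun x => J x p)).card) ∧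
      ∀ x, W x → ¬ Sel x → Odd (univ.filter (fun p => J x p)).card := by
  obtain ⟨J, j1, j2, j3⟩ := tjoin2 (fun x p => Ad p x) (fun x => ¬ W x ∨ Sel x)
    (by convert hfree)
  refine ⟨fun x p => J x p ≠ 0, j1, fun p => ?_, fun x hx hs => ?_⟩
  · rw [← ZMod.natCast_eq_zero_iff_even]
    convert (card_ne_zero_cast2 (fun x => J x p)).trans (j2 p)
  · rw [← ZMod.natCast_eq_one_iff_odd]
    convert (card_ne_zero_cast2 (fun p => J x p)).trans (j3 x (not_or.2 ⟨not_not.2 hx, hs⟩))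

end WSAux

theorem t_ws : T_WS := by
  intro n _ hn W P _ Ad a3
  have h10 : (1 : ZMod n) ≠ 0 := by exact_mod_cast cast_ne hn 1 (by omega) (by omega)
  obtain ⟨E, hE, hEm⟩ := max_match hn W
  let R : ZMod n → ZMod n → Prop := fun a b => ∃ p, Ad p a ∧ Ad p b
  let st : Setoid (ZMod n) := Relation.EqvGen.setoid R
  let cl : Quotient st → Finset (ZMod n) := fun q => univ.filter (fun x => Quotient.mk st x = q)
  let κ := {q : Quotient st // (∀ x ∈ cl q, W x) ∧ 3 ≤ (cl q).card}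
  choose c c1 c2 c3 c4 c5 using fun q : κ => cands hn (Sg W) (cl q.1) q.2.2
  have hcl : ∀ (q q' : κ) x, x ∈ cl q.1 → x ∈ cl q'.1 → q = q' := fun q q' x h h' =>
    Subtype.ext ((mem_filter.1 h).2.symm.trans (mem_filter.1 h').2)
  obtain ⟨S', o, o1, o2, o3⟩ := merge
    (fun a b => (a ∈ E ∧ b = a + 1) ∨ (b ∈ E ∧ a = b + 1)) (Sg W)
    (fun a => ∃ q : κ, a = c q false ∧ a - 2 ∈ cl q.1)
    (fun a b => a ≠ b ∧ a ≠ b + 2 ∧ b ≠ a + 2)
    (fun a b h => h.symm) (fun a h => h10 (by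
      linear_combination -(h.elim And.right And.right : a = a + 1)))
    (by
      rintro a b d (⟨h, rfl⟩ | ⟨h, rfl⟩) (⟨h', e⟩ | ⟨h', e⟩)
      · exact e.symm
      · exact absurd (e ▸ h) (hE d h').2.2
      · exact absurd h' (hE b h).2.2
      · exact add_right_cancel e)
    (by
      rintro a b hs (⟨h, rfl⟩ | ⟨h, rfl⟩)
      · exact hs.1 (hE a h).2.1
      · exact hs.2 (by rw [add_sub_cancel_right]; exact (hE b h).1))
    (by
      rintro a b ⟨q, e, h⟩ ⟨q', e', h'⟩ hab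
      have hne : q ≠ q' := fun z => hab (by rw [e, e', z])
      exact ⟨hab, fun z => hne (hcl q q' b (by simpa [z] using h) (e' ▸ c1 q' false)),
        fun z => hne (hcl q q' a (e ▸ c1 q false) (by simpa [z] using h'))⟩)
    (univ : Finset κ) c
    (by
      intro q _ q' _ b b' e
      have := hcl q q' _ (c1 q b) (e ▸ c1 q' b')
      subst this
      refine ⟨rfl, ?_⟩
      cases b <;> cases b'
      exacts [rfl, absurd e (c2 q), absurd e.symm (c2 q), rfl])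
    (fun q _ h h' => ⟨c2 q, c3 q h h'⟩)
    (by
      rintro q _ (_ | _) h h'
      · exact ⟨q, rfl, c5 q h h'⟩
      · exact absurd (c4 q h) h')
  refine ⟨S', inferInstance, fun q : S' => o q.1,
    fun q b q' b' e => Subtype.ext (o1 _ q.2 _ q'.2 b b' e), fun q => o2 _ q.2, fun ω => ?_⟩
  obtain ⟨Sel, e1, e2, e3, e4⟩ := o3 fun q => if h : q ∈ S' then ω ⟨q, h⟩ else false
  have hW : ∀ a, Sel a → W a := fun a h => by
    obtain ⟨q, -, b, rfl⟩ := e2 a h
    exact q.2.1 _ (c1 q b)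
  refine ⟨Sel, hW, fun a ha hg => ?_, ?_,
    fun B B0 B1 hB => WSAux.run_blk W B Sel E hE hEm hW e3 B0 B1 hB⟩
  · obtain ⟨q, hq, e⟩ := e4 a ha hg
    rw [dif_pos hq] at e
    exact ⟨⟨q, hq⟩, e⟩
  have hfree : ∀ x, (∃ x', (¬ W x' ∨ Sel x') ∧ Relation.EqvGen R x x') ∨
      Even (univ.filter (fun z => Relation.EqvGen R x z)).card := by
    intro x
    have hmem : ∀ z, z ∈ cl (Quotient.mk st x) ↔ Relation.EqvGen R x z := fun z => by
      simp only [cl, mem_filter, mem_univ, true_and]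
      exact ⟨fun e => Quotient.exact e.symm, fun e => (Quotient.sound (s := st) e).symm⟩
    by_cases h : ∀ z ∈ cl (Quotient.mk st x), W z
    swap
    · push Not at h
      obtain ⟨y, e, hy⟩ := h
      exact Or.inl ⟨y, Or.inl hy, (hmem y).1 e⟩
    by_cases h3 : 3 ≤ (cl (Quotient.mk st x)).card
    · obtain ⟨b, hb⟩ := e1 ⟨_, h, h3⟩ (mem_univ _)
      exact Or.inl ⟨_, Or.inr hb, (hmem _).1 (c1 ⟨_, h, h3⟩ b)⟩
    · right
      have hx := (hmem x).2 (.refl _)
      obtain ⟨p, y, hy, p1, p2⟩ := a3 x (h x hx)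
      have h2 : 1 < (cl (Quotient.mk st x)).card :=
        one_lt_card.2 ⟨y, (hmem y).2 (.rel _ _ ⟨p, p1, p2⟩), x, hx, hy⟩
      have h4 : (cl (Quotient.mk st x)).card = 2 := by omega
      have h5 : univ.filter (fun z => Relation.EqvGen R x z) = cl (Quotient.mk st x) := by
        ext z; rw [hmem]; simp
      rw [h5, h4]; exact even_two
  have hJ := WSAux.join_blk Ad W Sel (by convert hfree)
  convert hJ

theorem run_ex (n : ℕ) [NeZero n] (hn : 10 ≤ n) (W A : ZMod n → Prop) (h : Run W A) :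
    ∃ x, ¬ A x ∧ x ≠ 0 ∧ x ≠ 1 := by
  have hc : ∀ a : ℕ, 2 ≤ a → a < 10 → ((a : ℕ) : ZMod n) ≠ 0 ∧ ((a : ℕ) : ZMod n) ≠ 1 := by
    intro a h1 h2
    refine ⟨cast_ne hn a (by omega) h2, fun e => cast_ne hn (a - 1) (by omega) (by omega) ?_⟩
    rw [Nat.cast_sub (by omega), e]; simp
  by_cases h5 : A 5
  swap; · exact ⟨5, h5, by exact_mod_cast hc 5 (by omega) (by omega)⟩
  by_cases h6 : A (5 + 1)
  swap
  · exact ⟨_, h6, by have := hc 6 (by omega) (by omega); norm_num at this ⊢; exact this⟩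
  obtain ⟨x, -, hx, -, hm⟩ := h A (fun _ => id) 5 h5 (Or.inl h6)
  refine ⟨x, hx, ?_⟩
  simp only [mem_insert, mem_singleton] at hm
  rcases hm with e | e | e | e | e | e
  · rw [show x = ((4 : ℕ) : ZMod n) by push_cast; linear_combination -e]
    exact hc 4 (by omega) (by omega)
  · rw [show x = ((3 : ℕ) : ZMod n) by push_cast; linear_combination -e]
    exact hc 3 (by omega) (by omega)
  · rw [show x = ((2 : ℕ) : ZMod n) by push_cast; linear_combination -e]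
    exact hc 2 (by omega) (by omega)
  · rw [show x = ((6 : ℕ) : ZMod n) by push_cast; linear_combination -e]
    exact hc 6 (by omega) (by omega)
  · rw [show x = ((7 : ℕ) : ZMod n) by push_cast; linear_combination -e]
    exact hc 7 (by omega) (by omega)
  · rw [show x = ((8 : ℕ) : ZMod n) by push_cast; linear_combination -e]
    exact hc 8 (by omega) (by omega)

end Pool.Agent.MP_ee574f_co.CD

end

section

set_option autoImplicit false

namespace Pool.Agent.MP_ee574f_co.CD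

open SimpleGraph Classical Finset Function

namespace LiftAux

theorem two_ne {m : ℕ} (hm : 3 ≤ m) (i : ZMod m) : i + 1 ≠ i - 1 := by
  intro e
  have h : ((2 : ℕ) : ZMod m) = 0 := by
    push_cast
    linear_combination e
  have := Nat.le_of_dvd (by norm_num) ((ZMod.natCast_eq_zero_iff _ _).1 h)
  omega

theorem stp_symm {n : ℕ} {N : Type} {At : ZMod n → N → Prop} {u v : ZMod n ⊕ N}
    (h : Stp At u v) : Stp At v u := by
  rcases u with x | p <;> rcases v with y | q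
  · exact Or.symm h
  · exact h
  · exact h
  · exact h

theorem stp_pred {n : ℕ} {N : Type} {At : ZMod n → N → Prop} {m : ℕ}
    {g : ZMod m → ZMod n ⊕ N} (h : ∀ i, Stp At (g i) (g (i + 1))) (i : ZMod m) :
    Stp At (g i) (g (i - 1)) := by
  have := h (i - 1)
  rw [sub_add_cancel] at this
  exact stp_symm this

theorem us_symm {α : Type} {m : ℕ} {g : ZMod m → α} {u v : α} (h : Us g u v) : Us g v u := by
  obtain ⟨i, h⟩ := h
  exact ⟨i, h.symm⟩

theorem us_succ {α : Type} {m : ℕ} (g : ZMod m → α) (i : ZMod m) : Us g (g i) (g (i + 1)) :=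
  ⟨i, Or.inl ⟨rfl, rfl⟩⟩

theorem us_pred {α : Type} {m : ℕ} (g : ZMod m → α) (i : ZMod m) : Us g (g i) (g (i - 1)) :=
  ⟨i - 1, Or.inr ⟨rfl, by rw [sub_add_cancel]⟩⟩

theorem us_vis {α : Type} {m : ℕ} {g : ZMod m → α} {u v : α} (h : Us g u v) : ∃ i, g i = u := by
  obtain ⟨i, h | h⟩ := h
  · exact ⟨i, h.1⟩
  · exact ⟨i + 1, h.2⟩

theorem us_nb {α : Type} {m : ℕ} {g : ZMod m → α} (hg : Injective g) {u v : α} (h : Us g u v)
    {i : ZMod m} (hi : g i = u) : v = g (i + 1) ∨ v = g (i - 1) := by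
  obtain ⟨j, h | h⟩ := h
  · left
    rw [hg (hi.trans h.1.symm), h.2]
  · right
    rw [hg (hi.trans h.2.symm), add_sub_cancel_right, h.1]

theorem us_stp {n : ℕ} {N : Type} {At : ZMod n → N → Prop} {m : ℕ}
    {g : ZMod m → ZMod n ⊕ N} (h : ∀ i, Stp At (g i) (g (i + 1))) {u v : ZMod n ⊕ N}
    (hu : Us g u v) : Stp At u v := by
  obtain ⟨i, ⟨rfl, rfl⟩ | ⟨rfl, rfl⟩⟩ := hu
  · exact h i
  · exact stp_symm (h i)

/-- a neighbour of a cycle vertex is a hub or one of its two neighbours on the cycle -/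
theorem stp_inl {n : ℕ} {N : Type} {At : ZMod n → N → Prop} {x : ZMod n} {v : ZMod n ⊕ N}
    (h : Stp At (.inl x) v) : (∃ p, v = .inr p) ∨ v = .inl (x + 1) ∨ v = .inl (x - 1) := by
  rcases v with y | p
  · rcases h with h | h
    · exact Or.inr (Or.inl (by rw [h]))
    · exact Or.inr (Or.inr (by rw [h, add_sub_cancel_right]))
  · exact Or.inl ⟨p, rfl⟩

theorem stp_inr {n : ℕ} {N : Type} {At : ZMod n → N → Prop} {p : N} {v : ZMod n ⊕ N}
    (h : Stp At (.inr p) v) : ∃ x, v = .inl x ∧ At x p := by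
  rcases v with y | q
  · exact ⟨y, rfl, h⟩
  · exact h.elim

/-- the end `e` of the block of `z` on the side of `q` -/
def End {V : Type} (G : SimpleGraph V) {n : ℕ} (f : ZMod n → V) {N : Type}
    (z q : ZMod n ⊕ N) (e : V) : Prop :=
  (∃ x, z = .inl x ∧ e = f x) ∨ ∃ p y, z = .inr p ∧ q = .inl y ∧ G.Adj (f y) e

theorem end_link {V : Type} {G : SimpleGraph V} {n : ℕ} {f : ZMod n → V} (hL : Long G n f)
    {N : Type} {At : ZMod n → N → Prop} {z q : ZMod n ⊕ N} (h : Stp At z q) {a b : V}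
    (ha : End G f z q a) (hb : End G f q z b) : G.Adj a b := by
  rcases ha with ⟨x, rfl, rfl⟩ | ⟨p, y, rfl, rfl, ha⟩
  · rcases hb with ⟨y, rfl, rfl⟩ | ⟨p, y, rfl, e, hb⟩
    · rcases h with rfl | rfl
      · exact hL.adj x
      · exact (hL.adj y).symm
    · cases e
      exact hb
  · rcases hb with ⟨x, e, rfl⟩ | ⟨p, y, e, -, -⟩
    · cases e
      exact ha.symm
    · cases e

end LiftAux

open LiftAux

theorem t_lift : T_Lift := by
  intro V G n f hL N At lg Tr hout hdis hpath m _ hm g ginj gadj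
  have key : ∀ i, ∃ l : List V, l ≠ [] ∧ l.Nodup ∧ l.IsChain G.Adj ∧
      (∀ v ∈ l, (∃ x, g i = .inl x ∧ v = f x) ∨ ∃ p, g i = .inr p ∧ Tr p v) ∧
      (∀ a ∈ l.head?, End G f (g i) (g (i - 1)) a) ∧
      (∀ b ∈ l.getLast?, End G f (g i) (g (i + 1)) b) ∧ wt lg (g i) ≤ l.length := by
    intro i
    have h1 := gadj i
    have h2 := stp_pred gadj i
    have hne : g (i + 1) ≠ g (i - 1) := fun e => two_ne hm i (ginj e)
    rcases hi : g i with x | p
    · refine ⟨[f x], by simp, by simp, by simp, ?_, ?_, ?_, le_rfl⟩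
      · intro v hv
        exact Or.inl ⟨x, rfl, by simpa using hv⟩
      · intro a ha
        exact Or.inl ⟨x, rfl, by simpa [eq_comm] using ha⟩
      · intro a ha
        exact Or.inl ⟨x, rfl, by simpa [eq_comm] using ha⟩
    · rw [hi] at h1 h2
      obtain ⟨y, ey, hy⟩ := stp_inr h1
      obtain ⟨x, ex, hx⟩ := stp_inr h2
      obtain ⟨l, l1, l2, l3, l4, l5, l6, l7⟩ := hpath p x y hx hy
        (fun e => hne (by rw [ex, ey, e]))
      refine ⟨l, l1, l2, l3, fun v hv => Or.inr ⟨p, rfl, l4 v hv⟩,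
        fun a ha => Or.inr ⟨p, x, rfl, ex, l5 a ha⟩,
        fun b hb => Or.inr ⟨p, y, rfl, ey, l6 b hb⟩, ?_⟩
      show (if lg p then 14 else 1) ≤ l.length
      split_ifs with h
      · exact l7 h
      · exact List.length_pos_of_ne_nil l1
  choose W w1 w2 w3 w4 w5 w6 w7 using key
  refine (sum_le_sum fun i _ => w7 i).trans (hL.lift m hm W w1 w2 w3 ?_ ?_)
  · intro i j hij v hi hj
    apply hij
    apply ginj
    rcases w4 i v hi with ⟨x, ex, e⟩ | ⟨p, ep, hp⟩ <;>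
      rcases w4 j v hj with ⟨y, ey, e'⟩ | ⟨q, eq', hq⟩
    · rw [ex, ey, hL.inj (e.symm.trans e')]
    · exact absurd ⟨x, e.symm⟩ (hout q v hq)
    · exact absurd ⟨y, e'.symm⟩ (hout p v hp)
    · rw [ep, eq', hdis p q v hp hq]
  · intro i a ha b hb
    have := w5 (i + 1) b hb
    rw [add_sub_cancel_right] at this
    exact end_link hL (gadj i) (w6 i a ha) this

theorem t_nocl : T_NoCl := by
  intro V G n f hL M h ρ hM hs
  have := hL.neZero
  have hgr : ∀ x, M (x + 1) ∨ M (x - 1) → ¬ M x := by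
    rintro x (hx | hx) h0
    · exact hM x h0 hx
    · exact hM _ hx (by rwa [sub_add_cancel])
  let D : Dat2 G f PUnit :=
    { A := M
      W := fun _ => False
      gr := fun s => M (s + 1) ∨ M (s - 1)
      hs := h
      ρ := ρ
      T := fun _ _ => False
      J := fun _ _ => False
      grA := hgr
      grAtt := fun x hx => (hs x hx).1
      rootA := fun x hx => (hs x hx).2.2
      rootAtt := fun x hx => (hs x hx).2.1
      Tout := fun _ _ h => h.elim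
      Tdis := fun _ _ _ h => h.elim
      JLink := fun _ _ _ h => h.elim
      Tsep := fun _ _ _ h => h.elim
      Wgr := fun _ h => h.elim
      Wroot := fun _ _ h => h.elim
      run := fun M' h1 a ha h2 => absurd (h1 a ha) (hgr a h2) }
  have hcl : D.Closed (· ∈ univ.filter M) := by
    intro a ha
    have ha' : M a := (mem_filter.1 ha).2
    refine ⟨ha', fun x hx => ?_⟩
    have hx' : M (x + 1) ∨ M (x - 1) := by
      rcases hx with rfl | rfl
      · right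
        rwa [add_sub_cancel_right]
      · left
        rwa [sub_add_cancel]
    exact ⟨hx', mem_filter.2 ⟨mem_univ _, (hs x hx').2.2⟩⟩
  have he := D.no_closed hL _ (univ.filter M) rfl hcl
  intro a ha
  have : a ∈ univ.filter M := mem_filter.2 ⟨mem_univ _, ha⟩
  rw [he] at this
  exact absurd this (notMem_empty a)

theorem t_use : T_Use := by
  intro n _ N hn E m _ hm g ginj gadj M hM hM1 hcE
  have hne : ∀ i, g (i + 1) ≠ g (i - 1) := fun i e => two_ne hm i (ginj e)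
  have hvis : ∀ s, Nb M s → ∃ i, g i = .inl s := by
    intro s hs
    by_contra h0
    have h1 := (hM s).2 h0
    rcases hs with hs | hs
    · exact hM1 s h1 hs
    · exact hM1 _ hs (by rwa [sub_add_cancel])
  refine ⟨fun x p hu => ⟨?_, us_stp gadj hu⟩, fun s hs => ?_, fun s h1 h2 => ?_,
    fun x p hu => ?_, fun i p hi => ?_⟩
  · by_contra hnb
    obtain ⟨i, hi⟩ := us_vis hu
    have hx : ¬ M x := fun h => (hM x).1 h ⟨i, hi⟩
    have u1 : Us g (.inl x) (.inl (x + 1)) := by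
      by_contra h
      exact (hcE x h).elim hx (fun h => hnb (Or.inl h))
    have u2 : Us g (.inl x) (.inl (x - 1)) := by
      by_contra h
      have := hcE (x - 1) (by rw [sub_add_cancel]; exact fun h' => h (us_symm h'))
      rw [sub_add_cancel] at this
      exact this.elim (fun h => hnb (Or.inr h)) hx
    have hx2 : (Sum.inl (x + 1) : ZMod n ⊕ N) ≠ .inl (x - 1) :=
      fun e => two_ne hn x (Sum.inl.inj e)
    rcases us_nb ginj hu hi with a | a <;> rcases us_nb ginj u1 hi with b | b <;>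
      rcases us_nb ginj u2 hi with c | c <;>
      first
        | exact hx2 (b.trans c.symm)
        | exact Sum.inl_ne_inr (b.trans a.symm)
        | exact Sum.inl_ne_inr (c.trans a.symm)
  · obtain ⟨i, hi⟩ := hvis s hs
    have s1 := gadj i
    have s2 := stp_pred gadj i
    have u1 := us_succ g i
    have u2 := us_pred g i
    rw [hi] at s1 s2 u1 u2
    rcases stp_inl s1 with ⟨p, a⟩ | a | a
    · exact ⟨p, a ▸ u1⟩
    · rcases stp_inl s2 with ⟨p, b⟩ | b | b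
      · exact ⟨p, b ▸ u2⟩
      · exact absurd (a.trans b.symm) (hne i)
      · exact (hs.elim (fun h => (hM _).1 h ⟨_, a⟩) (fun h => (hM _).1 h ⟨_, b⟩)).elim
    · rcases stp_inl s2 with ⟨p, b⟩ | b | b
      · exact ⟨p, b ▸ u2⟩
      · exact (hs.elim (fun h => (hM _).1 h ⟨_, b⟩) (fun h => (hM _).1 h ⟨_, a⟩)).elim
      · exact absurd (a.trans b.symm) (hne i)
  · obtain ⟨i, hi⟩ := hvis s (Or.inl h1)
    have s1 := gadj i
    have s2 := stp_pred gadj i
    have u1 := us_succ g i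
    have u2 := us_pred g i
    rw [hi] at s1 s2 u1 u2
    rcases stp_inl s1 with ⟨p, a⟩ | a | a
    · rcases stp_inl s2 with ⟨q, b⟩ | b | b
      · exact ⟨p, q, fun e => hne i (by rw [a, b, e]), a ▸ u1, b ▸ u2⟩
      · exact absurd ⟨_, b⟩ ((hM _).1 h1)
      · exact absurd ⟨_, b⟩ ((hM _).1 h2)
    · exact absurd ⟨_, a⟩ ((hM _).1 h1)
    · exact absurd ⟨_, a⟩ ((hM _).1 h2)
  · obtain ⟨i, hi⟩ := us_vis (us_symm hu)
    have s1 := gadj i
    have s2 := stp_pred gadj i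
    have u1 := us_succ g i
    have u2 := us_pred g i
    rw [hi] at s1 s2 u1 u2
    obtain ⟨y, a, -⟩ := stp_inr s1
    obtain ⟨z, b, -⟩ := stp_inr s2
    by_cases e : y = x
    · exact ⟨z, fun e' => hne i (by rw [a, b, e, e']), us_symm (b ▸ u2)⟩
    · exact ⟨y, e, us_symm (a ▸ u1)⟩
  · have s1 := gadj i
    have u1 := us_succ g i
    rw [hi] at s1 u1
    obtain ⟨y, a, -⟩ := stp_inr s1
    exact ⟨y, us_symm (a ▸ u1)⟩

end Pool.Agent.MP_ee574f_co.CD

end
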