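import Pool.Agent.Mg.Fee574fa.G942e3d

section

set_option autoImplicit false

namespace Pool.Agent.MP_ee574f_co.CD

open SimpleGraph Classical Finset Function

namespace FrameAux

variable {n : ℕ} [NeZero n] {N : Type} [Fintype N] {At : ZMod n → N → Prop} {lg H0 : N → Prop}
  {m k : ℕ} (D : Model n N At lg H0 m k)

def Anc (_D : Model n N At lg H0 m k) (x : ZMod n) : Prop := ∃ p, H0 p ∧ At x p

def Wt (x : ZMod n) : Prop := ¬ Anc D x ∧ ¬ D.Bt x

def Mag (y : ZMod n) : Prop := m * k ≤ (univ.filter (fun x => D.Bt x ∧ y ∈ D.Y x)).card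

def Cls : N ⊕ ZMod n → Prop
  | .inl p => H0 p
  | .inr y => Mag D y

def Ty (j : Fin 3) (s : ZMod n) : Prop :=
  (j = 0 ∧ Nb (Wt D) s) ∨ (j = 1 ∧ Sg (Wt D) s ∧ Sg (Mag D) s) ∨
    (j = 2 ∧ Sg (Wt D) s ∧ Nb (Mag D) s)

theorem major (X : Finset (ZMod n)) (q : ℕ) (hX : 3 * q ≤ X.card) :
    ∃ j, q ≤ (X.filter (Ty D j)).card := by
  by_contra h
  push Not at h
  have hs : X ⊆ X.filter (Ty D 0) ∪ (X.filter (Ty D 1) ∪ X.filter (Ty D 2)) := by
    intro s hs
    simp only [mem_union, mem_filter, hs, true_and, Ty, Sg, Nb]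
    simp
    tauto
  have h1 := (card_le_card hs).trans (card_union_le _ _)
  have h2 := card_union_le (X.filter (Ty D 1)) (X.filter (Ty D 2))
  have := h 0
  have := h 1
  have := h 2
  omega

theorem pre (hH : T_Hall) (hS : T_Sparse) {L z : ℕ} (hn : 10 ≤ n) (hL : 7 ≤ L) (hz : z = 429 * L)
    (hm : m = 3 * (z * z)) (hk : k = z * z + z) (hov : m * k + 1 ≤ 2 ^ L) :
    ∃ (I : ZMod n → Prop) (ty : N ⊕ ZMod n → Fin 3) (mem : N ⊕ ZMod n → Finset (ZMod n)),
      (∀ i, I i → ¬ I (i + 1) ∧ ¬ I (i + 2)) ∧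
      (∀ c, Cls D c → z ≤ (mem c).card) ∧
      (∀ c, Cls D c → ∀ s ∈ mem c, I s ∧ Ty D (ty c) s ∧ ¬ Wt D s) ∧
      (∀ p, H0 p → ∀ s ∈ mem (.inl p), At s p) ∧
      (∀ y, Mag D y → ∀ s ∈ mem (.inr y), D.Bt s ∧ y ∈ D.Y s) ∧
      (∀ c c', Cls D c → Cls D c' → ∀ s ∈ mem c, s ∈ mem c' → c = c') ∧
      ∀ x, D.Bt x → z ≤ ((D.Y x).filter (fun u => I u ∧ ¬ Mag D u)).card ∨
        z ≤ ((D.Y x).filter (Mag D)).card := by
  have hz0 : 0 < z := by omega
  obtain ⟨Xh, x1, x2, x3⟩ := hH (ZMod n) (ZMod n) (fun y x => D.Bt x ∧ y ∈ D.Y x) (Mag D) m k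
    (by rw [hk]; omega) (fun a h => by unfold Mag at h; convert h) (fun x => by
      by_cases hx : D.Bt x
      · exact (card_le_card fun y hy => by simp only [mem_filter] at hy; exact hy.2.2).trans
          (D.Y_card x hx).le
      · exact (card_le_card (t := ∅) fun y hy => by
          simp only [mem_filter] at hy; exact absurd hy.2.1 hx).trans (by simp))
  let X : N ⊕ ZMod n → Finset (ZMod n) := Sum.elim D.S Xh
  have X1 : ∀ c, Cls D c → 3 * (z * z) ≤ (X c).card := by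
    rintro (p | y) h
    · exact hm ▸ D.S_card p h
    · exact hm ▸ x1 y h
  have X2 : ∀ c c', Cls D c → Cls D c' → ∀ s ∈ X c, s ∈ X c' → c = c' := by
    rintro (p | y) (q | y') h h' s hs hs'
    · rw [D.S_dis p q h h' s hs hs']
    · exact absurd (D.S_at p h s hs) (D.bt_anc s (x2 _ _ hs').1 p h)
    · exact absurd (D.S_at q h' s hs') (D.bt_anc s (x2 _ _ hs).1 q h')
    · rw [x3 _ _ s hs hs']
  have X3 : ∀ c, Cls D c → ∀ s ∈ X c, ¬ Wt D s := by
    rintro (p | y) h s hs w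
    · exact w.1 ⟨p, h, D.S_at p h s hs⟩
    · exact w.2 (x2 _ _ hs).1
  have : ∀ c, ∃ j, Cls D c → z * z ≤ ((X c).filter (Ty D j)).card := by
    intro c
    by_cases h : Cls D c
    · obtain ⟨j, hj⟩ := major D (X c) _ (X1 c h); exact ⟨j, fun _ => hj⟩
    · exact ⟨0, fun h' => absurd h' h⟩
  choose ty hty using this
  let η := {c // Cls D c} ⊕
    {x // D.Bt x ∧ z * z ≤ ((D.Y x).filter (fun u => ¬ Mag D u)).card}
  let T : η → Finset (ZMod n) := Sum.elim (fun c => (X c.1).filter (Ty D (ty c.1)))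
    (fun x => (D.Y x.1).filter (fun u => ¬ Mag D u))
  obtain ⟨I, i1, i2⟩ := hS n (by omega) η T L z hL
    (by
      rw [← hz]
      rintro (c | x)
      · exact hty c.1 c.2
      · exact x.2.2)
    (by
      intro s
      refine le_trans ?_ hov
      have e : (univ.filter (fun h : η => s ∈ T h)).card =
          (univ.filter (fun c => s ∈ T (.inl c))).card +
            (univ.filter (fun x => s ∈ T (.inr x))).card := by
        simp only [card_filter, η, Fintype.sum_sum_type]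
      have a1 : (univ.filter (fun c => s ∈ T (.inl c))).card ≤ 1 := by
        refine card_le_one.2 fun c hc c' hc' => Subtype.ext ?_
        exact X2 _ _ c.2 c'.2 s (mem_filter.1 (mem_filter.1 hc).2).1
          (mem_filter.1 (mem_filter.1 hc').2).1
      have a2 : (univ.filter (fun x => s ∈ T (.inr x))).card ≤ m * k := by
        by_cases h : Mag D s
        · refine (card_le_card (t := ∅) fun y hy => ?_).trans (by simp)
          have h1 : s ∈ (D.Y y.1).filter (fun u => ¬ Mag D u) := (mem_filter.1 hy).2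
          exact absurd h (mem_filter.1 h1).2
        · refine le_trans ?_ (not_le.1 h).le
          refine card_le_card_of_injOn Subtype.val (fun x hx => ?_) Subtype.val_injective.injOn
          exact mem_coe.2 (mem_filter.2 ⟨mem_univ _, x.2.1,
            (mem_filter.1 (mem_filter.1 (mem_coe.1 hx)).2).1⟩)
      have e' : (univ.filter (fun h : η => s ∈ T h)).card ≤ m * k + 1 := by omega
      convert e')
  refine ⟨I, ty, fun c => ((X c).filter (Ty D (ty c))).filter I, i1, fun c h => ?_,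
    fun c h s hs => ?_, fun p h s hs => ?_, fun y h s hs => ?_, fun c c' h h' s hs hs' => ?_,
    fun x hx => ?_⟩
  · exact i2 (.inl ⟨c, h⟩)
  · have a := mem_filter.1 hs
    have b := mem_filter.1 a.1
    exact ⟨a.2, b.2, X3 c h s b.1⟩
  · exact D.S_at p h s (mem_filter.1 (mem_filter.1 hs).1).1
  · exact x2 y s (mem_filter.1 (mem_filter.1 hs).1).1
  · exact X2 c c' h h' s (mem_filter.1 (mem_filter.1 hs).1).1 (mem_filter.1 (mem_filter.1 hs').1).1
  · by_cases h : z * z ≤ ((D.Y x).filter (fun u => ¬ Mag D u)).card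
    · left
      refine (i2 (.inr ⟨x, hx, h⟩)).trans (card_le_card fun u hu => ?_)
      have a := mem_filter.1 hu
      have b := mem_filter.1 a.1
      exact mem_filter.2 ⟨b.1, a.2, b.2⟩
    · right
      have h1 := card_filter_add_card_filter_not (s := D.Y x) (Mag D)
      have h2 := D.Y_card x hx
      omega

end FrameAux

end Pool.Agent.MP_ee574f_co.CD

end

section

set_option autoImplicit false

namespace Pool.Agent.MP_ee574f_co.CD

open SimpleGraph Classical Finset Function FrameAux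

theorem t_frame (hH : T_Hall) (hS : T_Sparse) (hW : T_WS) (hLv : T_Level) (h2 : T_Stage2) :
    T_Frame := by
  intro n _ N _ At lg H0 L z hn hL hz hov D
  obtain ⟨I, ty, mem, i1, m1, m2, m3, m4, m5, n1⟩ := pre D hH hS hn hL hz rfl rfl (by omega)
  have hz2 : 2 ≤ z := by omega
  have : ∀ c, ∃ d : Bool → ZMod n, Cls D c → (∀ b, d b ∈ mem c) ∧ d false ≠ d true := by
    intro c
    by_cases h : Cls D c
    · obtain ⟨a, ha, b, hb, hab⟩ := one_lt_card.1 (lt_of_lt_of_le (by omega) (m1 c h))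
      exact ⟨fun t => if t then b else a, fun _ => ⟨by rintro (_ | _) <;> simpa, by simpa⟩⟩
    · exact ⟨fun _ => 0, fun h' => absurd h' h⟩
  choose d hd using this
  have : ∀ x, ∃ p, Anc D x → H0 p ∧ At x p := by
    intro x
    by_cases h : Anc D x
    · obtain ⟨p, hp⟩ := h; exact ⟨p, fun _ => hp⟩
    · exact ⟨D.b x, fun h' => absurd h' h⟩
  choose h hh using this
  have hY : ∀ x, D.Bt x → ∀ u ∈ D.Y x, Anc D u := fun x hx u hu => (D.Y_sp x hx u hu).2
  have hmag : ∀ y, Mag D y → Anc D y := by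
    intro y hy
    have : 0 < 3 * (z * z) * (z * z + z) := by positivity
    obtain ⟨x, hx⟩ := card_pos.1 (lt_of_lt_of_le this hy)
    exact hY x (mem_filter.1 hx).2.1 y (mem_filter.1 hx).2.2
  let cls : ZMod n → N ⊕ ZMod n := fun s => if Mag D s then .inr s else .inl (h s)
  have hcls : ∀ s, Anc D s → Cls D (cls s) := by
    intro s hs
    by_cases hm : Mag D s
    · simp only [cls, if_pos hm]; exact hm
    · simp only [cls, if_neg hm]; exact (hh s hs).1
  let St0 : ZMod n → ZMod n → Prop := fun s s' => Anc D s ∧ ty (cls s) = 1 ∧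
    (s' = d (cls s) false + 1 ∨ s' = d (cls s) false - 1)
  let NM : ZMod n → Finset (ZMod n) := fun x => (D.Y x).filter (fun u => I u ∧ ¬ Mag D u)
  let off : Fin 3 → ZMod n := ![0, 2, -2]
  obtain ⟨l, T, l1, l2, l3⟩ := hLv (ZMod n) (ZMod n × Fin 3) (ZMod n) Prod.fst 3 z
    (fun v => by
      refine le_trans (card_le_card_of_injOn (t := (univ : Finset (Fin 3))) Prod.snd
        (fun _ _ => by simp) fun β hβ β' hβ' e => ?_) (by simp)
      simp only [coe_filter, mem_univ, true_and, Set.mem_ofPred_eq] at hβ hβ'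
      exact Prod.ext (hβ.trans hβ'.symm) e)
    (fun β x => Relation.ReflTransGen St0 (β.1 + off β.2) x ∧ D.Bt x ∧ ¬ z ≤ (NM x).card)
    (fun x => (D.Y x).filter (Mag D)) (fun β x hx => (n1 x hx.2.1).resolve_left hx.2.2)
  obtain ⟨κ, _, o, o1, o2, o3⟩ := hW n hn (Wt D) N (fun p x => lg p ∧ At x p) (fun x hx => by
    obtain ⟨p, y, a, b, c, e⟩ := D.w_sp x (fun p hp hp' => hx.1 ⟨p, hp, hp'⟩) hx.2
    exact ⟨p, y, b, ⟨a, c⟩, a, e⟩)
  let ι := κ ⊕ {c // Cls D c ∧ ty c = 2}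
  let e : ι → Bool → ZMod n := Sum.elim o (fun c => d c.1)
  let re : ι → Bool → Prop :=
    Sum.elim (fun q b => Wt D (o q b) ∧ Sg (Wt D) (o q b)) (fun _ _ => True)
  let η := {c // Cls D c} ⊕ ({x // D.Bt x ∧ z ≤ (NM x).card} ⊕ {β // z ≤ (T β).card})
  let TT : η → Finset (ZMod n) :=
    Sum.elim (fun c => mem c.1) (Sum.elim (fun x => NM x.1) (fun β => T β.1))
  obtain ⟨ω, hω⟩ := h2 n ι η e re L hL
    (by
      rintro (q | c) b (q' | c') b' r r' ee
      · rw [o1 q b q' b' ee]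
      · have ee' : o q b = d c'.1 b' := ee
        exact absurd (ee' ▸ r.1 : Wt D (d c'.1 b')) (m2 _ c'.2.1 _ ((hd _ c'.2.1).1 b')).2.2
      · have ee' : o q' b' = d c.1 b := Eq.symm ee
        exact absurd (ee' ▸ r'.1 : Wt D (d c.1 b)) (m2 _ c.2.1 _ ((hd _ c.2.1).1 b)).2.2
      · have ee' : d c.1 b = d c'.1 b' := ee
        rw [Subtype.ext (m5 _ _ c.2.1 c'.2.1 _ ((hd _ c.2.1).1 b) (ee' ▸ (hd _ c'.2.1).1 b'))])
    (by
      rintro (q | c) r r'
      · exact o2 q r.2 r'.2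
      · have a := (m2 _ c.2.1 _ ((hd _ c.2.1).1 false)).1
        have b := (m2 _ c.2.1 _ ((hd _ c.2.1).1 true)).1
        exact ⟨(hd _ c.2.1).2, fun ee => (i1 _ b).2 ((show d c.1 false = _ from ee) ▸ a),
          fun ee => (i1 _ a).2 ((show d c.1 true = _ from ee) ▸ b)⟩)
    TT
    (by
      rw [← hz]
      rintro (c | x | β)
      · exact m1 c.1 c.2
      · exact x.2.2
      · exact β.2)
    (by
      intro s
      refine le_trans ?_ hov
      have ee : (univ.filter (fun h : η => s ∈ TT h)).card =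
          (univ.filter (fun c => s ∈ TT (.inl c))).card +
            ((univ.filter (fun x => s ∈ TT (.inr (.inl x)))).card +
              (univ.filter (fun x => s ∈ TT (.inr (.inr x)))).card) := by
        simp only [card_filter, η, Fintype.sum_sum_type]
      have a1 : (univ.filter (fun c => s ∈ TT (.inl c))).card ≤ 1 :=
        card_le_one.2 fun c hc c' hc' => Subtype.ext
          (m5 _ _ c.2 c'.2 s (mem_filter.1 hc).2 (mem_filter.1 hc').2)
      have a2 : (univ.filter (fun x => s ∈ TT (.inr (.inl x)))).card ≤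
          3 * (z * z) * (z * z + z) := by
        by_cases hm : Mag D s
        · refine (card_le_card (t := ∅) fun y hy => ?_).trans (by simp)
          have h1 : s ∈ NM y.1 := (mem_filter.1 hy).2
          exact absurd hm (mem_filter.1 h1).2.2
        · refine le_trans ?_ (not_le.1 hm).le
          refine card_le_card_of_injOn Subtype.val (fun x hx => ?_) Subtype.val_injective.injOn
          have h1 : s ∈ NM x.1 := (mem_filter.1 (mem_coe.1 hx)).2
          exact mem_coe.2 (mem_filter.2 ⟨mem_univ _, x.2.1, (mem_filter.1 h1).1⟩)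
      have a3 : (univ.filter (fun x => s ∈ TT (.inr (.inr x)))).card ≤ 3 * z + 1 := by
        refine le_trans ?_ (l2 s)
        refine card_le_card_of_injOn Subtype.val (fun x hx => ?_) Subtype.val_injective.injOn
        have h1 : s ∈ T x.1 := (mem_filter.1 (mem_coe.1 hx)).2
        simpa using h1
      have e' : (univ.filter (fun h : η => s ∈ TT h)).card ≤
        3 * (z * z) * (z * z + z) + 3 * z + 2 := by omega
      convert e')
  let Ch : ZMod n → Prop := fun a => ∃ i, re i (ω i) ∧ e i (ω i) = a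
  have hω' : ∀ t, ∃ s ∈ TT t, ¬ Nb Ch s := by
    intro t
    obtain ⟨s, hs, h1⟩ := hω t
    refine ⟨s, hs, ?_⟩
    rintro (⟨i, a, b⟩ | ⟨i, a, b⟩)
    · exact (h1 i a).1 b
    · exact (h1 i a).2 b
  have : ∀ c, ∃ r, Cls D c → r ∈ mem c ∧ (ty c = 0 → ¬ Nb Ch r) ∧ (ty c = 1 → r = d c false) ∧
      (ty c = 2 → Ch r) := by
    intro c
    by_cases hc : Cls D c
    swap; · exact ⟨0, fun h' => absurd h' hc⟩
    by_cases t1 : ty c = 1
    · exact ⟨d c false, fun _ => ⟨(hd c hc).1 _, by simp [t1], fun _ => rfl, by simp [t1]⟩⟩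
    by_cases t2 : ty c = 2
    · exact ⟨d c (ω (.inr ⟨c, hc, t2⟩)), fun _ => ⟨(hd c hc).1 _, by simp [t2], by simp [t2],
        fun _ => ⟨.inr ⟨c, hc, t2⟩, trivial, rfl⟩⟩⟩
    · obtain ⟨s, hs, h1⟩ := hω' (.inl ⟨c, hc⟩)
      exact ⟨s, fun _ => ⟨hs, fun _ => h1, fun a => absurd a t1, fun a => absurd a t2⟩⟩
  choose r hr using this
  have r1 : ∀ c, Cls D c → I (r c) ∧ Ty D (ty c) (r c) ∧ ¬ Wt D (r c) :=
    fun c hc => m2 c hc _ (hr c hc).1
  obtain ⟨Sel, s1, s2, ⟨J, j1, j2, j3⟩, s4⟩ := o3 fun q => ω (.inl q)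
  have s2' : ∀ a, Sel a → Sg (Wt D) a → Ch a := by
    intro a ha hs
    obtain ⟨q, ee⟩ := s2 a ha hs
    exact ⟨.inl q, ⟨ee ▸ s1 a ha, ee ▸ hs⟩, ee.symm⟩
  let B : ZMod n → Prop := fun s => ∃ c, Cls D c ∧ r c = s
  let Act : ZMod n → Prop := fun a => Ch a ∨ ∃ c, Cls D c ∧ ty c = 1 ∧ r c = a
  let Bad : ZMod n → Prop := fun x => ∀ v ∈ D.Y x, Nb Act v
  have t1 : ∀ c, Cls D c → (ty c = 1 ↔ Sg (Wt D) (r c) ∧ Sg (Mag D) (r c)) := by
    intro c hc
    rcases (r1 c hc).2.1 with ⟨a, b⟩ | ⟨a, b⟩ | ⟨a, b⟩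
    · simp only [a, Sg, Nb] at b ⊢; simp; tauto
    · simp [a, b]
    · simp only [a, Sg, Nb] at b ⊢; simp; tauto
  have hlt : ∀ x, D.Bt x → Bad x → ¬ z ≤ (NM x).card := by
    intro x hx hb hl
    obtain ⟨u, hu, h1⟩ := hω' (.inr (.inl ⟨x, hx, hl⟩))
    have hu' := mem_filter.1 (show u ∈ NM x from hu)
    rcases hb u hu'.1 with (a | ⟨c, hc, -, a⟩) | (a | ⟨c, hc, -, a⟩)
    · exact h1 (Or.inl a)
    · exact (i1 _ hu'.2.1).1 (a ▸ (r1 c hc).1)
    · exact h1 (Or.inr a)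
    · exact (i1 _ (r1 c hc).1).1 (by rw [a, sub_add_cancel]; exact hu'.2.1)
  have : ∀ x, ∃ u, D.Bt x → u ∈ D.Y x ∧ (Nb Act u → Bad x) ∧
      (Bad x → Mag D u ∧ ∀ v ∈ D.Y x, Mag D v → l v ≤ l u) := by
    intro x
    by_cases hx : D.Bt x
    swap; · exact ⟨0, fun h' => absurd h' hx⟩
    by_cases hb : Bad x
    · obtain ⟨u, hu, hmax⟩ := exists_max_image ((D.Y x).filter (Mag D)) l
        (card_pos.1 (lt_of_lt_of_le (by omega) ((n1 x hx).resolve_left (hlt x hx hb))))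
      exact ⟨u, fun _ => ⟨(mem_filter.1 hu).1, fun _ => hb, fun _ => ⟨(mem_filter.1 hu).2,
        fun v hv hm => hmax v (mem_filter.2 ⟨hv, hm⟩)⟩⟩⟩
    · obtain ⟨u, hu⟩ := not_forall.1 hb
      rw [Classical.not_imp] at hu
      exact ⟨u, fun _ => ⟨hu.1, fun a => absurd a hu.2, fun a => absurd a hb⟩⟩
  choose π hπ using this
  have hst : Step (Anc D) (Wt D) (Mag D)
      (fun s => if Mag D s then r (.inr s) else r (.inl (h s))) = St0 := by
    funext s s'
    have ee : (if Mag D s then r (.inr s) else r (.inl (h s))) = r (cls s) := by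
      simp only [cls]; split_ifs <;> rfl
    simp only [Step, St0, ee]
    refine propext (and_congr_right fun hs => ?_)
    have hc := hcls s hs
    rw [← and_assoc, ← t1 _ hc]
    exact and_congr_right fun a => by rw [(hr _ hc).2.2.1 a]
  refine ⟨{
    A := fun s => B s ∨ Sel s, W := Wt D, Mag := Mag D, Anc := Anc D, Bt := D.Bt, Bad := Bad
    Act := Act, b := D.b, h := h, ρ := fun p => r (.inl p), σ := fun y => r (.inr y), π := π
    lv := l, J := J
    cov := fun x => by unfold Wt; tauto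
    bt_anc := fun x hx ⟨p, a, b⟩ => D.bt_anc x hx p a b
    w_anc := fun x hx => hx
    mag_anc := hmag
    h_sp := hh
    ρ_sp := fun p hp => ⟨Or.inl ⟨.inl p, hp, rfl⟩, ⟨p, hp, m3 p hp _ (hr (.inl p) hp).1⟩,
      m3 p hp _ (hr (.inl p) hp).1⟩
    σ_sp := fun y hy => ⟨Or.inl ⟨.inr y, hy, rfl⟩, (m4 y hy _ (hr (.inr y) hy).1).1,
      (D.Y_sp _ (m4 y hy _ (hr (.inr y) hy).1).1 y (m4 y hy _ (hr (.inr y) hy).1).2).1⟩
    σ_inj := fun y y' a b ee => Sum.inr.inj (m5 (.inr y) (.inr y') a b _ (hr (.inr y) a).1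
      ((show r (.inr y) = r (.inr y') from ee) ▸ (hr (.inr y') b).1))
    b_sp := D.b_sp
    b_inj := D.b_inj
    h0_lg := D.h0_lg
    π_sp := fun x hx => ⟨hY x hx _ (hπ x hx).1, (D.Y_sp x hx _ (hπ x hx).1).1⟩
    π_fl := fun x hx a => ⟨(hπ x hx).2.1 a, ((hπ x hx).2.2 ((hπ x hx).2.1 a)).1⟩
    act := ?_
    lev := ?_
    run := s4 B ?_ ?_ ?_
    J_sp := j1
    J_ev := by convert j2
    J_odd := fun x a b => by convert j3 x a fun c => b (Or.inr c) }⟩
  · rintro a (⟨c, hc, rfl⟩ | ha) hs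
    · rcases (r1 c hc).2.1 with ⟨a, b⟩ | ⟨a, -⟩ | ⟨a, -⟩
      · exact (b.elim hs.1 hs.2).elim
      · exact Or.inr ⟨c, hc, a, rfl⟩
      · exact Or.inl ((hr c hc).2.2.2 a)
    · exact Or.inl (s2' a ha hs)
  · intro y s hy hs
    rw [hst]
    obtain ⟨j, rfl⟩ : ∃ j, s = y + off j := by
      rcases hs with rfl | rfl | rfl
      · exact ⟨0, by simp [off]⟩
      · exact ⟨1, by simp [off]⟩
      · exact ⟨2, by simp [off, sub_eq_add_neg]⟩
    rcases l3 (y, j) with a | a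
    · right
      obtain ⟨v, hv, h1⟩ := hω' (.inr (.inr ⟨(y, j), a⟩))
      obtain ⟨x, hx, hvx⟩ := l1 (y, j) v hv
      refine ⟨x, hx.1, hx.2.1, fun hb => ?_⟩
      have hm := (mem_filter.1 hvx).2
      rcases hb v (mem_filter.1 hvx).1 with (a | ⟨c, hc, b, a⟩) | (a | ⟨c, hc, b, a⟩)
      · exact h1 (Or.inl a)
      · exact ((t1 c hc).1 b).2.2 (by rwa [a, add_sub_cancel_right])
      · exact h1 (Or.inr a)
      · exact ((t1 c hc).1 b).2.1 (by rwa [a, sub_add_cancel])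
    · left
      intro x hx hb hbad
      obtain ⟨v, hv, h1⟩ := a x ⟨hx, hb, hlt x hb hbad⟩
      exact lt_of_lt_of_le h1
        (((hπ x hb).2.2 hbad).2 v (mem_filter.1 hv).1 (mem_filter.1 hv).2)
  · rintro s ⟨c, hc, rfl⟩
    exact (r1 c hc).2.2
  · rintro s ⟨c, hc, rfl⟩ ⟨c', hc', ee⟩
    exact (i1 _ (r1 c hc).1).1 (ee ▸ (r1 c' hc').1)
  · rintro s a ⟨c, hc, rfl⟩ ha hs
    have hch := s2' a ha hs
    have hw := s1 a ha
    rcases (r1 c hc).2.1 with ⟨a, -⟩ | ⟨-, b, -⟩ | ⟨-, b, -⟩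
    · exact ⟨fun ee => (hr c hc).2.1 a (Or.inr (ee ▸ hch)),
        fun ee => (hr c hc).2.1 a (Or.inl (ee ▸ hch))⟩
    · exact ⟨fun ee => b.2 (ee ▸ hw), fun ee => b.1 (ee ▸ hw)⟩
    · exact ⟨fun ee => b.2 (ee ▸ hw), fun ee => b.1 (ee ▸ hw)⟩

end Pool.Agent.MP_ee574f_co.CD

end

section

set_option autoImplicit false

namespace Pool.Agent.MP_ee574f_co.CD

open SimpleGraph Classical Finset Function

namespace Pieces2Aux

variable {V : Type} {G : SimpleGraph V} {n : ℕ} {f : ZMod n → V}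

/-- Invariant of the construction of the pieces. -/
structure Inv2 [Fintype V] (G : SimpleGraph V) (f : ZMod n → V) (W : ZMod n → Prop)
    (Rich : V → Prop) (ψ : ZMod n → V) (S : Finset (ZMod n)) (T : ZMod n → V → Prop)
    (Ad : ZMod n → ZMod n → Prop) (tl : ZMod n → List V) : Prop where
  i1 : ∀ p v, T p v → ∃ x, W x ∧ (v = ψ x ∨ v ∈ tl x)
  i2 : ∀ x, ∀ v ∈ tl x, Mem v ((Out G f).connectedComponentMk (ψ x))
  i3 : ∀ x r, r ∉ tl x → r ∉ Set.range f →
    (univ.filter (fun w => G.Adj r w ∧ w ∈ tl x)).card ≤ 18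
  i4 : ∀ x, ∀ v ∈ tl x, ∃ p, T p v
  dis : ∀ p p' v, T p v → T p' v → p = p'
  con : ∀ p u w, T p u → T p w → (Ins G (T p)).Reachable u w
  a0 : ∀ p v, T p v → Ad p p
  a1 : ∀ p x, Ad p x → ∃ v, T p v ∧ G.Adj (f x) v
  a2 : ∀ p x y, Ad p x → Ad p y → x ≠ y → Link G f (T p) x y
  d : ∀ x, W x → ((∃ p y, y ≠ x ∧ Ad p x ∧ Ad p y) ∨
    ((∀ y, Ad x y → y = x) ∧ ∃ r, T x r ∧ Rich r)) ∨
    (x ∉ S ∧ (∀ v, T x v ↔ v = ψ x) ∧ (∀ y, Ad x y → y = x) ∧ tl x = [] ∧ ∀ y, ψ x ∉ tl y)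

variable [Fintype V] [NeZero n]

theorem exists_psi2 (hL : Long G n f) (m : ℕ) (hm : 0 < m) (Fr U : ZMod n → Prop)
    (hU : ∀ x, Fr x → ¬ U x)
    (hA : ∀ x (K : Comp G f), Fr x → Att x K →
      (univ.filter (fun y => Att y K ∧ ¬ U y)).card < m)
    (hδ : ∀ v, m + 2 ≤ G.degree v) :
    ∃ ψ : {x // Fr x} → V, Function.Injective ψ ∧ ∀ x, ψ x ∈ outN G f x.1 := by
  refine (all_card_le_biUnion_card_iff_exists_injective
    (fun x : {x // Fr x} => outN G f x.1)).1 fun s => ?_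
  have := card_mul_le_card_mul (s := s) (t := s.biUnion fun x => outN G f x.1) (m := m) (n := m)
    (fun x v => v ∈ outN G f x.1) ?_ ?_
  · exact Nat.le_of_mul_le_mul_right this hm
  · intro x hx
    have h1 := outN_card hL x.1
    have h2 := hδ (f x.1)
    refine le_trans (by omega : m ≤ (outN G f x.1).card) (card_le_card fun v hv => ?_)
    exact (mem_bipartiteAbove _).2 ⟨mem_biUnion.2 ⟨x, hx, hv⟩, hv⟩
  · intro v hv
    obtain ⟨x, -, hxv⟩ := mem_biUnion.1 hv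
    obtain ⟨-, a, b⟩ := mem_filter.1 hxv
    have hnl := hA x.1 ((Out G f).connectedComponentMk v) x.2 ⟨v, mem_mk b, a⟩
    refine le_trans ?_ hnl.le
    refine card_le_card_of_injOn Subtype.val ?_ Subtype.val_injective.injOn
    intro y hy
    obtain ⟨-, hy⟩ := (mem_bipartiteBelow _).1 (mem_coe.1 hy)
    obtain ⟨-, a', b'⟩ := mem_filter.1 hy
    exact mem_coe.2 (mem_filter.2 ⟨mem_univ _, ⟨v, mem_mk b', a'⟩, hU _ y.2⟩)

theorem Inv2.deg {Fr U : ZMod n → Prop} {Rich : V → Prop} {ψ : ZMod n → V}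
    {S : Finset (ZMod n)} {T : ZMod n → V → Prop}
    {Ad : ZMod n → ZMod n → Prop} {tl : ZMod n → List V}
    (h : Inv2 G f Fr Rich ψ S T Ad tl) (hU : ∀ x, Fr x → ¬ U x)
    (hψ : ∀ x, Fr x → G.Adj (f x) (ψ x) ∧ ψ x ∉ Set.range f)
    (K : Comp G f) (x0 : ZMod n) (r : V) (hr : Mem r K) (hr' : ∀ y, r ∉ tl y) :
    G.degree r ≤ (univ.filter (fun w => G.Adj r w ∧ (Mem w K ∧ ∀ p, T p w → p = x0))).card +
      (univ.filter (fun u => U u ∧ G.Adj (f u) r)).card +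
      20 * (univ.filter (fun y => Att y K ∧ ¬ U y)).card := by
  have hsub : G.neighborFinset r ⊆
      (univ.filter (fun w => G.Adj r w ∧ (Mem w K ∧ ∀ p, T p w → p = x0)) ∪
        (univ.filter (fun u => U u ∧ G.Adj (f u) r)).image f) ∪
        (univ.filter (fun y => Att y K ∧ ¬ U y)).biUnion
          (fun x => {f x, ψ x} ∪ univ.filter (fun w => G.Adj r w ∧ w ∈ tl x)) := by
    intro w hw
    rw [mem_neighborFinset] at hw
    by_cases hf : w ∈ Set.range f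
    · obtain ⟨y, rfl⟩ := hf
      by_cases hy : U y
      · exact mem_union_left _ (mem_union_right _
          (mem_image_of_mem _ (mem_filter.2 ⟨mem_univ _, hy, hw.symm⟩)))
      · exact mem_union_right _ (mem_biUnion.2 ⟨y,
          mem_filter.2 ⟨mem_univ _, ⟨r, hr, hw.symm⟩, hy⟩, by simp⟩)
    have hwK := hr.step hw hf
    by_cases hp : ∀ p, T p w → p = x0
    · exact mem_union_left _ (mem_union_left _ (mem_filter.2 ⟨mem_univ _, hw, hwK, hp⟩))
    obtain ⟨p, hp⟩ : ∃ p, T p w := by by_contra hno; exact hp fun p e => absurd ⟨p, e⟩ hno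
    obtain ⟨x, hx, e | e⟩ := h.i1 p w hp
    · exact mem_union_right _ (mem_biUnion.2 ⟨x, mem_filter.2 ⟨mem_univ _, ⟨w, hwK,
        e ▸ (hψ x hx).1⟩, hU x hx⟩, by simp [e]⟩)
    · have := (h.i2 x w e).unique hwK
      exact mem_union_right _ (mem_biUnion.2 ⟨x, mem_filter.2 ⟨mem_univ _, ⟨ψ x,
        this ▸ mem_mk (hψ x hx).2, (hψ x hx).1⟩, hU x hx⟩,
        mem_union_right _ (mem_filter.2 ⟨mem_univ _, hw, e⟩)⟩)
  have h1 := (card_le_card hsub).trans ((card_union_le _ _).trans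
    (Nat.add_le_add_right ((card_union_le _ _).trans
      (Nat.add_le_add_left card_image_le _)) _))
  have h2 := card_biUnion_le_card_mul (univ.filter (fun y => Att y K ∧ ¬ U y))
    (fun x => {f x, ψ x} ∪ univ.filter (fun w => G.Adj r w ∧ w ∈ tl x)) 20 fun x _ => by
      have a := h.i3 x r (hr' x) hr.2
      have b : ({f x, ψ x} : Finset V).card ≤ 2 := card_le_two
      exact (card_union_le _ _).trans (by omega)
  rw [card_neighborFinset_eq_degree] at h1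
  omega

theorem Inv2.step (hT : T_Tail2) (hL : Long G n f) {m k : ℕ} {Fr U : ZMod n → Prop}
    (hU : ∀ x, Fr x → ¬ U x)
    (hA : ∀ x (K : Comp G f), Fr x → Att x K →
      (univ.filter (fun y => Att y K ∧ ¬ U y)).card < m)
    (hconn : ∀ s : V, (G.induce ({s}ᶜ : Set V)).Connected)
    (hδ : ∀ v, k + 20 * m + 196 ≤ G.degree v) {ψ : ZMod n → V}
    (hψ : ∀ x, Fr x → G.Adj (f x) (ψ x) ∧ ψ x ∉ Set.range f)
    {Rich : V → Prop}
    (hR : ∀ r, ¬ Rich r → (univ.filter (fun u => U u ∧ G.Adj (f u) r)).card < k)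
    {S : Finset (ZMod n)} {T : ZMod n → V → Prop}
    {Ad : ZMod n → ZMod n → Prop} {tl : ZMod n → List V}
    (h : Inv2 G f Fr Rich ψ S T Ad tl) (x0 : ZMod n) :
    ∃ T' Ad' tl', Inv2 G f Fr Rich ψ (insert x0 S) T' Ad' tl' := by
  by_cases h0 : Fr x0 → ((∃ p y, y ≠ x0 ∧ Ad p x0 ∧ Ad p y) ∨
    ((∀ y, Ad x0 y → y = x0) ∧ ∃ r, T x0 r ∧ Rich r))
  · refine ⟨T, Ad, tl, { h with d := fun x hx => ?_ }⟩
    by_cases e : x = x0
    · subst e; exact Or.inl (h0 hx)
    · exact (h.d x hx).imp id fun u => ⟨by simp [e, u.1], u.2⟩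
  rw [Classical.not_imp] at h0
  obtain ⟨hW, hnh⟩ := h0
  obtain ⟨-, l1, l2, l3, l4⟩ := (h.d x0 hW).resolve_left hnh
  set K := (Out G f).connectedComponentMk (ψ x0) with hK
  have hm0 : Mem (ψ x0) K := mem_mk (hψ x0 hW).2
  have hKk := hA x0 K hW ⟨_, hm0, (hψ x0 hW).1⟩
  obtain ⟨t, t1, t2, t3, ⟨a, ha, haa⟩, tfew, halt⟩ :=
    hT V G hconn 14 (fun w => Mem w K ∧ ∀ p, T p w → p = x0) Rich (f x0) (ψ x0) (f (x0 + 1))
      (fun e => e.1.2 ⟨_, rfl⟩) ⟨hm0, fun p e => h.dis _ _ _ e ((l1 _).2 rfl)⟩ (hψ x0 hW).1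
      (fun e => e.1.2 ⟨_, rfl⟩)
      (fun e => hL.one_ne (by linear_combination hL.inj e))
      (fun r hr hr2 => by
        have h1 := h.deg hU hψ K x0 r hr.1 fun y hy => by
          obtain ⟨p, hp⟩ := h.i4 y r hy
          rw [hr.2 p hp, l1] at hp
          exact l4 y (hp ▸ hy)
        have h2 := hδ r
        have h4 := hR r hr2
        have h3 : 14 * 14 ≤ (univ.filter
          (fun w => G.Adj r w ∧ (Mem w K ∧ ∀ p, T p w → p = x0))).card := by omega
        convert h3)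
  have hat : a ∈ t := List.mem_of_mem_head? ha
  have hne' : t ≠ [] := List.ne_nil_of_mem hat
  obtain ⟨b, hb, p0, u, hp0⟩ : ∃ b ∈ t.getLast?, ∃ p0 u,
      (p0 = x0 ∧ ((u ≠ x0 ∧ G.Adj (f u) b ∧ 14 ≤ t.length) ∨ (u = x0 ∧ ∃ r ∈ t, Rich r))) ∨
        (p0 ≠ x0 ∧ 14 ≤ t.length ∧ ∃ z, T p0 z ∧ G.Adj b z) := by
    rcases halt with ⟨t14, b, hb, z, hbz, hz, hz0⟩ | hrich
    · refine ⟨b, hb, ?_⟩
      by_cases hf : z ∈ Set.range f
      · obtain ⟨u, rfl⟩ := hf
        exact ⟨x0, u, Or.inl ⟨rfl, Or.inl ⟨fun e => hz0 (by rw [e]), hbz.symm, t14⟩⟩⟩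
      · by_contra hno
        refine hz ⟨(t3 b (List.mem_of_mem_getLast? hb)).1.step hbz hf, fun p hp => ?_⟩
        by_contra e
        exact hno ⟨p, 0, Or.inr ⟨e, t14, z, hp, hbz⟩⟩
    · exact ⟨t.getLast hne', by rw [List.getLast?_eq_some_getLast hne']; rfl, x0, x0,
        Or.inl ⟨rfl, Or.inr ⟨rfl, hrich⟩⟩⟩
  have hbt : b ∈ t := List.mem_of_mem_getLast? hb
  let T' : ZMod n → V → Prop := fun p v => (p ≠ x0 ∧ T p v) ∨ (p = p0 ∧ v ∈ t)
  let Ad' : ZMod n → ZMod n → Prop := fun p y =>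
    (p ≠ x0 ∧ Ad p y) ∨ (p = p0 ∧ (y = x0 ∨ (p0 = x0 ∧ y = u)))
  have htb : ∀ v ∈ t, (Ins G (T' p0)).Reachable v b :=
    ins_chain t t2 (fun v hv => Or.inr ⟨rfl, hv⟩) hb
  have hold : ∀ p, p ≠ x0 → ∀ v, T p v → T' p v := fun p e v hv => Or.inl ⟨e, hv⟩
  have hzb : ∀ v, p0 ≠ x0 → T p0 v → (Ins G (T' p0)).Reachable v b := by
    intro v e hv
    obtain ⟨-, -, z, hz', hbz⟩ := hp0.resolve_left fun e' => e e'.1
    exact (ins_mono (hold p0 e) (h.con _ _ _ hv hz')).trans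
      (Adj.reachable (G := Ins G (T' p0)) ⟨hbz.symm, hold p0 e _ hz', Or.inr ⟨rfl, hbt⟩⟩)
  have hlk : ∀ y, y ≠ x0 → Ad' p0 y → Link G f (T' p0) x0 y := by
    rintro y hy (⟨e, hy'⟩ | ⟨-, e | ⟨e, rfl⟩⟩)
    · obtain ⟨-, t14, z, hz', hbz⟩ := hp0.resolve_left fun e' => e e'.1
      obtain ⟨v, hv, hyv⟩ := h.a1 _ _ hy'
      obtain ⟨l, n1, n2, n3, n4, n5⟩ := ins_path hz' (h.con _ _ _ hz' hv)
      have hne : l ≠ [] := by rintro rfl; simp at n4
      refine ⟨t ++ l, List.nodup_append.2 ⟨t1, n1, ?_⟩, t2.append n2 ?_, ?_, ?_, ?_, ?_⟩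
      · rintro c hc _ hc' rfl
        exact e ((t3 c hc).2 _ (n3 c hc'))
      · intro c hc d hd
        rw [n4] at hd; cases hd
        rw [Option.mem_def.1 hb] at hc; cases hc
        exact hbz
      · intro c hc
        exact (List.mem_append.1 hc).elim (fun e' => Or.inr ⟨rfl, e'⟩)
          fun e' => hold _ e _ (n3 c e')
      · intro c hc
        rw [List.head?_append_of_ne_nil _ hne', Option.mem_def.1 ha] at hc
        cases hc; exact haa
      · intro c hc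
        rw [List.getLast?_append_of_ne_nil _ hne, n5] at hc
        cases hc; exact hyv
      · rw [List.length_append]; omega
    · exact absurd e hy
    · obtain ⟨-, hz', t14⟩ :=
        ((hp0.resolve_right fun e' => e'.1 e).2).resolve_right fun e' => hy e'.1
      refine ⟨t, t1, t2, fun v hv => Or.inr ⟨rfl, hv⟩, fun c hc => ?_, fun c hc => ?_, t14⟩
      · rw [Option.mem_def.1 ha] at hc; cases hc; exact haa
      · rw [Option.mem_def.1 hb] at hc; cases hc; exact hz'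
  have htl : ∀ x v, v ∈ tl x → v ∈ Function.update tl x0 t x := by
    intro x v hv
    have : x ≠ x0 := by rintro rfl; simp [l3] at hv
    rwa [Function.update_of_ne this]
  refine ⟨T', Ad', Function.update tl x0 t, ?_, ?_, ?_, ?_, ?_, ?_, ?_, ?_, ?_, ?_⟩
  · rintro p v (⟨-, hv⟩ | ⟨-, hv⟩)
    · obtain ⟨x, hx, e⟩ := h.i1 p v hv
      exact ⟨x, hx, e.imp id (htl x v)⟩
    · exact ⟨x0, hW, Or.inr (by simpa using hv)⟩
  · intro x v hv
    by_cases e : x = x0
    · subst e; exact (t3 v (by simpa using hv)).1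
    · rw [Function.update_of_ne e] at hv; exact h.i2 x v hv
  · intro x r hr hr'
    by_cases e : x = x0
    · subst e
      rw [Function.update_self] at hr ⊢
      convert tfew r hr fun e => hr' ⟨_, e.symm⟩
    · rw [Function.update_of_ne e] at hr ⊢; exact h.i3 x r hr hr'
  · intro x v hv
    by_cases e : x = x0
    · subst e; exact ⟨p0, Or.inr ⟨rfl, by simpa using hv⟩⟩
    · rw [Function.update_of_ne e] at hv
      obtain ⟨p, hp⟩ := h.i4 x v hv
      refine ⟨p, Or.inl ⟨?_, hp⟩⟩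
      rintro rfl
      exact l4 x ((l1 v).1 hp ▸ hv)
  · rintro p p' v (⟨e, hv⟩ | ⟨e, hv⟩) (⟨e', hv'⟩ | ⟨e', hv'⟩)
    · exact h.dis _ _ _ hv hv'
    · exact absurd ((t3 v hv').2 _ hv) e
    · exact absurd ((t3 v hv).2 _ hv') e'
    · exact e.trans e'.symm
  · rintro p v w (⟨e, hv⟩ | ⟨rfl, hv⟩) (⟨e', hw⟩ | ⟨e', hw⟩)
    · exact ins_mono (hold p e) (h.con _ _ _ hv hw)
    · subst e'; exact (hzb v e hv).trans (htb w hw).symm
    · exact (htb v hv).trans (hzb w e' hw).symm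
    · exact (htb v hv).trans (htb w hw).symm
  · rintro p v (⟨e, hv⟩ | ⟨rfl, -⟩)
    · exact Or.inl ⟨e, h.a0 p v hv⟩
    · rcases hp0 with e | ⟨e, -, z, hz, -⟩
      · exact Or.inr ⟨rfl, Or.inl e.1⟩
      · exact Or.inl ⟨e, h.a0 _ _ hz⟩
  · rintro p y (⟨e, hy⟩ | ⟨rfl, rfl | ⟨e, rfl⟩⟩)
    · obtain ⟨v, hv, hyv⟩ := h.a1 p y hy
      exact ⟨v, hold p e v hv, hyv⟩
    · exact ⟨a, Or.inr ⟨rfl, hat⟩, haa⟩
    · rcases (hp0.resolve_right fun e' => e'.1 e).2 with e' | e'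
      · exact ⟨b, Or.inr ⟨rfl, hbt⟩, e'.2.1⟩
      · exact ⟨a, Or.inr ⟨rfl, hat⟩, by rw [e'.1]; exact haa⟩
  · intro p x y hx hy hxy
    by_cases e : p = p0 ∧ (x = x0 ∨ y = x0)
    · obtain ⟨rfl, rfl | rfl⟩ := e
      · exact hlk y hxy.symm hy
      · exact (hlk x hxy hx).symm
    · rcases hx with ⟨e1, hx⟩ | ⟨e1, hx | hx⟩
      · rcases hy with ⟨-, hy⟩ | ⟨e2, hy | hy⟩
        · exact (h.a2 p x y hx hy hxy).mono (hold p e1)
        · exact absurd ⟨e2, Or.inr hy⟩ e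
        · exact absurd (e2.trans hy.1) e1
      · exact absurd ⟨e1, Or.inl hx⟩ e
      · rcases hy with ⟨e2, -⟩ | ⟨-, hy | hy⟩
        · exact absurd (e1.trans hx.1) e2
        · exact absurd ⟨e1, Or.inr hy⟩ e
        · exact absurd (hx.2.trans hy.2.symm) hxy
  · intro x hx
    by_cases e : x = x0
    · left
      rw [e]
      rcases hp0 with ⟨e1, e2 | ⟨e2, r, hr, hr'⟩⟩ | ⟨e1, -, z, hz, -⟩
      · exact Or.inl ⟨p0, u, e2.1, Or.inr ⟨rfl, Or.inl rfl⟩,
          Or.inr ⟨rfl, Or.inr ⟨e1, rfl⟩⟩⟩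
      · refine Or.inr ⟨?_, r, Or.inr ⟨e1.symm, hr⟩, hr'⟩
        rintro y (⟨e3, -⟩ | ⟨-, e3 | ⟨-, e3⟩⟩)
        · exact absurd rfl e3
        · exact e3
        · exact e3.trans e2
      · exact Or.inl ⟨p0, p0, e1, Or.inr ⟨rfl, Or.inl rfl⟩, Or.inl ⟨e1, h.a0 _ _ hz⟩⟩
    rcases h.d x hx with (⟨p, y, hy, h1, h2⟩ | ⟨m2, r, hr, hr'⟩) | ⟨m0, m1, m2, m3, m4⟩
    · have : p ≠ x0 := by rintro rfl; exact e (l2 _ h1)
      exact Or.inl (Or.inl ⟨p, y, hy, Or.inl ⟨this, h1⟩, Or.inl ⟨this, h2⟩⟩)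
    · by_cases e' : x = p0
      · exact Or.inl (Or.inl ⟨x, x0, Ne.symm e, Or.inl ⟨e, h.a0 _ _ hr⟩,
          Or.inr ⟨e', Or.inl rfl⟩⟩)
      · refine Or.inl (Or.inr ⟨?_, r, hold x e r hr, hr'⟩)
        rintro y (⟨-, hy⟩ | ⟨hy, -⟩)
        · exact m2 y hy
        · exact absurd hy e'
    by_cases e' : x = p0
    · exact Or.inl (Or.inl ⟨x, x0, Ne.symm e, Or.inl ⟨e, h.a0 _ _ ((m1 _).2 rfl)⟩,
        Or.inr ⟨e', Or.inl rfl⟩⟩)
    refine Or.inr ⟨by simp [e, m0], fun v => ?_, ?_, by rwa [Function.update_of_ne e],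
      fun y => ?_⟩
    · simp [T', e, e', m1]
    · rintro y (⟨-, hy⟩ | ⟨hy, -⟩)
      · exact m2 y hy
      · exact absurd hy e'
    · by_cases e2 : y = x0
      · subst e2
        rw [Function.update_self]
        exact fun hv => e ((t3 _ hv).2 _ ((m1 _).2 rfl))
      · rw [Function.update_of_ne e2]; exact m4 y

end Pieces2Aux

open Pieces2Aux in
theorem t_pieces2 : T_Tail2 → T_Pieces2 := by
  intro hT V _ G n _ f hL m k hm Fr U hU hA hconn hδ
  obtain ⟨ψ0, hinj, hψ0⟩ := exists_psi2 hL m hm Fr U hU hA (fun v => by have := hδ v; omega)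
  let ψ : ZMod n → V := fun x => if h : Fr x then ψ0 ⟨x, h⟩ else f x
  have hψ : ∀ x, Fr x → G.Adj (f x) (ψ x) ∧ ψ x ∉ Set.range f := fun x hx => by
    simp only [ψ, dif_pos hx]; exact (mem_filter.1 (hψ0 ⟨x, hx⟩)).2
  have key : ∀ S : Finset (ZMod n), ∃ T Ad tl, Inv2 G f Fr
      (fun r => k ≤ (univ.filter (fun u => U u ∧ G.Adj (f u) r)).card) ψ S T Ad tl := by
    intro S
    induction S using Finset.induction_on with
    | empty =>
      refine ⟨fun p v => Fr p ∧ v = ψ p, fun p y => Fr p ∧ y = p, fun _ => [],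
        fun p v h => ⟨p, h.1, Or.inl h.2⟩, by simp, by simp, by simp, ?_, ?_,
        fun p v h => ⟨h.1, rfl⟩, ?_, ?_, fun x hx => Or.inr ⟨by simp, by simp [hx], by simp, rfl,
          by simp⟩⟩
      · rintro p p' v ⟨h1, rfl⟩ ⟨h2, e⟩
        simp only [ψ, dif_pos h1, dif_pos h2] at e
        exact congrArg Subtype.val (hinj e)
      · rintro p u w ⟨-, rfl⟩ ⟨-, rfl⟩; exact .refl _
      · rintro p x ⟨h1, rfl⟩; exact ⟨_, ⟨h1, rfl⟩, (hψ _ h1).1⟩
      · rintro p x y ⟨-, rfl⟩ ⟨-, rfl⟩ e; exact absurd rfl e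
    | insert x S _ ih =>
      obtain ⟨T, Ad, tl, h⟩ := ih
      exact h.step hT hL hU hA hconn hδ hψ (fun r hr => not_le.1 hr) x
  obtain ⟨T, Ad, tl, h⟩ := key univ
  refine ⟨T, Ad, fun p v hv => ?_, h.dis, h.con, h.a2, fun x hx => ?_⟩
  · obtain ⟨x, hx, e⟩ := h.i1 p v hv
    have hm : Mem v ((Out G f).connectedComponentMk (ψ x)) :=
      e.elim (fun e => by rw [e]; exact mem_mk (hψ x hx).2) (h.i2 x v)
    refine ⟨hm.2, x, hx, ψ x, ?_, (hψ x hx).1⟩
    rw [hm.1]; exact mem_mk (hψ x hx).2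
  · rcases (h.d x hx).resolve_right fun e => e.1 (mem_univ _) with e | ⟨e, r, hr, hr'⟩
    · exact Or.inl e
    · exact Or.inr ⟨e, h.a1 x x (h.a0 x r hr), r, hr, hr'⟩

end Pool.Agent.MP_ee574f_co.CD

end
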