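import Pool.Agent.Mg.Fee574fa.G942e3d
import Pool.Agent.Mg.Fee574fa.Gce39a0

section

set_option autoImplicit false

namespace Pool.Agent.MP_ee574f_co.CD

open SimpleGraph Classical Finset Function

namespace Par1Aux

open Lolli

variable {V E : Type}

theorem exists_base (P : List V) (m : ℕ) (hm : 3 ≤ m) (hP : P.length = m) :
    ∃ g : ZMod m → V, P = base m g := by
  have : NeZero m := ⟨by omega⟩
  refine ⟨fun i => P.reverse[i.val]'(by rw [List.length_reverse, hP]; exact ZMod.val_lt i), ?_⟩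
  unfold base
  rw [← List.reverse_eq_iff]
  apply List.ext_getElem
  · simp [hP]
  · intro t h1 h2
    have ht : t < m := by simpa using h2
    simp only [List.getElem_map, List.getElem_range, ZMod.val_cast_of_lt ht]

theorem base_inj {m : ℕ} (hm : 3 ≤ m) (g : ZMod m → V) (h : (base m g).Nodup) : Injective g := by
  have : NeZero m := ⟨by omega⟩
  unfold base at h
  rw [List.nodup_reverse, List.nodup_map_iff_inj_on List.nodup_range] at h
  intro i j hij
  apply ZMod.val_injective m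
  apply h _ (List.mem_range.mpr (ZMod.val_lt i)) _ (List.mem_range.mpr (ZMod.val_lt j))
  simpa using hij

theorem mem_base {m : ℕ} (hm : 3 ≤ m) (g : ZMod m → V) (v : V) :
    v ∈ base m g ↔ v ∈ Set.range g := by
  constructor
  · intro h
    unfold base at h
    rw [List.mem_reverse, List.mem_map] at h
    obtain ⟨t, -, rfl⟩ := h
    exact ⟨_, rfl⟩
  · rintro ⟨i, rfl⟩
    exact base_mem hm g i

theorem base_iff {m : ℕ} (hm : 3 ≤ m) (g : ZMod m → V) (H : SimpleGraph V) :
    ((base m g).IsChain H.Adj ∧ Cl H (g 0) (base m g)) ↔ ∀ i, H.Adj (g i) (g (i + 1)) := by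
  have : NeZero m := ⟨by omega⟩
  obtain ⟨R, hR⟩ := base_head hm g
  constructor
  · rintro ⟨h1, h2⟩ i
    by_cases h : i.val + 1 < m
    · obtain ⟨s, t, hst⟩ := base_split g i.val h
      rw [← hst] at h1
      have h3 := (List.isChain_append.mp (List.isChain_append.mp h1).1).2.1
      rw [List.isChain_cons_cons, ZMod.natCast_zmod_val] at h3
      exact h3.1.symm
    · have hi := ZMod.val_lt i
      have h4 : i + 1 = 0 := by
        have h5 : ((i.val + 1 : ℕ) : ZMod m) = 0 := by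
          rw [show i.val + 1 = m by omega]; exact ZMod.natCast_self m
        simpa using h5
      have h6 : i = -1 := eq_neg_of_add_eq_zero_left h4
      rw [hR] at h2
      rw [h4, h6]
      exact h2
  · intro h
    refine ⟨base_chain H g h, ?_⟩
    rw [hR]
    have := h (-1)
    rw [neg_add_cancel] at this
    exact this

theorem ends_eq {m : ℕ} (hm : 3 ≤ m) (g : ZMod m → V) {x y : V} (h : [y, x] <:+ base m g) :
    g 0 = x ∧ g 1 = y := by
  have h1 := List.suffix_of_suffix_length_le (base_suffix hm g) h (by simp)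
  have h2 := h1.eq_of_length (by simp)
  simp only [List.cons.injEq, and_true] at h2
  exact ⟨h2.2, h2.1⟩

theorem new_edge {n m : ℕ} (hn : 3 ≤ n) (hm : 3 ≤ m) (f : ZMod n → V) (hf : Injective f)
    (g : ZMod m → V) (hg : Injective g) (h0 : g 0 = f 0) (h1 : g 1 = f 1)
    (hne : base m g ≠ base n f) : ∃ i, ∀ j, s(g i, g (i + 1)) ≠ s(f j, f (j + 1)) := by
  by_contra hcon
  push Not at hcon
  have key := uniq hn f hf m hm (fun t => g (t : ZMod m))
    (fun s t hs ht h => cast_inj hs ht (hg h)) (by simpa using h0) (by simpa using h1)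
    (fun t _ => by simpa using hcon (t : ZMod m)) (by
      obtain ⟨j, hj⟩ := hcon ((m - 1 : ℕ) : ZMod m)
      refine ⟨j, ?_⟩
      have e : ((m - 1 : ℕ) : ZMod m) + 1 = ((0 : ℕ) : ZMod m) := by
        have h5 : ((m - 1 + 1 : ℕ) : ZMod m) = 0 := by
          rw [show m - 1 + 1 = m by omega]; exact ZMod.natCast_self m
        rw [Nat.cast_add, Nat.cast_one] at h5
        rw [h5, Nat.cast_zero]
      rw [e] at hj
      exact hj)
  obtain ⟨rfl, hall⟩ := key
  apply hne
  unfold base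
  congr 1
  apply List.map_congr_left
  intro t ht
  exact hall t (List.mem_range.mp ht)

/-- good paths -/
def Gd [Fintype V] (H : SimpleGraph V) (x y : V) (P : List V) : Prop :=
  P.Nodup ∧ P.IsChain H.Adj ∧ [y, x] <:+ P ∧ ∀ v, Odd (H.degree v) → v ∈ P

theorem gd_shape [Fintype V] {H : SimpleGraph V} {x y : V}
    (hodd : ∃ v, Odd (H.degree v) ∧ v ≠ x ∧ v ≠ y) (P : List V) (h : Gd H x y P) :
    ∃ z C, P = z :: (C ++ [y, x]) := by
  obtain ⟨_, _, ⟨C, rfl⟩, h4⟩ := h
  obtain ⟨v, hv, hv0, hv1⟩ := hodd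
  have := h4 v hv
  rcases C with _ | ⟨z, C⟩
  · simp [hv0, hv1] at this
  · exact ⟨z, C, rfl⟩

theorem gd_sys [Fintype V] {H : SimpleGraph V} {x y : V}
    (hodd : ∃ v, Odd (H.degree v) ∧ v ≠ x ∧ v ≠ y) :
    Sys H x (fun z => Even (H.degree z)) (Gd H x y) :=
  { nodup := fun P h => h.1
    chain := fun P h => h.2.1
    shape := by
      intro P h
      obtain ⟨z, C, rfl⟩ := gd_shape hodd P h
      rcases C with _ | ⟨p, C⟩
      · exact ⟨z, y, [x], rfl, by simp⟩
      · exact ⟨z, p, C ++ [y, x], rfl, by simp⟩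
    last := fun A w h => last_eq A w h.2.2.1
    ext := by
      intro z R w h hzw hw
      refine ⟨⟨List.nodup_cons.mpr ⟨hw, h.1⟩, ?_, ?_, ?_⟩, ?_⟩
      · exact List.isChain_cons_cons.mpr ⟨hzw.symm, h.2.1⟩
      · exact h.2.2.1.trans (List.suffix_cons _ _)
      · exact fun v hv => List.mem_cons_of_mem _ (h.2.2.2 v hv)
      · rw [← Nat.not_odd_iff_even]
        exact fun ho => hw (h.2.2.2 w ho)
    retr := by
      intro z R h hz
      obtain ⟨z', C, hC⟩ := gd_shape hodd _ h
      have hR : R = C ++ [y, x] := (List.cons.inj hC).2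
      refine ⟨(List.nodup_cons.mp h.1).2, h.2.1.tail, ?_, ?_⟩
      · rw [hR]
        exact List.suffix_append _ _
      · intro v hv
        rcases List.mem_cons.mp (h.2.2.2 v hv) with rfl | h'
        · exact absurd hz (Nat.not_even_iff_odd.mpr hv)
        · exact h'
    rota := by
      intro z p A w B h hB hzw
      refine ⟨nodup_rot _ _ h.1, chain_rot H z (p :: A) w B h.2.1 hzw,
        suffix_of_rot (z :: p :: A) B _ w hB h.2.2.1, ?_⟩
      intro v hv
      have := h.2.2.2 v hv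
      rw [List.mem_append] at this ⊢
      rwa [List.mem_reverse]
    par := fun z R _ => Nat.not_even_iff_odd.symm }

/-- all lists without repetition -/
noncomputable def T0 (V : Type) [Fintype V] : Finset (List V) :=
  (Finset.univ : Finset {l : List V // l.Nodup}).image Subtype.val

theorem mem_T0 [Fintype V] (P : List V) : P ∈ T0 V ↔ P.Nodup := by
  simp only [T0, Finset.mem_image, Finset.mem_univ, true_and]
  constructor
  · rintro ⟨l, rfl⟩; exact l.2
  · exact fun h => ⟨⟨P, h⟩, rfl⟩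

theorem lolli_sum [Fintype V] {H : SimpleGraph V} {x : V} {rt : V → Prop} {Good : List V → Prop}
    (S : Sys H x rt Good) :
    ∑ P ∈ T0 V, (if Good P ∧ Cl H x P then (1 : ZMod 2) else 0) = 0 := by
  let T : Finset (List V) := (T0 V).filter Good
  have hT : ∀ P, P ∈ T ↔ Good P := by
    intro P
    simp only [T, Finset.mem_filter, mem_T0]
    exact ⟨fun h => h.2, fun h => ⟨S.nodup P h, h⟩⟩
  let U : Finset (List V × Option V) :=
    (T ×ˢ Finset.univ).filter (fun q => Mv H x rt q.1 q.2)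
  have hU : ∀ q, q ∈ U ↔ Good q.1 ∧ Mv H x rt q.1 q.2 := by
    intro q
    simp only [U, Finset.mem_filter, Finset.mem_product, Finset.mem_univ, and_true, hT]
  have h1 : ∑ _q ∈ U, (1 : ZMod 2) = 0 := by
    apply Finset.sum_involution (fun q _ => tau q)
    · intro _ _
      decide
    · intro q hq _
      exact (tau_spec S q.1 q.2 ((hU q).mp hq).1 ((hU q).mp hq).2).2.2.1
    · intro q hq
      exact (tau_spec S q.1 q.2 ((hU q).mp hq).1 ((hU q).mp hq).2).2.2.2
    · intro q hq
      have := tau_spec S q.1 q.2 ((hU q).mp hq).1 ((hU q).mp hq).2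
      exact (hU _).mpr ⟨this.1, this.2.1⟩
  have h2 : ∑ _q ∈ U, (1 : ZMod 2) = ∑ P ∈ T, if Cl H x P then (1 : ZMod 2) else 0 := by
    simp only [U]
    rw [Finset.sum_filter, Finset.sum_product]
    apply Finset.sum_congr rfl
    intro P hP
    have := moves_parity S P ((hT P).mp hP)
    convert this
  rw [h2, Finset.sum_filter] at h1
  refine Eq.trans (Finset.sum_congr rfl ?_) h1
  intro P _
  by_cases h : Good P <;> simp [h]

/-- the graph of an edge vector -/
def HX (a b : E → V) (X : E → ZMod 2) : SimpleGraph V where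
  Adj u v := u ≠ v ∧ ∃ e, X e = 1 ∧ s(u, v) = s(a e, b e)
  symm := ⟨by
    rintro u v ⟨h, e, h1, h2⟩
    exact ⟨h.symm, e, h1, by rw [Sym2.eq_swap]; exact h2⟩⟩
  loopless := ⟨fun u h => h.1 rfl⟩

theorem z2 (t : ZMod 2) : t = if t = 1 then 1 else 0 := by
  revert t; decide

theorem z2' (t : ZMod 2) : ¬ t = 1 ↔ t = 0 := by
  revert t; decide

theorem deg_eq [Fintype V] [Fintype E] (a b : E → V) (hab : ∀ e, a e ≠ b e)
    (hinj : ∀ e e', s(a e, b e) = s(a e', b e') → e = e') (X : E → ZMod 2) (v : V) :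
    (((HX a b X).degree v : ℕ) : ZMod 2) = dg a b X v := by
  have h1 : dg a b X v =
      ((univ.filter (fun e => (a e = v ∨ b e = v) ∧ X e = 1)).card : ZMod 2) := by
    unfold dg
    rw [← Finset.sum_boole]
    apply Finset.sum_congr rfl
    intro e _
    by_cases h : a e = v ∨ b e = v
    · rw [if_pos h]
      simp only [h, true_and]
      convert z2 (X e)
    · rw [if_neg h, if_neg (fun h' => h h'.1)]
  have h2 : ∀ e, (a e = v ∨ b e = v) →
      s(v, if a e = v then b e else a e) = s(a e, b e) ∧ v ≠ if a e = v then b e else a e := by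
    intro e he
    by_cases h : a e = v
    · rw [if_pos h, ← h]; exact ⟨rfl, hab e⟩
    · rw [if_neg h, ← he.resolve_left h]; exact ⟨Sym2.eq_swap, (hab e).symm⟩
  rw [h1, ← SimpleGraph.card_neighborFinset_eq_degree]
  congr 1
  symm
  apply Finset.card_bij (fun e _ => if a e = v then b e else a e)
  · intro e he
    rw [Finset.mem_filter] at he
    rw [SimpleGraph.mem_neighborFinset]
    exact ⟨(h2 e he.2.1).2, e, he.2.2, (h2 e he.2.1).1⟩
  · intro e he e' he' h
    rw [Finset.mem_filter] at he he'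
    apply hinj
    rw [← (h2 e he.2.1).1, ← (h2 e' he'.2.1).1, h]
  · intro u hu
    rw [SimpleGraph.mem_neighborFinset] at hu
    obtain ⟨hne, e, he, hs⟩ := hu
    have h3 : a e = v ∨ b e = v := by
      rcases Sym2.eq_iff.mp hs with h | h
      · exact Or.inl h.1.symm
      · exact Or.inr h.1.symm
    refine ⟨e, Finset.mem_filter.mpr ⟨Finset.mem_univ _, h3, he⟩, ?_⟩
    have h4 := (h2 e h3).1
    rw [← hs] at h4
    exact Sym2.congr_right.mp h4

theorem odd_iff [Fintype V] [Fintype E] (a b : E → V) (hab : ∀ e, a e ≠ b e)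
    (hinj : ∀ e e', s(a e, b e) = s(a e', b e') → e = e') (X : E → ZMod 2) (v : V) :
    Odd ((HX a b X).degree v) ↔ dg a b X v = 1 := by
  rw [← deg_eq a b hab hinj, ZMod.natCast_eq_one_iff_odd]

theorem dg_add [Fintype E] (a b : E → V) (X Z : E → ZMod 2) (v : V) :
    dg a b (X + Z) v = dg a b X v + dg a b Z v := by
  unfold dg
  rw [← Finset.sum_add_distrib]
  apply Finset.sum_congr rfl
  intro e _
  split_ifs <;> simp

theorem w_iff [Fintype V] [Fintype E] (a b : E → V) (hab : ∀ e, a e ≠ b e)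
    (hinj : ∀ e e', s(a e, b e) = s(a e', b e') → e = e') (X : E → ZMod 2) {m : ℕ} (hm : 3 ≤ m)
    (g : ZMod m → V) (hg : Injective g) :
    (Gd (HX a b X) (g 0) (g 1) (base m g) ∧ Cl (HX a b X) (g 0) (base m g)) ↔
      ((∀ i, (HX a b X).Adj (g i) (g (i + 1))) ∧ ∀ v, v ∉ Set.range g → dg a b X v = 0) := by
  rw [← base_iff hm g]
  constructor
  · rintro ⟨⟨-, h2, -, h4⟩, h5⟩
    refine ⟨⟨h2, h5⟩, fun v hv => ?_⟩
    rw [← z2', ← odd_iff a b hab hinj]
    exact fun h => hv ((mem_base hm g v).mp (h4 v h))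
  · rintro ⟨⟨h2, h5⟩, h4⟩
    refine ⟨⟨base_nodup g hg, h2, base_suffix hm g, fun v hv => ?_⟩, h5⟩
    rw [mem_base hm g]
    by_contra h
    exact (z2' _).mpr (h4 v h) ((odd_iff a b hab hinj X v).mp hv)

end Par1Aux

open Par1Aux Lolli in
theorem t_par1 : T_Par1 := by
  intro V E _ _ a b hab hinj Fix R n hn f hf c hc hR huniq
  let XX : Finset (E → ZMod 2) :=
    univ.filter (fun X => (∀ e, Fix e → X e = 1) ∧ ∀ v, R v → dg a b X v = 1)
  have hXX : ∀ X, X ∈ XX ↔ (∀ e, Fix e → X e = 1) ∧ ∀ v, R v → dg a b X v = 1 := by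
    intro X; simp only [XX, Finset.mem_filter, Finset.mem_univ, true_and]
  let W : (E → ZMod 2) → List V → Prop := fun X P =>
    Gd (HX a b X) (f 0) (f 1) P ∧ Cl (HX a b X) (f 0) P
  have hodd : ∀ X ∈ XX, ∃ v, Odd ((HX a b X).degree v) ∧ v ≠ f 0 ∧ v ≠ f 1 := by
    intro X hX
    obtain ⟨v, h1, h2⟩ := hR
    exact ⟨v, (odd_iff a b hab hinj X v).mpr (((hXX X).mp hX).2 v h1), h2⟩
  have hsum : ∑ P ∈ T0 V, ∑ X ∈ XX, (if W X P then (1 : ZMod 2) else 0) = 0 := by
    rw [Finset.sum_comm]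
    exact Finset.sum_eq_zero (fun X hX => lolli_sum (gd_sys (hodd X hX)))
  have hfa : ∀ X i, (HX a b X).Adj (f i) (f (i + 1)) ↔ X (c i) = 1 := by
    intro X i
    rw [← (hc i).1, ← (hc i).2]
    constructor
    · rintro ⟨-, e, h1, h2⟩
      rw [hinj _ _ h2]; exact h1
    · exact fun h => ⟨hab _, c i, h, rfl⟩
  have hbase : ∑ X ∈ XX, (if W X (base n f) then (1 : ZMod 2) else 0) = 1 := by
    obtain ⟨X0, ⟨h1, h2, h3, h4⟩, hu⟩ := huniq
    rw [Finset.sum_eq_single X0]
    · exact if_pos ((w_iff a b hab hinj X0 hn f hf).mpr ⟨fun i => (hfa X0 i).mpr (h2 i), h4⟩)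
    · intro X hX hne
      refine if_neg (fun h => hne (hu X ?_))
      have h5 := (w_iff a b hab hinj X hn f hf).mp h
      exact ⟨((hXX X).mp hX).1, fun i => (hfa X i).mp (h5.1 i), ((hXX X).mp hX).2, h5.2⟩
    · exact fun h => absurd ((hXX X0).mpr ⟨h1, h3⟩) h
  obtain ⟨P, -, hne, hP⟩ : ∃ P ∈ T0 V, P ≠ base n f ∧
      ∑ X ∈ XX, (if W X P then (1 : ZMod 2) else 0) ≠ 0 := by
    by_contra hcon
    push Not at hcon
    rw [Finset.sum_eq_single (base n f) (fun P h1 h2 => hcon P h1 h2)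
      (fun h => absurd ((mem_T0 _).mpr (base_nodup f hf)) h), hbase] at hsum
    exact absurd hsum (by decide)
  obtain ⟨X1, hX1, hW1⟩ := Finset.exists_ne_zero_of_sum_ne_zero hP
  have hW : W X1 P := by
    by_contra h
    exact hW1 (if_neg h)
  have hlen : 3 ≤ P.length := by
    obtain ⟨z, C, rfl⟩ := gd_shape (hodd X1 hX1) P hW.1
    simp
  obtain ⟨m, hm⟩ : ∃ m, P.length = m := ⟨_, rfl⟩
  rw [hm] at hlen
  obtain ⟨g, rfl⟩ := exists_base P m hlen hm
  have hg : Injective g := base_inj hlen g hW.1.1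
  obtain ⟨e0, e1⟩ := ends_eq hlen g hW.1.2.2.1
  have hWi : ∀ X, W X (base m g) ↔
      ((∀ i, (HX a b X).Adj (g i) (g (i + 1))) ∧ ∀ v, v ∉ Set.range g → dg a b X v = 0) := by
    intro X
    rw [← w_iff a b hab hinj X hlen g hg, e0, e1]
  have h1 := (hWi X1).mp hW
  refine ⟨m, hlen, g, hg, ?_, ?_, new_edge hn hlen f hf g hg e0 e1 hne, ?_⟩
  · intro i
    obtain ⟨-, e, -, h⟩ := h1.1 i
    exact ⟨e, h⟩
  · intro v hv
    by_contra h
    exact (z2' _).mpr (h1.2 v h) (((hXX X1).mp hX1).2 v hv)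
  · intro Z z1 z2 z3
    by_contra hZ
    apply hP
    have hZZ : ∀ X : E → ZMod 2, X + Z + Z = X := by
      intro X
      funext e
      have : ∀ s t : ZMod 2, s + t + t = s := by decide
      exact this _ _
    have hmem : ∀ X ∈ XX, X + Z ∈ XX := by
      intro X hX
      rw [hXX] at hX ⊢
      refine ⟨fun e he => ?_, fun v hv => ?_⟩
      · rw [Pi.add_apply, hX.1 e he, z1 e he, add_zero]
      · rw [dg_add, hX.2 v hv, z3 v (Or.inl hv), add_zero]
    have hstep : ∀ X, W X (base m g) → W (X + Z) (base m g) := by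
      intro X h
      rw [hWi] at h ⊢
      refine ⟨fun i => ?_, fun v hv => ?_⟩
      · obtain ⟨h2, e, h3, h4⟩ := h.1 i
        refine ⟨h2, e, ?_, h4⟩
        rw [Pi.add_apply, h3, z2 e ⟨i, Sym2.eq_iff.mp h4⟩, add_zero]
      · rw [dg_add, h.2 v hv, z3 v (Or.inr hv), add_zero]
    apply Finset.sum_involution (fun X _ => X + Z)
    · intro X _
      by_cases h : W X (base m g)
      · rw [if_pos h, if_pos (hstep X h)]; decide
      · rw [if_neg h, if_neg (fun h' => h (hZZ X ▸ hstep _ h')), add_zero]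
    · intro X _ _ h
      exact hZ (add_eq_left.mp h)
    · exact hmem
    · intro X _
      exact hZZ X

end Pool.Agent.MP_ee574f_co.CD

end

section

set_option autoImplicit false

namespace Pool.Agent.MP_ee574f_co.CD

open SimpleGraph Classical Finset Function

namespace ParAAux

variable {V E : Type} [Fintype E] (a b : E → V)

theorem dg_add (X Y : E → ZMod 2) (v : V) : dg a b (X + Y) v = dg a b X v + dg a b Y v := by
  unfold dg
  rw [← Finset.sum_add_distrib]
  refine Finset.sum_congr rfl fun e _ => ?_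
  split_ifs <;> simp

theorem dg_sub (X Y : E → ZMod 2) (v : V) : dg a b (X - Y) v = dg a b X v - dg a b Y v := by
  rw [eq_sub_iff_add_eq, ← dg_add, sub_add_cancel]

theorem dg_zero {X : E → ZMod 2} {v : V} (h : ∀ e, a e = v ∨ b e = v → X e = 0) :
    dg a b X v = 0 := Finset.sum_eq_zero fun e _ => ite_eq_right_iff.2 (h e)

theorem dg_single {X : E → ZMod 2} {v : V} {e0 : E} (h0 : a e0 = v)
    (h : ∀ e, e ≠ e0 → a e = v ∨ b e = v → X e = 0) : dg a b X v = X e0 := by
  rw [dg, Finset.sum_eq_single e0 (fun e _ he => ite_eq_right_iff.2 (h e he))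
    fun h => absurd (Finset.mem_univ _) h, if_pos (Or.inl h0)]

theorem dg_split [DecidableEq V] (h : ∀ e, a e ≠ b e) (X : E → ZMod 2) (v : V) :
    dg a b X v = ∑ e, ((if a e = v then X e else 0) + if b e = v then X e else 0) := by
  refine Finset.sum_congr rfl fun e _ => ?_
  by_cases h1 : a e = v
  · rw [if_pos (Or.inl h1), if_pos h1, if_neg fun h2 => h e (h1.trans h2.symm), add_zero]
  · by_cases h2 : b e = v
    · rw [if_pos (Or.inr h2), if_neg h1, if_pos h2, zero_add]
    · rw [if_neg (not_or.2 ⟨h1, h2⟩), if_neg h1, if_neg h2, add_zero]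

theorem sumJ {α β : Type} [Fintype α] [Fintype β] (J : α → β → Prop)
    [Fintype {q : α × β // J q.1 q.2}] (f : α × β → ZMod 2) :
    ∑ q : {q : α × β // J q.1 q.2}, f q.1 = ∑ x, ∑ p, if J x p then f (x, p) else 0 := by
  rw [← Finset.sum_subtype (univ.filter fun q : α × β => J q.1 q.2) (by simp), Finset.sum_filter,
    Fintype.sum_prod_type]

theorem one_ne {n : ℕ} (hn : 3 ≤ n) : (1 : ZMod n) ≠ 0 := fun h => by
  have := Nat.le_of_dvd one_pos ((ZMod.natCast_eq_zero_iff 1 n).1 (by simpa using h))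
  omega

theorem two_ne {n : ℕ} (hn : 3 ≤ n) : (2 : ZMod n) ≠ 0 := fun h => by
  have := Nat.le_of_dvd two_pos ((ZMod.natCast_eq_zero_iff 2 n).1 (by simpa using h))
  omega

variable {n : ℕ} [NeZero n] {N : Type} [Fintype N] (D : Ptr n N)

/-- pointer edges -/
def Fr : D.Ed → Prop
  | .inr (.inl _) => True
  | _ => False

/-- indicator of the other edges -/
def X0 : D.Ed → ZMod 2
  | .inr (.inl _) => 0
  | _ => 1

theorem fr_ex {e : D.Ed} (h : Fr D e) : ∃ v, e = .inr (.inl v) := by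
  rcases e with i | v | q
  exacts [h.elim, ⟨v, rfl⟩, h.elim]

theorem x0_one {e : D.Ed} (h : ¬ Fr D e) : X0 D e = 1 := by
  rcases e with i | v | q
  exacts [rfl, absurd trivial h, rfl]

theorem dg_x0 (h : ∀ e, D.ea e ≠ D.eb e) (v : ZMod n ⊕ N) : dg D.ea D.eb (X0 D) v =
    (∑ i : ZMod n, if Sum.inl i = v then 1 else 0) +
      (∑ i : ZMod n, if Sum.inl (i + 1) = v then 1 else 0) + ∑ x, ∑ p, if D.J x p then
        ((if Sum.inl x = v then 1 else 0) + if Sum.inr p = v then 1 else 0) else 0 := by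
  rw [dg_split _ _ h, Fintype.sum_sum_type, Fintype.sum_sum_type, ← Finset.sum_add_distrib,
    ← sumJ D.J fun q => (if Sum.inl q.1 = v then 1 else 0) + if Sum.inr q.2 = v then 1 else 0]
  simp only [X0, Ptr.ea, Ptr.eb, ite_self, add_zero, Finset.sum_const_zero, zero_add]

theorem dg_left (h : ∀ e, D.ea e ≠ D.eb e) (x : ZMod n) :
    dg D.ea D.eb (X0 D) (.inl x) = (univ.filter fun p => D.J x p).card := by
  have e : ∀ i : ZMod n, i + 1 = x ↔ i = x - 1 := fun i => eq_sub_iff_add_eq.symm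
  rw [dg_x0 D h, ← Finset.sum_boole]
  simp only [Sum.inl.injEq, e, Finset.sum_ite_eq', Finset.mem_univ, if_true, reduceCtorEq,
    if_false, add_zero, CharTwo.add_self_eq_zero, zero_add]
  rw [Finset.sum_eq_single x (fun y _ hy => by simp only [if_neg hy, ite_self,
    Finset.sum_const_zero]) fun h => absurd (Finset.mem_univ _) h]
  simp only [if_true]

theorem dg_right (h : ∀ e, D.ea e ≠ D.eb e) (p : N) :
    dg D.ea D.eb (X0 D) (.inr p) = (univ.filter fun x => D.J x p).card := by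
  rw [dg_x0 D h, ← Finset.sum_boole]
  simp only [Sum.inr.injEq, reduceCtorEq, if_false, add_zero, zero_add, Finset.sum_const_zero]
  rw [Finset.sum_comm, Finset.sum_eq_single p (fun y _ hy => by simp only [if_neg hy, ite_self,
    Finset.sum_const_zero]) fun h => absurd (Finset.mem_univ _) h]
  simp only [if_true]

theorem ker (Z : D.Ed → ZMod 2) (z1 : ∀ e, ¬ Fr D e → Z e = 0)
    (z2 : ∀ v, D.Dm v → dg D.ea D.eb Z v = 0) : Z = 0 := by
  by_contra hZ
  obtain ⟨e, he⟩ := Function.ne_iff.1 hZ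
  obtain ⟨u, rfl⟩ := fr_ex D (by_contra fun h => he (z1 e h))
  obtain ⟨v, hv, hm⟩ := Finset.exists_max_image
    (univ.filter fun v : {v // D.Dm v} => Z (.inr (.inl v)) ≠ 0) (fun v => D.rk v.1)
    ⟨u, Finset.mem_filter.2 ⟨Finset.mem_univ _, he⟩⟩
  apply (Finset.mem_filter.1 hv).2
  rw [← z2 v.1 v.2]
  refine (dg_single D.ea D.eb (e0 := Sum.inr (Sum.inl v)) rfl fun e hne h => ?_).symm
  by_contra h0
  obtain ⟨w, rfl⟩ := fr_ex D (by_contra fun h => h0 (z1 e h))
  rcases h with h | h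
  · exact hne (by rw [Subtype.ext h])
  · have a1 := D.rk_lt w.1 w.2
    have a2 := hm w (Finset.mem_filter.2 ⟨Finset.mem_univ _, h0⟩)
    change D.par w.1 = v.1 at h
    rw [h] at a1
    omega

end ParAAux

open ParAAux

theorem t_la : T_LA := by
  intro V E _ _ a b Fr T hc hk
  have h1 : ∀ c : V → ZMod 2, ∃ Z : E → ZMod 2, (∀ e, ¬ Fr e → Z e = 0) ∧
      ∀ v, T v → dg a b Z v = c v := by
    let ex : ({e // Fr e} → ZMod 2) → E → ZMod 2 := fun Z e => if h : Fr e then Z ⟨e, h⟩ else 0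
    let Φ : ({e // Fr e} → ZMod 2) → {v // T v} → ZMod 2 := fun Z v => dg a b (ex Z) v.1
    have hi : Injective Φ := by
      intro Z Z' h
      have := hk (ex Z - ex Z') (fun e he => by simp [ex, he]) fun v hv => by
        rw [dg_sub, sub_eq_zero]
        exact congrFun h ⟨v, hv⟩
      funext e
      simpa [ex, e.2, sub_eq_zero] using congrFun this e.1
    have hb := (Fintype.bijective_iff_injective_and_card Φ).2 ⟨hi, le_antisymm
      (Fintype.card_le_of_injective Φ hi) (by
        simp only [Fintype.card_fun, Fintype.card_subtype]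
        exact Nat.pow_le_pow_right Fintype.card_pos hc)⟩
    intro c
    obtain ⟨Z, hZ⟩ := hb.2 fun v => c v.1
    exact ⟨ex Z, fun e he => by simp [ex, he], fun v hv => congrFun hZ ⟨v, hv⟩⟩
  refine ⟨h1, fun hab S hS hF v0 h0 => ?_⟩
  obtain ⟨Z, z1, z2⟩ := h1 fun v => if v = v0 then 1 else 0
  have h2 : ∑ v ∈ univ.filter S, dg a b Z v = 1 := by
    rw [Finset.sum_congr rfl fun v hv => z2 v (hS v (Finset.mem_filter.1 hv).2)]
    simp [h0]
  have h3 : ∑ v ∈ univ.filter S, dg a b Z v = 0 := by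
    simp only [dg_split a b hab]
    rw [Finset.sum_comm]
    refine Finset.sum_eq_zero fun e _ => ?_
    by_cases he : Fr e
    · simp only [Finset.sum_add_distrib, Finset.sum_ite_eq, Finset.mem_filter, Finset.mem_univ,
        true_and, hF e he]
      exact CharTwo.add_self_eq_zero _
    · simp [z1 e he]
  exact one_ne_zero (h2.symm.trans h3)

theorem t_ed : T_Ed := by
  intro n _ N _ hn D
  have h1 := one_ne hn
  have h2 := two_ne hn
  have k1 : ∀ (v : {v // D.Dm v}) (i j : ZMod n), v.1 = .inl i → D.par v.1 = .inl j → False :=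
    fun v i j e1 e2 => by
      have := D.side v.1 v.2
      rw [e2, e1] at this
      simp at this
  have k2 : ∀ (v : {v // D.Dm v}) x p, D.J x p → v.1 ≠ .inr p ∧ D.par v.1 ≠ .inr p :=
    fun v x p h => ⟨fun e => D.Jd x p h (e ▸ v.2), fun e => by
      rcases D.up v.1 v.2 with h3 | ⟨a, -, h3⟩
      · exact D.Jd x p h (e ▸ h3)
      · rw [e] at h3
        cases h3⟩
  constructor
  · rintro (i | v | q) h
    · exact h1 (by simpa [Ptr.ea, Ptr.eb] using h)
    · have := D.rk_lt v.1 v.2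
      change v.1 = D.par v.1 at h
      rw [← h] at this
      exact lt_irrefl _ this
    · cases h
  · rintro (i | v | q) (j | w | r) h <;> simp only [Ptr.ea, Ptr.eb, Sym2.eq_iff] at h
    · rcases h with ⟨h, -⟩ | ⟨h3, h4⟩
      · exact congrArg _ (Sum.inl_injective h)
      · exact (h2 (by
          linear_combination Sum.inl_injective h4 - Sum.inl_injective h3)).elim
    · rcases h with ⟨h3, h4⟩ | ⟨h3, h4⟩
      exacts [(k1 w _ _ h3.symm h4.symm).elim, (k1 w _ _ h4.symm h3.symm).elim]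
    · rcases h with ⟨-, h⟩ | ⟨h, -⟩ <;> cases h
    · rcases h with ⟨h3, h4⟩ | ⟨h3, h4⟩
      exacts [(k1 v _ _ h3 h4).elim, (k1 v _ _ h3 h4).elim]
    · rcases h with ⟨h, -⟩ | ⟨h3, h4⟩
      · rw [Subtype.ext h]
      · have a1 := D.rk_lt v.1 v.2
        have a2 := D.rk_lt w.1 w.2
        rw [h4] at a1
        rw [← h3] at a2
        omega
    · rcases h with ⟨-, h⟩ | ⟨h, -⟩
      exacts [((k2 v _ _ r.2).2 h).elim, ((k2 v _ _ r.2).1 h).elim]
    · rcases h with ⟨-, h⟩ | ⟨-, h⟩ <;> cases h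
    · rcases h with ⟨-, h⟩ | ⟨-, h⟩
      exacts [((k2 w _ _ q.2).2 h.symm).elim, ((k2 w _ _ q.2).1 h.symm).elim]
    · rcases h with ⟨h3, h4⟩ | ⟨h, -⟩
      · rw [Subtype.ext (Prod.ext (Sum.inl_injective h3) (Sum.inr_injective h4))]
      · cases h

theorem t_parA : T_ParA := by
  intro n _ N _ hn D
  have hab := (t_ed n N hn D).1
  have hc : (univ.filter D.Dm).card ≤ (univ.filter (Fr D)).card :=
    Finset.card_le_card_of_surjOn D.ea fun v hv =>
      ⟨.inr (.inl ⟨v, (Finset.mem_filter.1 hv).2⟩),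
        Finset.mem_coe.2 (Finset.mem_filter.2 ⟨Finset.mem_univ _, trivial⟩), rfl⟩
  obtain ⟨Z, z1, z2⟩ := (t_la _ _ D.ea D.eb (Fr D) D.Dm hc (ker D)).1
    fun v => (if v.isLeft then 1 else 0) - dg D.ea D.eb (X0 D) v
  have h1 : ∀ e, ¬ Fr D e → (X0 D + Z) e = 1 := fun e he => by
    rw [Pi.add_apply, x0_one D he, z1 e he, add_zero]
  have h2 : ∀ v, D.Dm v → dg D.ea D.eb (X0 D + Z) v = if v.isLeft then 1 else 0 := fun v hv => by
    rw [dg_add, z2 v hv, add_sub_cancel]
  have h3 : ∀ v, ¬ D.Dm v → (∀ x, D.A x → v ≠ .inl x) →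
      dg D.ea D.eb (X0 D + Z) v = dg D.ea D.eb (X0 D) v := fun v hv hA => by
    rw [dg_add, add_eq_left]
    refine dg_zero _ _ fun e h => z1 e fun he => ?_
    obtain ⟨w, rfl⟩ := fr_ex D he
    rcases h with h | h
    · exact hv (h ▸ w.2)
    · change D.par w.1 = v at h
      rcases D.up w.1 w.2 with h4 | ⟨x, h4, h5⟩
      · exact hv (h ▸ h4)
      · exact hA x h4 (h ▸ h5)
  refine existsUnique_of_exists_of_unique ⟨X0 D + Z, ?_, fun i => h1 _ id, ?_, ?_⟩ ?_
  · rintro (i | v | q) h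
    exacts [h.elim, h.elim, h1 _ id]
  · rintro _ ⟨x, hx, rfl⟩
    by_cases hv : D.Dm (.inl x)
    · exact h2 _ hv
    rw [h3 _ hv fun y hy e => hx (Sum.inl_injective e ▸ hy), dg_left D hab]
    exact ZMod.natCast_eq_one_iff_odd.2 (D.Jodd x hx hv)
  · rintro (x | p) hp
    · exact absurd ⟨x, rfl⟩ hp
    by_cases hv : D.Dm (.inr p)
    · exact h2 _ hv
    rw [h3 _ hv fun y _ => Sum.inr_ne_inl, dg_right D hab]
    exact ZMod.natCast_eq_zero_iff_even.2 (D.Jev p)
  · rintro X Y ⟨x1, x2, x3, x4⟩ ⟨y1, y2, y3, y4⟩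
    refine sub_eq_zero.1 (ker D _ ?_ ?_)
    · rintro (i | v | q) h
      · rw [Pi.sub_apply, x2, y2, sub_self]
      · exact absurd trivial h
      · rw [Pi.sub_apply, x1 (.inr (.inr q)) trivial, y1 (.inr (.inr q)) trivial, sub_self]
    · rintro (x | p) hv
      · have : D.R (.inl x) := ⟨x, fun h => D.dmA x h hv, rfl⟩
        rw [dg_sub, x3 _ this, y3 _ this, sub_self]
      · have : Sum.inr p ∉ Set.range (Sum.inl : ZMod n → ZMod n ⊕ N) :=
          fun ⟨_, e⟩ => Sum.inl_ne_inr e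
        rw [dg_sub, x4 _ this, y4 _ this, sub_self]

end Pool.Agent.MP_ee574f_co.CD

end

section

set_option autoImplicit false

namespace Pool.Agent.MP_ee574f_co.CD

open SimpleGraph Classical Finset Function

namespace TieAux

theorem two_ne {m : ℕ} (hm : 3 ≤ m) : (2 : ZMod m) ≠ 0 := by
  intro e
  have : ((2 : ℕ) : ZMod m) = 0 := by exact_mod_cast e
  have := Nat.le_of_dvd (by norm_num) ((ZMod.natCast_eq_zero_iff _ _).1 this)
  omega

/-- number of points with a property -/
noncomputable def cnt {α : Type} [Fintype α] (P : α → Prop) : ℕ := (univ.filter P).card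

theorem cnt_eq {α : Type} [Fintype α] (P : α → Prop) [DecidablePred P] :
    cnt P = (univ.filter P).card := by
  unfold cnt; congr

theorem cnt_mono {α : Type} [Fintype α] {P Q : α → Prop} (h : ∀ a, P a → Q a) : cnt P ≤ cnt Q :=
  card_le_card fun a ha => mem_filter.2 ⟨mem_univ _, h a (mem_filter.1 ha).2⟩

theorem cnt_pos {α : Type} [Fintype α] {P : α → Prop} : 0 < cnt P ↔ ∃ a, P a :=
  card_pos.trans ⟨fun ⟨a, ha⟩ => ⟨a, (mem_filter.1 ha).2⟩,
    fun ⟨a, ha⟩ => ⟨a, mem_filter.2 ⟨mem_univ _, ha⟩⟩⟩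

theorem shift {m : ℕ} [NeZero m] (P : ZMod m → Prop) : cnt (fun i => P (i + 1)) = cnt P :=
  card_equiv (Equiv.addRight 1) fun i => by simp

variable {n : ℕ} {N : Type} {E : ZMod n → N → Prop} {m : ℕ} {g : ZMod m → ZMod n ⊕ N}

theorem key {lg : N → Prop} {W M : ZMod n → Prop} (hW : ∀ x p, W x → E x p → lg p) (hm : 3 ≤ m)
    (ginj : Injective g) (gadj : ∀ i, Stp E (g i) (g (i + 1)))
    (hM : ∀ x, M x ↔ ¬ ∃ i, g i = .inl x) {x : ZMod n} {i : ZMod m} (hx : W x)
    (hn : M (x + 1) ∨ M (x - 1)) (hi : g i = .inl x) :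
    (∃ p, g (i - 1) = .inr p ∧ lg p) ∨ ∃ p, g (i + 1) = .inr p ∧ lg p := by
  have hne : g (i - 1) ≠ g (i + 1) := fun e => two_ne hm (by linear_combination -(ginj e))
  have h1 := gadj (i - 1)
  have h2 := gadj i
  rw [sub_add_cancel, hi] at h1
  rw [hi] at h2
  rcases hb : g (i - 1) with b | p
  swap
  · rw [hb] at h1; exact Or.inl ⟨p, rfl, hW x p hx h1⟩
  rcases hc : g (i + 1) with c | q
  swap
  · rw [hc] at h2; exact Or.inr ⟨q, rfl, hW x q hx h2⟩
  exfalso
  rw [hb] at h1
  rw [hc] at h2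
  have mb : ¬ M b := fun h => (hM b).1 h ⟨_, hb⟩
  have mc : ¬ M c := fun h => (hM c).1 h ⟨_, hc⟩
  have hbc : b ≠ c := fun e => hne (by rw [hb, hc, e])
  have rb : b = x + 1 ∨ b = x - 1 := (Or.symm h1).imp id fun h => by rw [h]; ring
  have rc : c = x + 1 ∨ c = x - 1 := Or.imp id (fun h => by rw [h]; ring) h2
  rcases rb with rfl | rfl <;> rcases rc with rfl | rc
  · exact hbc rfl
  · subst rc; exact hn.elim mb mc
  · exact hn.elim mc mb
  · exact hbc rc.symm

theorem both_le [NeZero n] [NeZero m] (hm : 3 ≤ m) (ginj : Injective g)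
    (gadj : ∀ i, Stp E (g i) (g (i + 1))) :
    cnt (fun i => (∃ x, g i = .inl x) ∧ ∃ y, g (i + 1) = .inl y) ≤
      cnt (fun x => Us g (.inl x) (.inl (x + 1))) := by
  rw [cnt_eq, cnt_eq]
  have : ∀ i, ∃ x : ZMod n, ((∃ x, g i = .inl x) ∧ ∃ y, g (i + 1) = .inl y) →
      (g i = .inl x ∧ g (i + 1) = .inl (x + 1)) ∨ (g i = .inl (x + 1) ∧ g (i + 1) = .inl x) := by
    intro i
    by_cases h : (∃ x, g i = .inl x) ∧ ∃ y, g (i + 1) = .inl y
    · obtain ⟨⟨x, hx⟩, y, hy⟩ := h
      have h1 := gadj i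
      rw [hx, hy] at h1
      rcases h1 with rfl | rfl
      · exact ⟨x, fun _ => Or.inl ⟨hx, hy⟩⟩
      · exact ⟨y, fun _ => Or.inr ⟨hx, hy⟩⟩
    · exact ⟨0, fun h' => absurd h' h⟩
  choose ι hι using this
  refine card_le_card_of_injOn ι ?_ ?_
  · intro i hi
    exact mem_coe.2 (mem_filter.2 ⟨mem_univ _, i, hι i (mem_filter.1 (mem_coe.1 hi)).2⟩)
  · intro a ha b hb e
    have h1 := hι a (mem_filter.1 (mem_coe.1 ha)).2
    have h2 := hι b (mem_filter.1 (mem_coe.1 hb)).2
    rw [e] at h1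
    rcases h1 with ⟨p1, p2⟩ | ⟨p1, p2⟩ <;> rcases h2 with ⟨q1, q2⟩ | ⟨q1, q2⟩
    · exact ginj (p1.trans q1.symm)
    · exact absurd (by linear_combination ginj (p2.trans q1.symm) - ginj (p1.trans q2.symm))
        (two_ne hm)
    · exact absurd (by linear_combination ginj (p2.trans q1.symm) - ginj (p1.trans q2.symm))
        (two_ne hm)
    · exact ginj (p1.trans q1.symm)

theorem vis_le [NeZero n] [NeZero m] :
    cnt (fun a : ZMod n => ∃ i, g i = .inl a) ≤ cnt (fun i => ∃ x, g i = .inl x) := by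
  rw [cnt_eq, cnt_eq]
  have : ∀ a : ZMod n, ∃ i, (∃ i, g i = .inl a) → g i = .inl a := by
    intro a
    by_cases h : ∃ i, g i = .inl a
    · obtain ⟨i, hi⟩ := h; exact ⟨i, fun _ => hi⟩
    · exact ⟨0, fun h' => absurd h' h⟩
  choose ι hι using this
  refine card_le_card_of_injOn ι ?_ ?_
  · intro a ha
    exact mem_coe.2 (mem_filter.2 ⟨mem_univ _, a, hι a (mem_filter.1 (mem_coe.1 ha)).2⟩)
  · intro a ha b hb e
    have h1 := hι a (mem_filter.1 (mem_coe.1 ha)).2
    have h2 := hι b (mem_filter.1 (mem_coe.1 hb)).2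
    rw [e, h2] at h1
    exact (Sum.inl.inj h1).symm

theorem miss_le [NeZero n] [NeZero m] {lg : N → Prop} {A W M : ZMod n → Prop}
    (hW : ∀ x p, W x → E x p → lg p) (hR : Run W A) (hm : 3 ≤ m)
    (ginj : Injective g) (gadj : ∀ i, Stp E (g i) (g (i + 1)))
    (hM : ∀ x, M x ↔ ¬ ∃ i, g i = .inl x) (hA : ∀ a, M a → A a) :
    cnt (fun a => M a ∧ ¬ Sg A a) ≤ 12 * cnt (fun i => ∃ p, g i = .inr p ∧ lg p) := by
  rw [cnt_eq, cnt_eq]
  let w : ZMod n ⊕ N → Finset (ZMod n) := fun z =>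
    z.elim (fun x => {x + 1, x + 2, x + 3, x - 1, x - 2, x - 3}) (fun _ => ∅)
  have hw : ∀ z, (w z).card ≤ 6 := by
    rintro (x | p)
    · exact card_le_six
    · simp [w]
  have hsub : univ.filter (fun a => M a ∧ ¬ Sg A a) ⊆
      (univ.filter (fun i => ∃ p, g i = .inr p ∧ lg p)).biUnion
        (fun i => w (g (i + 1)) ∪ w (g (i - 1))) := by
    intro a ha
    obtain ⟨h1, h2⟩ := (mem_filter.1 ha).2
    obtain ⟨x, hx, hm', hn, hax⟩ := hR M hA a h1 (by by_contra h; exact h2 (not_or.1 h))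
    obtain ⟨i, hi⟩ : ∃ i, g i = .inl x := by by_contra h; exact hm' ((hM x).2 h)
    rcases key hW hm ginj gadj hM hx hn hi with h | h
    · refine mem_biUnion.2 ⟨i - 1, mem_filter.2 ⟨mem_univ _, h⟩, mem_union_left _ ?_⟩
      rw [sub_add_cancel, hi]; exact hax
    · refine mem_biUnion.2 ⟨i + 1, mem_filter.2 ⟨mem_univ _, h⟩, mem_union_right _ ?_⟩
      rw [add_sub_cancel_right, hi]; exact hax
  refine (card_le_card hsub).trans ((card_biUnion_le_card_mul _ _ 12 fun i _ => ?_).trans ?_)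
  · exact (card_union_le _ _).trans (by have := hw (g (i + 1)); have := hw (g (i - 1)); omega)
  · rw [mul_comm]

theorem sum_wt [NeZero m] (lg : N → Prop) :
    ∑ i, wt lg (g i) = m + 13 * cnt (fun i => ∃ p, g i = .inr p ∧ lg p) := by
  rw [cnt_eq]
  have : ∀ i, wt lg (g i) = 1 + 13 * (if ∃ p, g i = .inr p ∧ lg p then 1 else 0) := by
    intro i
    rcases g i with x | p
    · simp [wt]
    · by_cases h : lg p <;> simp [wt, h]
  simp only [this]
  rw [sum_add_distrib, ← mul_sum, ← card_filter]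
  simp

theorem stp_mono {At : ZMod n → N → Prop} (h : ∀ x p, E x p → At x p) :
    ∀ u v, Stp E u v → Stp At u v := by
  rintro (x | p) (y | q) h'
  · exact h'
  · exact h _ _ h'
  · exact h _ _ h'
  · exact h'

theorem split {α : Type} [Fintype α] (P : α → Prop) :
    cnt P + cnt (fun a => ¬ P a) = Fintype.card α := by
  rw [cnt_eq, cnt_eq, card_filter_add_card_filter_not, card_univ]

theorem or_and {α : Type} [Fintype α] (P Q : α → Prop) :
    cnt (fun a => P a ∨ Q a) + cnt (fun a => P a ∧ Q a) = cnt P + cnt Q := by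
  rw [cnt_eq, cnt_eq, cnt_eq P, cnt_eq Q, filter_or, filter_and, card_union_add_card_inter]

theorem not_both {α : Type} [Fintype α] (P Q : α → Prop) :
    cnt (fun a => ¬ (P a ∧ Q a)) ≤ cnt (fun a => ¬ P a) + cnt (fun a => ¬ Q a) := by
  rw [← or_and]
  exact (cnt_mono fun a h => not_and_or.1 h).trans (Nat.le_add_right _ _)

theorem none {α : Type} [Fintype α] {P : α → Prop} (h : cnt P = 0) (a : α) : ¬ P a := fun ha => by
  have := cnt_pos.2 ⟨a, ha⟩
  omega

theorem out_le {α : Type} [Fintype α] (U P Q : α → Prop) (h : ∀ a, U a → ¬ P a ∧ ¬ Q a) :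
    cnt (fun a => P a ∨ Q a) + cnt (fun a => ¬ U a ∧ ¬ (P a ∨ Q a)) ≤ cnt (fun a => ¬ U a) := by
  rw [← or_and]
  have h1 : ¬ 0 < cnt (fun a => (P a ∨ Q a) ∧ ¬ U a ∧ ¬ (P a ∨ Q a)) := fun h' => by
    obtain ⟨a, ha⟩ := cnt_pos.1 h'
    exact ha.2.2 ha.1
  have h2 : cnt (fun a => (P a ∨ Q a) ∨ ¬ U a ∧ ¬ (P a ∨ Q a)) ≤ cnt (fun a => ¬ U a) :=
    cnt_mono fun a ha => by have := h a; tauto
  omega

end TieAux

open TieAux in
theorem t_tie : T_Tie := by
  intro n _ N _ _ At E lg hL hE A W hW hR m _ hm g ginj gadj gcov hub M hM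
  have hA : ∀ a, M a → A a := fun a h => by
    by_contra h'; exact (hM a).1 h (gcov a h')
  have s1 := hL m hm g ginj fun i => stp_mono hE _ _ (gadj i)
  rw [sum_wt] at s1
  have s2 := split (fun i => ∃ x, g i = .inl x)
  have s3 := split (fun i => (∃ x, g i = .inl x) ∧ ∃ y, g (i + 1) = .inl y)
  have s4 := not_both (fun i => ∃ x, g i = .inl x) (fun i => ∃ y, g (i + 1) = .inl y)
  have s5 := shift (fun i => ¬ ∃ x, g i = .inl x)
  have s6 := both_le hm ginj gadj
  have s7 := split (fun x => Us g (.inl x) (.inl (x + 1)))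
  have s8 := out_le (fun x => Us g (.inl x) (.inl (x + 1))) M (fun x => M (x + 1)) (by
    rintro x ⟨i, ⟨h1, h2⟩ | ⟨h1, h2⟩⟩
    · exact ⟨fun h => (hM _).1 h ⟨_, h1⟩, fun h => (hM _).1 h ⟨_, h2⟩⟩
    · exact ⟨fun h => (hM _).1 h ⟨_, h2⟩, fun h => (hM _).1 h ⟨_, h1⟩⟩)
  have s9 := or_and M (fun x => M (x + 1))
  have s10 := shift M
  have s11 := split M
  have s12 : cnt (fun a => ¬ M a) ≤ cnt (fun i => ∃ x, g i = .inl x) :=
    (cnt_mono fun a ha => by rwa [hM, not_not] at ha).trans vis_le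
  have s13 := miss_le hW hR hm ginj gadj hM hA
  have s14 : cnt (fun a => M a ∧ M (a + 1)) ≤ cnt (fun a => M a ∧ ¬ Sg A a) :=
    cnt_mono fun a ha => ⟨ha.1, fun h => h.1 (hA _ ha.2)⟩
  have s15 : 0 < cnt (fun i => ¬ ∃ x, g i = .inl x) := by
    obtain ⟨i, p, hi⟩ := hub
    exact cnt_pos.2 ⟨i, by simp [hi]⟩
  simp only [ZMod.card] at s2 s3 s7 s11
  have z1 : cnt (fun i => ∃ p, g i = .inr p ∧ lg p) = 0 := by omega
  have z2 : cnt (fun a => M a ∧ ¬ Sg A a) = 0 := by omega
  have z3 : cnt (fun x => ¬ Us g (.inl x) (.inl (x + 1)) ∧ ¬ (M x ∨ M (x + 1))) = 0 := by omega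
  have z4 : 0 < cnt M := by omega
  refine ⟨fun i p hi hp => none z1 i ⟨p, hi, hp⟩, cnt_pos.1 z4, fun a ha => ?_, fun x hx => ?_⟩
  · have hs : Sg A a := by by_contra h; exact none z2 a ⟨ha, h⟩
    have hk : ∀ x, W x → ¬ M x → ¬ (M (x + 1) ∨ M (x - 1)) := fun x hx h1 h2 => by
      obtain ⟨i, hi⟩ : ∃ i, g i = .inl x := by by_contra h; exact h1 ((hM x).2 h)
      exact (TieAux.key hW hm ginj gadj hM hx h2 hi).elim (none z1 _) (none z1 _)
    exact ⟨hs, fun h => hk _ h (fun h' => hs.1 (hA _ h')) (Or.inr (by rwa [add_sub_cancel_right])),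
      fun h => hk _ h (fun h' => hs.2 (hA _ h')) (Or.inl (by rwa [sub_add_cancel]))⟩
  · by_contra h; exact none z3 x ⟨hx, h⟩

end Pool.Agent.MP_ee574f_co.CD

end

section

set_option autoImplicit false

namespace Pool.Agent.MP_ee574f_co.CD

open SimpleGraph Classical Finset Function

namespace LevelAux

variable {E B X : Type}

/-- the admissible partners of a pair -/
noncomputable def tt (Q : B → Finset E) (d : B → ℕ) (D : ℕ) (β : B) (v : E) :
    Finset ((E × ℕ) ⊕ (B × ℕ)) :=
  ({v} ×ˢ range D).disjSum ({β} ×ˢ range ((Q β).card - d β))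

lemma hall [Fintype E] [Fintype B] (Q : B → Finset E) (d : B → ℕ) (D : ℕ)
    (h1 : ∀ β, d β ≤ (Q β).card)
    (h2 : ∀ U : Finset E, ∑ β, (d β - (Q β \ U).card) ≤ D * U.card)
    (s : Finset {p : B × E // p.2 ∈ Q p.1}) :
    s.card ≤ (s.biUnion fun p => tt Q d D p.1.1 p.1.2).card := by
  set U := s.image fun p => p.1.2 with hU
  set B' := s.image fun p => p.1.1 with hB
  have a1 : (U ×ˢ range D).disjSum (B'.biUnion fun β => {β} ×ˢ range ((Q β).card - d β)) ⊆
      s.biUnion fun p => tt Q d D p.1.1 p.1.2 := by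
    rintro (⟨v, j⟩ | ⟨β, j⟩) h
    · simp only [inl_mem_disjSum, mem_product, hU, mem_image] at h
      obtain ⟨⟨p, hp, rfl⟩, hj⟩ := h
      exact mem_biUnion.2 ⟨p, hp, by simpa [tt] using hj⟩
    · simp only [inr_mem_disjSum, mem_biUnion, mem_product, mem_singleton, hB, mem_image] at h
      obtain ⟨_, ⟨p, hp, rfl⟩, rfl, hj⟩ := h
      exact mem_biUnion.2 ⟨p, hp, by simpa [tt] using hj⟩
  have a2 := card_le_card a1
  rw [card_disjSum, card_product, card_range, card_biUnion (by
    intro a _ b _ hab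
    rw [Function.onFun, Finset.disjoint_left]
    rintro ⟨x, j⟩ hx hy
    simp only [mem_product, mem_singleton] at hx hy
    exact hab (hx.1.symm.trans hy.1))] at a2
  simp only [card_product, card_singleton, card_range, one_mul] at a2
  have a3 : s.card ≤ ∑ β ∈ B', (Q β ∩ U).card := by
    rw [card_eq_sum_card_image (fun p => p.1.1) s]
    refine sum_le_sum fun β _ => card_le_card_of_injOn (fun p => p.1.2) (fun p hp => ?_) ?_
    · simp only [coe_filter, Set.mem_ofPred_eq] at hp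
      obtain ⟨hp, rfl⟩ := hp
      exact mem_coe.2 (mem_inter.2 ⟨p.2, mem_image_of_mem _ hp⟩)
    · intro p hp q hq e
      simp only [coe_filter, Set.mem_ofPred_eq] at hp hq
      exact Subtype.ext (Prod.ext (hp.2.trans hq.2.symm) e)
  have a4 : ∑ β ∈ B', (Q β ∩ U).card ≤
      ∑ β ∈ B', ((Q β).card - d β) + ∑ β ∈ B', (d β - (Q β \ U).card) := by
    rw [← sum_add_distrib]
    refine sum_le_sum fun β _ => ?_
    have := card_sdiff_add_card_inter (Q β) U
    have := h1 β
    omega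
  have a5 : ∑ β ∈ B', (d β - (Q β \ U).card) ≤ ∑ β, (d β - (Q β \ U).card) :=
    sum_le_sum_of_subset (subset_univ _)
  have a6 := h2 U
  rw [mul_comm] at a6
  omega

end LevelAux

open LevelAux in
theorem t_trans : T_Trans := by
  intro E B _ _ Q d D h1 h2
  obtain ⟨f, hf, hm⟩ := (all_card_le_biUnion_card_iff_exists_injective
    (fun p : {p : B × E // p.2 ∈ Q p.1} => tt Q d D p.1.1 p.1.2)).1 (hall Q d D h1 h2)
  let g : B → E → ℕ := fun β v =>
    if h : v ∈ Q β then Sum.elim Prod.snd Prod.snd (f ⟨(β, v), h⟩) else 0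
  have key : ∀ β v (h : v ∈ Q β), (f ⟨(β, v), h⟩ = Sum.inl (v, g β v) ∧ g β v < D) ∨
      (f ⟨(β, v), h⟩ = Sum.inr (β, g β v) ∧ g β v < (Q β).card - d β) := by
    intro β v h
    have h3 := hm ⟨(β, v), h⟩
    simp only [g, dif_pos h]
    generalize f ⟨(β, v), h⟩ = y at h3
    rcases y with ⟨w, j⟩ | ⟨γ, j⟩
    · simp only [tt, inl_mem_disjSum, mem_product, mem_singleton, mem_range] at h3
      exact Or.inl ⟨by rw [h3.1]; rfl, h3.2⟩
    · simp only [tt, inr_mem_disjSum, mem_product, mem_singleton, mem_range] at h3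
      exact Or.inr ⟨by rw [h3.1]; rfl, h3.2⟩
  let T : B → Finset E := fun β =>
    (Q β).filter fun v => ∃ h : v ∈ Q β, f ⟨(β, v), h⟩ = Sum.inl (v, g β v) ∧ g β v < D
  refine ⟨T, fun β => filter_subset _ _, fun β => ?_, fun v => ?_⟩
  · have a0 : ∀ v ∈ Q β \ T β, ∃ h : v ∈ Q β,
        f ⟨(β, v), h⟩ = Sum.inr (β, g β v) ∧ g β v < (Q β).card - d β := fun v hv => by
      obtain ⟨h, h'⟩ := mem_sdiff.1 hv
      exact ⟨h, (key β v h).resolve_left fun e => h' (mem_filter.2 ⟨h, h, e⟩)⟩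
    have a1 : (Q β \ T β).card ≤ (range ((Q β).card - d β)).card := by
      refine card_le_card_of_injOn (g β) (fun v hv => ?_) fun v hv w hw e => ?_
      · obtain ⟨_, -, h⟩ := a0 v hv
        exact mem_coe.2 (mem_range.2 h)
      · obtain ⟨_, h, -⟩ := a0 v hv
        obtain ⟨_, h', -⟩ := a0 w hw
        rw [e, ← h'] at h
        exact congrArg (fun p => p.1.2) (hf h)
    rw [card_range, card_sdiff_of_subset (filter_subset _ _)] at a1
    have := h1 β
    have : (T β).card ≤ (Q β).card := card_le_card (filter_subset _ _)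
    change (Q β).card - (T β).card ≤ _ at a1
    omega
  · rw [← card_range D]
    refine card_le_card_of_injOn (fun β => g β v) (fun β hβ => ?_) fun β hβ γ hγ e => ?_
    · obtain ⟨-, _, -, h⟩ := mem_filter.1 (mem_filter.1 hβ).2
      exact mem_coe.2 (mem_range.2 h)
    · obtain ⟨-, _, h, -⟩ := mem_filter.1 (mem_filter.1 hβ).2
      obtain ⟨-, _, h', -⟩ := mem_filter.1 (mem_filter.1 hγ).2
      have e' : g β v = g γ v := e
      rw [e', ← h'] at h
      exact congrArg (fun p => p.1.1) (hf h)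

namespace LevelAux

variable {E B X : Type}

lemma cut [Fintype E] [Fintype B] (R : B → Finset E) (Rm : Finset E) (hR : ∀ β, R β ⊆ Rm)
    (act : Finset B) (d : B → ℕ) (D : ℕ) : ∃ P ⊆ Rm, D * P.card ≤ ∑ β ∈ act, d β ∧
      ∃ T : B → Finset E, (∀ β, T β ⊆ R β \ P) ∧
        (∀ β ∈ act, min (d β) (R β \ P).card ≤ (T β).card) ∧
        ∀ v, (univ.filter (fun β => v ∈ T β)).card ≤ D := by
  obtain ⟨P, hP, hmax⟩ := exists_max_image Rm.powerset
    (fun P => ((∑ β ∈ act, (d β - (R β \ P).card) : ℕ) : ℤ) - ((D * P.card : ℕ) : ℤ))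
    ⟨∅, empty_mem_powerset _⟩
  have hP' := mem_powerset.1 hP
  refine ⟨P, hP', ?_, ?_⟩
  · have h1 := hmax ∅ (empty_mem_powerset _)
    have h2 : ∑ β ∈ act, (d β - (R β \ P).card) ≤ ∑ β ∈ act, d β :=
      sum_le_sum fun β _ => Nat.sub_le _ _
    rw [card_empty, mul_zero] at h1
    omega
  obtain ⟨T, t1, t2, t3⟩ := t_trans E B (fun β => R β \ P)
    (fun β => if β ∈ act then min (d β) (R β \ P).card else 0) D
    (fun β => by split_ifs <;> simp) fun U => by
      have h1 := hmax (P ∪ U ∩ Rm) (mem_powerset.2 (union_subset hP' inter_subset_right))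
      have h2 : D * (P ∪ U ∩ Rm).card ≤ D * P.card + D * U.card := by
        rw [← mul_add]
        exact Nat.mul_le_mul_left _ ((card_union_le _ _).trans
          (Nat.add_le_add_left (card_le_card inter_subset_left) _))
      have h3 : ∑ β, ((if β ∈ act then min (d β) (R β \ P).card else 0) - ((R β \ P) \ U).card) =
          ∑ β ∈ act, (min (d β) (R β \ P).card - ((R β \ P) \ U).card) := by
        rw [← sum_subset (subset_univ act) fun β _ h => by simp [h]]
        exact sum_congr rfl fun β h => by rw [if_pos h]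
      have h4 : ∑ β ∈ act, (min (d β) (R β \ P).card - ((R β \ P) \ U).card) +
          ∑ β ∈ act, (d β - (R β \ P).card) = ∑ β ∈ act, (d β - (R β \ (P ∪ U ∩ Rm)).card) := by
        rw [← sum_add_distrib]
        refine sum_congr rfl fun β _ => ?_
        have e : R β \ (P ∪ U ∩ Rm) = (R β \ P) \ U := by
          ext v
          have := @hR β v
          simp only [mem_sdiff, mem_union, mem_inter]
          tauto
        have : ((R β \ P) \ U).card ≤ (R β \ P).card := card_le_card sdiff_subset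
        rw [e]
        omega
      rw [h3]
      omega
  exact ⟨T, t1, fun β h => by simpa only [if_pos h] using t2 β, t3⟩

lemma main [Fintype E] [Fintype B] (own : B → E) (c z : ℕ)
    (hc : ∀ v, (univ.filter (fun β => own β = v)).card ≤ c) (rch : B → X → Prop)
    (Z : X → Finset E) (Rq : B → Finset E) (hq : ∀ β x, rch β x → Z x ⊆ Rq β) (Rm : Finset E) :
    ∀ (act : Finset B) (d : B → ℕ), (∀ β ∈ act, own β ∈ Rm) → (∀ β, d β ≤ z) →
      (∀ β ∈ act, ∀ x, rch β x → d β ≤ (Z x ∩ Rm).card) →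
      ∃ (l : E → ℕ) (T : B → Finset E), (∀ β, T β ⊆ Rq β ∩ Rm) ∧
        (∀ v, (univ.filter (fun β => v ∈ T β)).card ≤ c * z + 1) ∧
        ∀ β ∈ act, d β ≤ (T β).card ∨ ∀ x, rch β x → ∃ v ∈ Z x ∩ Rm, l (own β) < l v := by
  induction Rm using Finset.strongInduction with
  | H Rm ih =>
    intro act d h1 h2 h3
    by_cases h0 : Rm = ∅
    · exact ⟨0, fun _ => ∅, fun _ => empty_subset _, fun v => by simp,
        fun β h => absurd (h1 β h) (by simp [h0])⟩
    obtain ⟨P, hP, p1, T0, t1, t2, t3⟩ :=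
      cut (fun β => Rq β ∩ Rm) Rm (fun _ => inter_subset_right) act d (c * z + 1)
    have hlt : P ⊂ Rm := by
      refine ssubset_of_subset_not_subset hP fun h => ?_
      have a1 : ∑ β ∈ act, d β ≤ act.card * z := by
        simpa using sum_le_card_nsmul act d z fun β _ => h2 β
      have a2 : act.card ≤ c * Rm.card :=
        card_le_mul_card_image_of_maps_to h1 c fun v _ =>
          (card_le_card (filter_subset_filter _ (subset_univ _))).trans (hc v)
      have a3 := card_le_card h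
      have a4 := card_pos.2 (nonempty_iff_ne_empty.2 h0)
      have a5 := Nat.mul_le_mul_right z a2
      have a6 := Nat.mul_le_mul_left (c * z + 1) a3
      nlinarith
    have hZ : ∀ β ∈ act, ∀ x, rch β x → d β - ((Rq β ∩ Rm) \ P).card ≤ (Z x ∩ P).card := by
      intro β hβ x hx
      have a1 : Z x ∩ Rm ⊆ Z x ∩ P ∪ (Rq β ∩ Rm) \ P := fun v hv => by
        have := @hq β x hx v
        simp only [mem_sdiff, mem_union, mem_inter] at hv ⊢
        tauto
      have a2 := (card_le_card a1).trans (card_union_le _ _)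
      have := h3 β hβ x hx
      omega
    obtain ⟨l, T, u1, u2, u3⟩ := ih P hlt (act.filter fun β => own β ∈ P)
      (fun β => d β - ((Rq β ∩ Rm) \ P).card) (fun β h => (mem_filter.1 h).2)
      (fun β => (Nat.sub_le _ _).trans (h2 β)) fun β h => hZ β (mem_filter.1 h).1
    have hd : ∀ β γ v, v ∈ T0 β → v ∉ T γ := fun β γ v a b =>
      (mem_sdiff.1 (t1 β a)).2 (mem_inter.1 (u1 γ b)).2
    refine ⟨fun v => if v ∈ P then l v + 1 else 0, fun β => T0 β ∪ T β, fun β => ?_, fun v => ?_,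
      fun β hβ => ?_⟩
    · exact union_subset ((t1 β).trans sdiff_subset) ((u1 β).trans (inter_subset_inter_left hP))
    · by_cases hv : v ∈ P
      · refine le_trans (card_le_card fun β h => ?_) (u2 v)
        simp only [mem_filter, mem_univ, true_and, mem_union] at h ⊢
        exact h.resolve_left fun a => (mem_sdiff.1 (t1 β a)).2 hv
      · refine le_trans (card_le_card fun β h => ?_) (t3 v)
        simp only [mem_filter, mem_univ, true_and, mem_union] at h ⊢
        exact h.resolve_right fun a => hv (mem_inter.1 (u1 β a)).2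
    have e : (T0 β ∪ T β).card = (T0 β).card + (T β).card :=
      card_union_of_disjoint (Finset.disjoint_left.2 fun v => hd β β v)
    have a1 := t2 β hβ
    by_cases ho : own β ∈ P
    · rcases u3 β (mem_filter.2 ⟨hβ, ho⟩) with a2 | a2
      · left
        simp only at a1 a2 ⊢
        omega
      · refine Or.inr fun x hx => ?_
        obtain ⟨v, hv, a3⟩ := a2 x hx
        refine ⟨v, inter_subset_inter_left hP hv, ?_⟩
        simp only [if_pos ho, if_pos (mem_inter.1 hv).2]
        omega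
    by_cases a2 : d β ≤ ((Rq β ∩ Rm) \ P).card
    · left
      simp only at a1 ⊢
      omega
    · refine Or.inr fun x hx => ?_
      have a3 := hZ β hβ x hx
      obtain ⟨v, hv⟩ := card_pos.1 (show 0 < (Z x ∩ P).card by omega)
      refine ⟨v, inter_subset_inter_left hP hv, ?_⟩
      simp only [if_neg ho, if_pos (mem_inter.1 hv).2]
      omega

end LevelAux

theorem t_level : T_Level := by
  intro E B X _ _ _ own c z hc rch Z hz
  obtain ⟨l, T, h1, h2, h3⟩ := LevelAux.main own c z hc rch Z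
    (fun β => univ.filter fun v => ∃ x, rch β x ∧ v ∈ Z x)
    (fun β x hx v hv => mem_filter.2 ⟨mem_univ _, x, hx, hv⟩) univ univ (fun _ => z)
    (fun _ _ => mem_univ _) (fun _ => le_rfl) fun β _ x hx => by simpa using hz β x hx
  refine ⟨l, T, fun β v hv => (mem_filter.1 (mem_inter.1 (h1 β hv)).1).2, h2, fun β => ?_⟩
  simpa using h3 β (mem_univ _)

end Pool.Agent.MP_ee574f_co.CD

end

section

set_option autoImplicit false

namespace Pool.Agent.MP_ee574f_co.CD

open SimpleGraph Classical Finset Function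

namespace SparseAux

theorem small_ne {n : ℕ} (hn : 3 ≤ n) (k : ℕ) (h0 : 0 < k) (h2 : k ≤ 2) : (k : ZMod n) ≠ 0 := by
  intro h
  have := Nat.le_of_dvd h0 ((ZMod.natCast_eq_zero_iff _ _).1 h)
  omega

/-- disjoint blocks of a given size inside a set -/
theorem blocks {α : Type} (S : Finset α) (c z : ℕ) (h : c * z ≤ S.card) :
    ∃ B : Fin z → Finset α, (∀ j, B j ⊆ S) ∧ (∀ j, c ≤ (B j).card) ∧
      ∀ j j', ∀ x ∈ B j, x ∈ B j' → j = j' := by
  obtain ⟨e⟩ : Nonempty (Fin z × Fin c ↪ S) := by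
    apply Function.Embedding.nonempty_of_card_le
    rw [Fintype.card_prod, Fintype.card_fin, Fintype.card_fin, Fintype.card_coe, mul_comm]
    exact h
  refine ⟨fun j => univ.image (fun t => (e (j, t)).1), fun j x hx => ?_, fun j => ?_,
    fun j j' x hx hx' => ?_⟩
  · obtain ⟨t, -, rfl⟩ := mem_image.1 hx
    exact (e (j, t)).2
  · rw [card_image_of_injective _ (fun t t' h => (Prod.mk.inj (e.injective (Subtype.ext h))).2),
      card_univ, Fintype.card_fin]
  · obtain ⟨t, -, rfl⟩ := mem_image.1 hx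
    obtain ⟨t', -, h⟩ := mem_image.1 hx'
    exact (Prod.mk.inj (e.injective (Subtype.ext h))).1.symm

end SparseAux

open SparseAux

theorem t_sparse : T_Sparse := by
  intro n _ hn η _ T L z hL hT hdeg
  choose B B1 B2 B3 using fun h => blocks (T h) (429 * L) z (hT h)
  let good : ZMod n → (ZMod n → Bool) → Prop := fun s ω =>
    ω s = true ∧ ω (s - 1) = false ∧ ω (s - 2) = false
  have key := lll_atoms (η := η × Fin z) (fun s : ZMod n => ({s, s - 1, s - 2} : Finset (ZMod n)))
    (fun s ω => ¬ good s ω) (fun q => B q.1 q.2) (2 ^ L) L hL le_rfl ?_ ?_ ?_ ?_ ?_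
    (fun q => B2 q.1 q.2)
  · obtain ⟨ω, hω⟩ := key
    choose p p1 p2 using hω
    refine ⟨fun s => good s ω, fun i h => ⟨fun h' => ?_, fun h' => ?_⟩, fun h => ?_⟩
    · have := h'.2.1
      rw [add_sub_cancel_right, h.1] at this
      cases this
    · have := h'.2.2
      rw [add_sub_cancel_right, h.1] at this
      cases this
    · refine le_trans (by rw [card_univ, Fintype.card_fin])
        (card_le_card_of_injOn (s := (univ : Finset (Fin z))) (fun j => p (h, j)) ?_ ?_)
      · intro j _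
        exact mem_coe.2 ((@mem_filter _ _ (_) _ _).2 ⟨B1 h j (p1 (h, j)), not_not.1 (p2 (h, j))⟩)
      · intro j _ j' _ e
        exact B3 h j j' _ (p1 (h, j)) (by
          have := p1 (h, j')
          have e' : p (h, j) = p (h, j') := e
          rw [e']
          exact this)
  · intro s
    exact card_le_three.trans (by norm_num)
  · intro s ω ω' h hg hg'
    refine hg ⟨?_, ?_, ?_⟩
    · rw [h _ (by simp)]; exact hg'.1
    · rw [h _ (by simp)]; exact hg'.2.1
    · rw [h _ (by simp)]; exact hg'.2.2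
  · intro _ s _
    have h1 : s - 1 ≠ s := fun e => small_ne hn 1 (by norm_num) (by norm_num) (by
      push_cast
      linear_combination -e)
    have h2 : s - 2 ≠ s := fun e => small_ne hn 2 (by norm_num) (by norm_num) (by
      push_cast
      linear_combination -e)
    exact ⟨fun v => decide (v = s), not_not.2 ⟨by simp, by simp [h1], by simp [h2]⟩⟩
  · intro v
    refine le_trans (card_le_card (t := {v, v + 1, v + 2}) ?_) (card_le_three.trans (by norm_num))
    intro s hs
    have := (mem_filter.1 hs).2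
    simp only [mem_insert, mem_singleton] at this
    rcases this with rfl | rfl | rfl <;> simp
  · intro s
    refine le_trans (card_le_card_of_injOn Prod.fst ?_ ?_) (hdeg s)
    · intro q hq
      exact mem_coe.2 (mem_filter.2 ⟨mem_univ _, B1 _ _ (mem_filter.1 (mem_coe.1 hq)).2⟩)
    · rintro ⟨h, j⟩ hq ⟨h', j'⟩ hq' e
      cases e
      rw [B3 h j j' s (mem_filter.1 (mem_coe.1 hq)).2 (mem_filter.1 (mem_coe.1 hq')).2]

theorem t_stage2 : T_Stage2 := by
  intro n _ ι η _ _ e re L hL hinj hsep T hT hdeg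
  let good : ZMod n → (ι → Bool) → Prop := fun s ω =>
    ∀ i, re i (ω i) → e i (ω i) ≠ s + 1 ∧ e i (ω i) ≠ s - 1
  let vars : ZMod n → Finset ι := fun s =>
    univ.filter (fun i => ∃ b, re i b ∧ e i b = s + 1) ∪
      univ.filter (fun i => ∃ b, re i b ∧ e i b = s - 1)
  have hone : ∀ v, (univ.filter (fun i => ∃ b, re i b ∧ e i b = v)).card ≤ 1 := by
    intro v
    refine card_le_one.2 ?_
    intro q hq q' hq'
    obtain ⟨b, r, h⟩ := (mem_filter.1 hq).2
    obtain ⟨b', r', h'⟩ := (mem_filter.1 hq').2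
    exact hinj q b q' b' r r' (h.trans h'.symm)
  have key := lll_atoms vars (fun s ω => ¬ good s ω) T (2 ^ L) L hL le_rfl ?_ ?_ ?_ ?_ ?_ hT
  · obtain ⟨ω, hω⟩ := key
    refine ⟨ω, fun h => ?_⟩
    obtain ⟨s, hs, hg⟩ := hω h
    exact ⟨s, hs, not_not.1 hg⟩
  · intro s
    have h1 := hone (s + 1)
    have h2 := hone (s - 1)
    refine (card_union_le _ _).trans ?_
    omega
  · intro s ω ω' h hg hg'
    refine hg fun q hq => ⟨fun a => ?_, fun a => ?_⟩
    · have := h q (mem_union_left _ (mem_filter.2 ⟨mem_univ _, _, hq, a⟩))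
      exact (hg' q (this ▸ hq)).1 (this ▸ a)
    · have := h q (mem_union_right _ (mem_filter.2 ⟨mem_univ _, _, hq, a⟩))
      exact (hg' q (this ▸ hq)).2 (this ▸ a)
  · intro _ s _
    have : ∀ i, ∃ b, re i b → e i b ≠ s + 1 ∧ e i b ≠ s - 1 := by
      intro i
      by_contra h0
      have h1 : ∀ b, re i b ∧ (e i b = s + 1 ∨ e i b = s - 1) := by
        intro b
        by_contra h2
        exact h0 ⟨b, fun r => ⟨fun a => h2 ⟨r, Or.inl a⟩, fun a => h2 ⟨r, Or.inr a⟩⟩⟩
      obtain ⟨a1, a2, a3⟩ := hsep i (h1 false).1 (h1 true).1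
      rcases (h1 false).2 with a | a <;> rcases (h1 true).2 with b | b
      · exact a1 (a.trans b.symm)
      · exact a2 (by rw [a, b]; ring)
      · exact a3 (by rw [a, b]; ring)
      · exact a1 (a.trans b.symm)
    choose b hb using this
    exact ⟨b, not_not.2 hb⟩
  · intro q
    refine le_trans (card_le_card
      (t := {e q true + 1, e q false + 1, e q true - 1, e q false - 1}) ?_) card_le_four
    intro s hs
    rcases mem_union.1 (mem_filter.1 hs).2 with h | h
    · obtain ⟨b, -, a⟩ := (mem_filter.1 h).2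
      have : s = e q b - 1 := by rw [a]; ring
      cases b <;> simp [this]
    · obtain ⟨b, -, a⟩ := (mem_filter.1 h).2
      have : s = e q b + 1 := by rw [a]; ring
      cases b <;> simp [this]
  · intro s
    exact hdeg s

end Pool.Agent.MP_ee574f_co.CD

end

section

set_option autoImplicit false

namespace Pool.Agent.MP_ee574f_co.CD

open SimpleGraph Classical Finset Function

namespace HallAux

theorem short {V : Type} [Fintype V] {G : SimpleGraph V} {g : ℕ} {R : V → Prop} {v : V}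
    {l : List V} (hl : Tail G R v l)
    (hmin : ∀ l', Tail G R v l' → g ≤ l'.length → l.length ≤ l'.length) (r : V) (hr : r ∉ l)
    (hrv : r ≠ v) : (univ.filter (fun w => G.Adj r w ∧ w ∈ l)).card ≤ g + 3 := by
  by_contra hcon
  have h1 : (univ.filter (fun w => G.Adj r w ∧ w ∈ l)).card ≤ l.countP (fun x => G.Adj r x) := by
    rw [List.countP_eq_length_filter]
    refine le_trans (card_le_card fun w hw => ?_) (List.toFinset_card_le _)
    simp only [mem_filter, mem_univ, true_and] at hw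
    simp [hw.1, hw.2]
  obtain ⟨l1, a, l2, rfl, h2, ha, h3⟩ := tail_split (G.Adj r) l g (by omega)
  obtain ⟨l3, b, l4, rfl, h4, hb, -⟩ := tail_split (G.Adj r) l2 2 (by omega)
  obtain ⟨-, hN, hR, y, hy, hyv, hc⟩ := tail_iff.1 hl
  simp only [List.append_assoc, List.cons_append] at hc
  have c1 := (tail_glue.1 hc).1
  have c3 := (tail_glue.1 (tail_glue.1 hc).2).2
  by_cases hRr : R r
  · have := hmin (l1 ++ a :: r :: b :: l4) (tail_iff.2 ⟨by simp, ?_, fun x hx => ?_, y, hy, hyv, ?_⟩)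
      (by simp; omega)
    · simp at this; omega
    · have h5 := List.nodup_iff_count_le_one.1 (List.nodup_cons.2 ⟨hr, hN⟩)
      refine List.nodup_iff_count_le_one.2 fun x => le_trans ?_ (h5 x)
      simp only [List.count_append, List.count_cons]; omega
    · simp only [List.mem_append, List.mem_cons] at hx hR
      rcases hx with h | h | h | h | h
      · exact hR x (by simp [h])
      · exact hR x (by simp [h])
      · exact h ▸ hRr
      · exact hR x (by simp [h])
      · exact hR x (by simp [h])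
    · simp only [List.append_assoc, List.cons_append]
      exact tail_glue.2 ⟨c1, List.IsChain.cons_cons ha.symm (List.IsChain.cons_cons hb c3)⟩
  · have := hmin (l1 ++ [a]) (tail_iff.2 ⟨by simp, ?_, fun x hx => ?_, r, hRr, hrv, ?_⟩)
      (by simp; omega)
    · simp at this
    · have h5 := List.nodup_iff_count_le_one.1 hN
      refine List.nodup_iff_count_le_one.2 fun x => le_trans ?_ (h5 x)
      simp only [List.count_append, List.count_cons, List.count_nil]; omega
    · refine hR x ?_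
      simp only [List.mem_append, List.mem_cons] at hx ⊢
      tauto
    · simp only [List.append_assoc, List.cons_append, List.nil_append]
      exact tail_glue.2 ⟨c1, by simpa using ha.symm⟩

theorem first {V : Type} [Fintype V] {G : SimpleGraph V}
    (hconn : ∀ s : V, (G.induce ({s}ᶜ : Set V)).Connected) {g : ℕ} {R Rich : V → Prop} {v p u : V}
    (hv : ¬ R v) (hp : R p) (hvp : G.Adj v p) (hu : ¬ R u) (huv : u ≠ v)
    (hdeg : ∀ r, R r → ¬ Rich r → g * g ≤ (univ.filter (fun w => G.Adj r w ∧ R w)).card)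
    (hpr : ¬ Rich p) : ∃ l, Tail G (fun w => R w ∧ ¬ Rich w) v l ∧
      (g ≤ l.length ∨ ∃ b ∈ l.getLast?, ∃ z, G.Adj b z ∧ R z ∧ Rich z) := by
  by_cases hA : ∃ r, (Ins G fun w => R w ∧ ¬ Rich w).Reachable p r ∧ (R r ∧ ¬ Rich r) ∧
      ∃ z, G.Adj r z ∧ R z ∧ Rich z
  · obtain ⟨r, h1, -, z, h2, h3, h4⟩ := hA
    obtain ⟨l, n1, n2, n3, n4, n5⟩ := ins_path (T := fun w => R w ∧ ¬ Rich w) ⟨hp, hpr⟩ h1
    exact ⟨l, ⟨n1, n2, n3, ⟨p, n4, hvp⟩, r, n5, z, h2, fun h => h.2 h4, fun h => hv (h ▸ h3)⟩,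
      Or.inr ⟨r, n5, z, h2, h3, h4⟩⟩
  · obtain ⟨l, ⟨n1, n2, n3, n4, b, hb, z, hz, hz', hzv⟩, hl⟩ := tail_long G hconn g
      (fun w => (Ins G fun w => R w ∧ ¬ Rich w).Reachable p w ∧ (R w ∧ ¬ Rich w)) v p u
      (fun h => hv h.2.1) ⟨Reachable.refl _, hp, hpr⟩ hvp (fun h => hu h.2.1) huv fun r hr => by
        refine (hdeg r hr.2.1 hr.2.2).trans (card_le_card fun w hw => ?_)
        simp only [mem_filter, mem_univ, true_and] at hw ⊢
        have hw' : ¬ Rich w := fun h => hA ⟨r, hr.1, hr.2, w, hw.1, hw.2, h⟩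
        exact ⟨hw.1, hr.1.trans (Adj.reachable ⟨hw.1, hr.2, hw.2, hw'⟩), hw.2, hw'⟩
    have hb' := n3 b (List.mem_of_mem_getLast? hb)
    exact ⟨l, ⟨n1, n2, fun w hw => (n3 w hw).2, n4, b, hb, z, hz,
      fun h => hz' ⟨hb'.1.trans (Adj.reachable ⟨hz, hb'.2, h⟩), h⟩, hzv⟩, Or.inl hl⟩

end HallAux

theorem t_hall : T_Hall := by
  intro α β _ _ r P m k hk h1 h2
  rcases Nat.eq_zero_or_pos m with rfl | hm
  · exact ⟨fun _ => ∅, fun _ _ => Nat.zero_le _, by simp, by simp⟩
  obtain ⟨ψ, hψ, hr⟩ : ∃ ψ : {a // P a} × Fin m → β, Injective ψ ∧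
      ∀ x, ψ x ∈ univ.filter (fun b => r x.1.1 b) := by
    refine (all_card_le_biUnion_card_iff_exists_injective
      (fun x : {a // P a} × Fin m => univ.filter (fun b => r x.1.1 b))).1 fun s => ?_
    have := card_mul_le_card_mul (s := s)
      (t := s.biUnion fun x => univ.filter (fun b => r x.1.1 b)) (m := m * k) (n := m * k)
      (fun x b => r x.1.1 b) ?_ ?_
    · exact Nat.le_of_mul_le_mul_right this (Nat.mul_pos hm hk)
    · intro x hx
      refine (h1 x.1.1 x.1.2).trans (card_le_card fun b hb => ?_)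
      exact (mem_bipartiteAbove _).2 ⟨mem_biUnion.2 ⟨x, hx, hb⟩, (mem_filter.1 hb).2⟩
    · intro b _
      have h3 : ((univ : Finset (Fin m)) ×ˢ univ.filter (fun a => r a b)).card ≤ m * k := by
        rw [card_product, card_univ, Fintype.card_fin]
        exact Nat.mul_le_mul_left m (h2 b)
      refine le_trans (card_le_card_of_injOn (fun x => (x.2, x.1.1)) (fun y hy => ?_) ?_) h3
      · obtain ⟨-, hy⟩ := (mem_bipartiteBelow _).1 (mem_coe.1 hy)
        exact mem_coe.2 (mem_product.2 ⟨mem_univ _, mem_filter.2 ⟨mem_univ _, hy⟩⟩)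
      · intro x _ y _ e
        exact Prod.ext (Subtype.ext (congrArg Prod.snd e)) (congrArg Prod.fst e)
  refine ⟨fun a => univ.filter (fun b => ∃ x, x.1.1 = a ∧ ψ x = b), fun a ha => ?_,
    fun a b hb => ?_, fun a a' b hb hb' => ?_⟩
  · have := card_le_card_of_injOn (s := (univ : Finset (Fin m)))
      (t := univ.filter (fun b => ∃ x, x.1.1 = a ∧ ψ x = b)) (fun j => ψ (⟨a, ha⟩, j))
      (fun j _ => mem_coe.2 (mem_filter.2 ⟨mem_univ _, _, rfl, rfl⟩))
      fun i _ j _ e => congrArg Prod.snd (hψ e)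
    rwa [card_univ, Fintype.card_fin] at this
  · obtain ⟨-, x, rfl, rfl⟩ := mem_filter.1 hb
    exact (mem_filter.1 (hr x)).2
  · obtain ⟨-, x, rfl, rfl⟩ := mem_filter.1 hb
    obtain ⟨-, y, rfl, e⟩ := mem_filter.1 hb'
    rw [hψ e]

theorem t_max : T_Max := by
  intro κ α _ _ att m hm
  obtain ⟨S, hS, hmax⟩ := exists_max_image (univ.filter fun S : κ → Finset α =>
    (∀ K, (S K).Nonempty → m ≤ (S K).card) ∧ (∀ K, ∀ x ∈ S K, att K x) ∧
      ∀ K K', ∀ x ∈ S K, x ∈ S K' → K = K')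
    (fun S => (univ.filter fun K => (S K).Nonempty).card) ⟨fun _ => ∅, by simp⟩
  obtain ⟨-, h1, h2, h3⟩ := mem_filter.1 hS
  refine ⟨fun K => (S K).Nonempty, S, h1, fun K x hx => ⟨⟨x, hx⟩, h2 K x hx⟩, h3, fun K hK => ?_⟩
  by_contra hc
  rw [not_lt] at hc
  obtain ⟨T, hT⟩ : ∃ T, T = univ.filter (fun x => att K x ∧ ∀ K', x ∉ S K') := ⟨_, rfl⟩
  rw [← hT] at hc
  have hm' : ∀ x ∈ T, att K x ∧ ∀ K', x ∉ S K' := fun x hx => by
    rw [hT] at hx
    exact (mem_filter.1 hx).2
  have key := hmax (update S K T) (mem_filter.2 ⟨mem_univ _, fun K' => ?_, fun K' => ?_,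
    fun K₁ K₂ x => ?_⟩)
  · refine absurd key (not_le.2 (card_lt_card ⟨fun K' h => ?_, fun h => ?_⟩))
    · have h4 := (mem_filter.1 h).2
      refine mem_filter.2 ⟨mem_univ _, ?_⟩
      have e : K' ≠ K := by
        rintro rfl
        exact hK h4
      rwa [update_of_ne e]
    · refine hK (mem_filter.1 (h (mem_filter.2 ⟨mem_univ _, ?_⟩))).2
      rw [update_self]
      exact card_pos.1 (hm.trans_le hc)
  · by_cases e : K' = K
    · rw [e, update_self]
      exact fun _ => hc
    · rw [update_of_ne e]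
      exact h1 K'
  · by_cases e : K' = K
    · rw [e, update_self]
      exact fun x hx => (hm' x hx).1
    · rw [update_of_ne e]
      exact h2 K'
  · by_cases e : K₁ = K <;> by_cases e' : K₂ = K
    · exact fun _ _ => e.trans e'.symm
    · rw [e, update_self, update_of_ne e']
      exact fun hx hx' => absurd hx' ((hm' x hx).2 K₂)
    · rw [e', update_self, update_of_ne e]
      exact fun hx hx' => absurd hx ((hm' x hx').2 K₁)
    · rw [update_of_ne e, update_of_ne e']
      exact h3 K₁ K₂ x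

theorem t_tail2 : T_Tail2 := by
  intro V _ G hconn g R Rich v p u hv hp hvp hu huv hdeg
  by_cases hpr : Rich p
  · refine ⟨[p], by simp, by simp, by simpa using hp, ⟨p, rfl, hvp⟩, fun r _ _ => ?_,
      Or.inr ⟨p, by simp, hpr⟩⟩
    refine le_trans (card_le_card (t := {p}) fun w hw => ?_) (by simp)
    simpa using (mem_filter.1 hw).2.2
  have hex : ∃ n, ∃ l, Tail G (fun w => R w ∧ ¬ Rich w) v l ∧
      (g ≤ l.length ∨ ∃ b ∈ l.getLast?, ∃ z, G.Adj b z ∧ R z ∧ Rich z) ∧ l.length = n := by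
    obtain ⟨l, h1, h2⟩ := HallAux.first hconn hv hp hvp hu huv hdeg hpr
    exact ⟨_, l, h1, h2, rfl⟩
  obtain ⟨l, hl, hg, hn⟩ := Nat.find_spec hex
  have hs := HallAux.short (g := g) hl fun l' h1 h2 =>
    hn ▸ Nat.find_min' hex ⟨l', h1, Or.inl h2, rfl⟩
  have hne := (tail_iff.1 hl).1
  obtain ⟨n1, n2, n3, n4, b, hb, z, hz, hz', hzv⟩ := hl
  by_cases hQ : ∃ b ∈ l.getLast?, ∃ z, G.Adj b z ∧ R z ∧ Rich z
  · obtain ⟨b, hb, z, h1, h2, h3⟩ := hQ
    refine ⟨l ++ [z], List.nodup_append.2 ⟨n1, by simp, ?_⟩,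
      n2.append (List.isChain_singleton _) ?_, fun w hw => ?_, ?_, fun r hr hrv => ?_,
      Or.inr ⟨z, by simp, h3⟩⟩
    · intro a ha c hc e
      rw [List.mem_singleton.1 hc] at e
      exact (n3 a ha).2 (e ▸ h3)
    · intro c hc d hd
      rw [Option.mem_def.1 hb] at hc
      cases hc
      cases hd
      exact h1
    · rcases List.mem_append.1 hw with h | h
      · exact (n3 w h).1
      · exact List.mem_singleton.1 h ▸ h2
    · rwa [List.head?_append_of_ne_nil _ hne]
    · have h4 := hs r (fun h => hr (List.mem_append_left _ h)) hrv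
      refine le_trans (card_le_card (t := insert z (univ.filter fun w => G.Adj r w ∧ w ∈ l))
        fun w hw => ?_) ((card_insert_le _ _).trans (by omega))
      simp only [mem_filter, mem_univ, true_and, List.mem_append, List.mem_singleton,
        mem_insert] at hw ⊢
      tauto
  · refine ⟨l, n1, n2, fun w hw => (n3 w hw).1, n4, fun r hr hrv => (hs r hr hrv).trans (by omega),
      Or.inl ⟨hg.resolve_right hQ, b, hb, z, hz, fun h => ?_, hzv⟩⟩
    exact hz' ⟨h, fun h' => hQ ⟨b, hb, z, hz, h, h'⟩⟩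

end Pool.Agent.MP_ee574f_co.CD

end

section

set_option autoImplicit false

namespace Pool.Agent.MP_ee574f_co.CD

open SimpleGraph Classical Finset Function

namespace ModelAux

variable {V : Type} {G : SimpleGraph V} {n : ℕ} {f : ZMod n → V}

/-- A piece is long if it has two admissible attachments. -/
def LgP (Ad : ZMod n → ZMod n → Prop) (p : ZMod n) : Prop := ∃ x y, x ≠ y ∧ Ad p x ∧ Ad p y

/-- Large hubs. -/
def H0 (H : Comp G f → Prop) : Comp G f ⊕ ZMod n → Prop
  | .inl K => H K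
  | .inr _ => False

/-- Long hubs. -/
def lg (G : SimpleGraph V) (f : ZMod n → V) (Ad : ZMod n → ZMod n → Prop) :
    Comp G f ⊕ ZMod n → Prop
  | .inl _ => False
  | .inr p => LgP Ad p

/-- Attachments. -/
def At (H : Comp G f → Prop) (T : ZMod n → V → Prop) (Ad : ZMod n → ZMod n → Prop)
    (x : ZMod n) : Comp G f ⊕ ZMod n → Prop
  | .inl K => H K ∧ Att x K
  | .inr p => (LgP Ad p ∧ Ad p x) ∨ (¬ LgP Ad p ∧ ∃ v, T p v ∧ G.Adj (f x) v)

/-- Territories. -/
def Tr (H : Comp G f → Prop) (T : ZMod n → V → Prop) : Comp G f ⊕ ZMod n → V → Prop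
  | .inl K, v => H K ∧ Mem v K
  | .inr p, v => T p v

/-- The sets of the large hubs. -/
def SS (S : Comp G f → Finset (ZMod n)) : Comp G f ⊕ ZMod n → Finset (ZMod n)
  | .inl K => S K
  | .inr _ => ∅

theorem lift (hL : T_Lift) (h : Long G n f) (H : Comp G f → Prop) (T : ZMod n → V → Prop)
    (Ad : ZMod n → ZMod n → Prop)
    (h1 : ∀ p v, T p v → v ∉ Set.range f ∧ ¬ H ((Out G f).connectedComponentMk v))
    (h2 : ∀ p p' v, T p v → T p' v → p = p')
    (h3 : ∀ p u w, T p u → T p w → (Ins G (T p)).Reachable u w)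
    (h4 : ∀ p x y, Ad p x → Ad p y → x ≠ y → Link G f (T p) x y) :
    Lift (At H T Ad) (lg G f Ad) := by
  refine hL V G n f h _ (At H T Ad) (lg G f Ad) (Tr H T) ?_ ?_ ?_
  · rintro (K | p) v hv
    · exact hv.2.2
    · exact (h1 p v hv).1
  · rintro (K | p) (K' | q) v hv hv'
    · rw [Mem.unique hv.2 hv'.2]
    · exact absurd (hv.2.1 ▸ hv.1) (h1 q v hv').2
    · exact absurd (hv'.2.1 ▸ hv'.1) (h1 p v hv).2
    · rw [h2 p q v hv hv']
  · rintro (K | p) x y hx hy hxy
    · obtain ⟨hK, v, hv, hxv⟩ := hx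
      obtain ⟨-, w, hw, hyw⟩ := hy
      obtain ⟨l, hl⟩ := seg_exists hv hw
      have hne := hl.ne_nil
      obtain ⟨nd, hc, hm, hh, ht⟩ := hl
      refine ⟨l, hne, nd, hc, fun u hu => ⟨hK, hm u hu⟩, ?_, ?_, fun e => e.elim⟩
      · intro a ha; rw [hh] at ha; cases ha; exact hxv
      · intro a ha; rw [ht] at ha; cases ha; exact hyw
    · by_cases hp : LgP Ad p
      · have ax : Ad p x := by
          rcases hx with hx | hx
          · exact hx.2
          · exact absurd hp hx.1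
        have ay : Ad p y := by
          rcases hy with hy | hy
          · exact hy.2
          · exact absurd hp hy.1
        obtain ⟨l, nd, hc, hm, hh, ht, hl⟩ := h4 p x y ax ay hxy
        refine ⟨l, ?_, nd, hc, hm, hh, ht, fun _ => hl⟩
        rintro rfl
        simp at hl
      · obtain ⟨v, hv, hxv⟩ : ∃ v, T p v ∧ G.Adj (f x) v := by
          rcases hx with hx | hx
          · exact absurd hx.1 hp
          · exact hx.2
        obtain ⟨w, hw, hyw⟩ : ∃ v, T p v ∧ G.Adj (f y) v := by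
          rcases hy with hy | hy
          · exact absurd hy.1 hp
          · exact hy.2
        obtain ⟨l, nd, hc, hm, hh, ht⟩ := ins_path hv (h3 p v w hv hw)
        refine ⟨l, ?_, nd, hc, hm, ?_, ?_, fun e => absurd e hp⟩
        · rintro rfl
          simp at hh
        · intro a ha; rw [hh] at ha; cases ha; exact hxv
        · intro a ha; rw [ht] at ha; cases ha; exact hyw

theorem nocl (hN : T_NoCl) (h : Long G n f) (H : Comp G f → Prop) (T : ZMod n → V → Prop)
    (Ad : ZMod n → ZMod n → Prop) : NoCl (At H T Ad) (H0 H) := by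
  intro M hh ρ hM hs
  refine hN V G n f h M
    (fun s => (hh s).elim id (fun _ => (Out G f).connectedComponentMk (f 0)))
    (fun K => ρ (.inl K)) hM ?_
  intro s h1
  have key := hs s h1
  rcases e : hh s with K | p
  · rw [e] at key
    obtain ⟨-, k2, k3, k4⟩ := key
    exact ⟨k2.2, k3.2, k4⟩
  · rw [e] at key
    exact key.1.elim

end ModelAux

open ModelAux in
theorem t_model : T_Max → T_Pieces2 → T_Lift → T_NoCl → T_Model := by
  intro hMax hP hL hN V _ G n _ f h m k hm hcon hdeg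
  have : Fintype (Comp G f) := Fintype.ofFinite _
  obtain ⟨H, S, s1, s2, s3, s4⟩ := hMax (Comp G f) (ZMod n) (fun K x => Att x K) m hm
  obtain ⟨T, Ad, p1, p2, p3, p4, p5⟩ := hP V G n f h m k hm
    (fun x => ∀ K, H K → ¬ Att x K) (fun x => ∃ K, x ∈ S K)
    (fun x hx ⟨K, hK⟩ => hx K (s2 K x hK).1 (s2 K x hK).2)
    (fun x K hx ha => by
      have := s4 K (fun hK => hx K hK ha)
      refine lt_of_le_of_lt (card_le_card ?_) this
      intro y hy
      simp only [mem_filter, mem_univ, true_and, not_exists] at hy ⊢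
      exact hy) hcon hdeg
  have hY : ∀ x : ZMod n, ∃ Y : Finset (ZMod n),
      (∃ r, T x r ∧ k ≤ (univ.filter (fun u => (∃ K, u ∈ S K) ∧ G.Adj (f u) r)).card) →
      Y.card = k ∧ ∀ u ∈ Y, (∃ K, u ∈ S K) ∧ ∃ r, T x r ∧ G.Adj (f u) r := by
    intro x
    by_cases hx : ∃ r, T x r ∧
        k ≤ (univ.filter (fun u => (∃ K, u ∈ S K) ∧ G.Adj (f u) r)).card
    · obtain ⟨r, hr, hk⟩ := hx
      obtain ⟨Y, hY1, hY2⟩ := Finset.exists_subset_card_eq hk
      refine ⟨Y, fun _ => ⟨hY2, fun u hu => ?_⟩⟩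
      have := (mem_filter.1 (hY1 hu)).2
      exact ⟨this.1, r, hr, this.2⟩
    · exact ⟨∅, fun e => absurd e hx⟩
  choose Y hY using hY
  have nl : ∀ x, (∀ y, Ad x y → y = x) → ¬ LgP Ad x := by
    rintro x hx ⟨a, b, hab, ha, hb⟩
    exact hab ((hx a ha).trans (hx b hb).symm)
  refine ⟨Comp G f ⊕ ZMod n, inferInstance, At H T Ad, lg G f Ad, H0 H, ?_, nocl hN h H T Ad, ?_⟩
  · refine lift hL h H T Ad (fun p v hv => ⟨(p1 p v hv).1, fun hK => ?_⟩) p2 p3 p4
    obtain ⟨x, hx, ha⟩ := (p1 p v hv).2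
    exact hx _ hK ha
  · refine ⟨⟨SS S, fun x => (∀ K, H K → ¬ Att x K) ∧ (∀ y, Ad x y → y = x) ∧
      (∃ v, T x v ∧ G.Adj (f x) v) ∧
      ∃ r, T x r ∧ k ≤ (univ.filter (fun u => (∃ K, u ∈ S K) ∧ G.Adj (f u) r)).card,
      fun x => .inr x, Y, ?_, ?_, ?_, ?_, ?_, ?_, ?_, ?_, ?_, ?_⟩⟩
    · rintro (K | p) hp
      · exact s1 K hp
      · exact hp.elim
    · rintro (K | p) hp x hx
      · exact s2 K x hx
      · exact hp.elim
    · rintro (K | p) (K' | q) hp hq x hx hx'
      · rw [s3 K K' x hx hx']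
      · exact hq.elim
      · exact hp.elim
      · exact hp.elim
    · rintro (K | p) hp
      · exact fun e => e
      · exact hp.elim
    · rintro x hx (K | p) hp ha
      · exact hx.1 K hp ha.2
      · exact hp.elim
    · intro x hx
      exact ⟨Or.inr ⟨nl x hx.2.1, hx.2.2.1⟩, fun e => e, nl x hx.2.1⟩
    · intro x x' _ _ e
      exact Sum.inr_injective e
    · intro x hx
      exact (hY x hx.2.2.2).1
    · intro x hx u hu
      obtain ⟨⟨K, hK⟩, r, hr, ha⟩ := (hY x hx.2.2.2).2 u hu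
      exact ⟨Or.inr ⟨nl x hx.2.1, r, hr, ha⟩, .inl K, (s2 K u hK).1, s2 K u hK⟩
    · intro x hx hb
      have hF : ∀ K, H K → ¬ Att x K := fun K hK ha => hx (.inl K) hK ⟨hK, ha⟩
      rcases p5 x hF with ⟨p, y, hy, a1, a2⟩ | h2
      · have l : LgP Ad p := ⟨y, x, hy, a2, a1⟩
        exact ⟨.inr p, y, l, hy, Or.inl ⟨l, a1⟩, Or.inl ⟨l, a2⟩⟩
      · refine absurd ⟨hF, h2.1, h2.2.1, ?_⟩ hb
        obtain ⟨r, hr, hk⟩ := h2.2.2
        exact ⟨r, hr, by convert hk⟩

end Pool.Agent.MP_ee574f_co.CD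

end

section

set_option autoImplicit false

namespace Pool.Agent.MP_ee574f_co.CD

open SimpleGraph Classical

theorem const_degree {V : Type} [Fintype V] {G : SimpleGraph V} {n : ℕ} {f : ZMod n → V}
    (hL : Long G n f) (hδ : ∀ v, 42000000000 ≤ G.degree v)
    (hconn : ∀ s : V, (G.induce ({s}ᶜ : Set V)).Connected) : False :=
  const_conn (t_model t_max (t_pieces2 t_tail2) t_lift t_nocl)
    (t_frame t_hall t_sparse t_ws t_level t_stage2)
    (t_false (t_par t_par1 t_ed t_parA (t_parB t_la t_ed)) t_tie t_use t_f1 (t_f4 t_f1) t_f5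
      (fun n _ hn W A h => run_ex n hn W A h)) hL hδ hconn

end Pool.Agent.MP_ee574f_co.CD

end
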